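import Pool.Agent.TTS.S9e
import Pool.Agent.QTB.S1a
import Pool.Agent.QTB.S1b
import Pool.Agent.QTB.S1c
import Pool.Agent.QTB.S4a
import Pool.Agent.QTB.S4b

set_option autoImplicit false

open NumberField Ideal IsDedekindDomain WeierstrassCurve.Affine
open scoped Classical

/-! # [TRX-B0] cocycles of subgroups of index two with values in `Ws d`

`K` a field, `Ω` an algebraic closure of `K`, `θ ∈ Ω` with `θ² = m ∈ K`. `H = {σ ∈ Gal(Ω/K) : σ θ = θ}` is the group of `K(θ)`. Port of `Pool/Agent/QTB/S0.lean` ff. from the curves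
`y² = x³ - d x` to the curves `Ws d`, in the style of TTS: `d ∈ Ω` is fixed by the Galois group (`hfix`).
-/

namespace TRX

open TR TTS
open QTB (Idx2 IsAct sg eta ext HH)

section
variable {K Ω : Type} [Field K] [Field Ω] [Algebra K Ω] {d : Ω}

/-- the action on the points -/
noncomputable def act (hfix : ∀ σ : Ω ≃ₐ[K] Ω, (σ : Ω →+* Ω) d = d) (σ : Ω ≃ₐ[K] Ω) :
    (Ws d).toAffine.Point →+ (Ws d).toAffine.Point :=
  ptH (σ : Ω →+* Ω) (hfix σ)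

theorem act_apply (hfix : ∀ σ : Ω ≃ₐ[K] Ω, (σ : Ω →+* Ω) d = d) (σ : Ω ≃ₐ[K] Ω)
    (P : (Ws d).toAffine.Point) : act hfix σ P = ptH (σ : Ω →+* Ω) (hfix σ) P := rfl

theorem ptH_id (h : RingHom.id Ω d = d) (P : (Ws d).toAffine.Point) : ptH (RingHom.id Ω) h P = P := by
  rcases P with _ | ⟨x, y, hxy⟩
  · rfl
  · rfl

theorem isAct (hfix : ∀ σ : Ω ≃ₐ[K] Ω, (σ : Ω →+* Ω) d = d) : IsAct (act hfix) := by
  refine ⟨fun a => ?_, fun g h a => ?_⟩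
  · exact ptH_id rfl a
  · exact (ptH_comp (h : Ω →+* Ω) (g : Ω →+* Ω) (hfix h) (hfix g) (hfix (g * h)) a).symm

/-- a crossed homomorphism of the subgroup `{σ : σ θ = θ}` (its values at the other `σ` do not matter) -/
structure RCoc (hfix : ∀ σ : Ω ≃ₐ[K] Ω, (σ : Ω →+* Ω) d = d) (θ : Ω)
    (X : (Ω ≃ₐ[K] Ω) → (Ws d).toAffine.Point) : Prop where
  fin : ∃ E : IntermediateField K Ω, FiniteDimensional K E ∧ θ ∈ E ∧ ∀ σ ∈ E.fixingSubgroup, X σ = 0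
  crossed : ∀ σ τ : Ω ≃ₐ[K] Ω, σ θ = θ → τ θ = θ →
    X (σ * τ) = X σ + ptH (σ : Ω →+* Ω) (hfix σ) (X τ)

/-- the restriction of the relative cocycle `X` to the Galois group of `Kv(θ)` is principal, for every embedding -/
def RLoc (θ : Ω) (X : (Ω ≃ₐ[K] Ω) → (Ws d).toAffine.Point) (Kv Ωv : Type) [Field Kv]
    [Algebra K Kv] [Field Ωv] [Algebra Kv Ωv] [Algebra K Ωv] [IsScalarTower K Kv Ωv] : Prop :=
  ∀ (ι : Ω →ₐ[K] Ωv) (dv : Ωv) (h : (ι : Ω →+* Ωv) d = dv)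
    (hfix : ∀ τ : Ωv ≃ₐ[Kv] Ωv, (τ : Ωv →+* Ωv) dv = dv), ∃ Q : (Ws dv).toAffine.Point,
    ∀ (τ : Ωv ≃ₐ[Kv] Ωv) (σ : Ω ≃ₐ[K] Ω), (∀ x, ι (σ x) = τ (ι x)) → σ θ = θ →
      ptH (ι : Ω →+* Ωv) h (X σ) = ptH (τ : Ωv →+* Ωv) (hfix τ) Q - Q

/-- a crossed homomorphism which vanishes on an open subgroup is locally constant (port of `QTB.coc_of_vanish`) -/
theorem coc_of_vanish (hfix : ∀ σ : Ω ≃ₐ[K] Ω, (σ : Ω →+* Ω) d = d)
    {c : (Ω ≃ₐ[K] Ω) → (Ws d).toAffine.Point}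
    (hc : ∀ σ τ : Ω ≃ₐ[K] Ω, c (σ * τ) = c σ + ptH (σ : Ω →+* Ω) (hfix σ) (c τ))
    (h : ∃ E : IntermediateField K Ω, FiniteDimensional K E ∧ ∀ σ ∈ E.fixingSubgroup, c σ = 0) :
    Coc K Ω hfix c := by
  obtain ⟨M, hM, hv⟩ := h
  refine ⟨?_, hc⟩
  rw [IsLocallyConstant.iff_exists_open]
  intro σ
  refine ⟨{τ | σ⁻¹ * τ ∈ M.fixingSubgroup}, ?_, ?_, ?_⟩
  · have h1 : IsOpen (M.fixingSubgroup : Set (Ω ≃ₐ[K] Ω)) := IntermediateField.fixingSubgroup_isOpen M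
    exact h1.preimage (continuous_const_mul σ⁻¹)
  · show σ⁻¹ * σ ∈ M.fixingSubgroup
    rw [inv_mul_cancel]
    exact one_mem _
  · intro τ hτ
    have h2 : c (σ * (σ⁻¹ * τ)) = c σ + ptH (σ : Ω →+* Ω) (hfix σ) (c (σ⁻¹ * τ)) := hc _ _
    rw [mul_inv_cancel_left, hv _ hτ, map_zero, add_zero] at h2
    exact h2

/-- a cocycle vanishes on an open subgroup -/
theorem exists_vanish {hfix : ∀ σ : Ω ≃ₐ[K] Ω, (σ : Ω →+* Ω) d = d}
    {c : (Ω ≃ₐ[K] Ω) → (Ws d).toAffine.Point} (hc : Coc K Ω hfix c) :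
    ∃ E : IntermediateField K Ω, FiniteDimensional K E ∧ ∀ σ ∈ E.fixingSubgroup, c σ = 0 := by
  have h1 : c 1 = 0 := by
    have h2 := hc.crossed 1 1
    rw [mul_one] at h2
    have h3 : ptF ((1 : Ω ≃ₐ[K] Ω) : Ω →+* Ω) (hfix 1) (c 1) = c 1 := ptH_id rfl (c 1)
    rw [h3] at h2
    exact left_eq_add.1 h2
  obtain ⟨U, hU, h1U, hU'⟩ := (IsLocallyConstant.iff_exists_open _).1 hc.loc 1
  have h3 : U ∈ nhds (1 : Ω ≃ₐ[K] Ω) := hU.mem_nhds h1U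
  rw [krullTopology_mem_nhds_one_iff] at h3
  obtain ⟨E, hfin, hE⟩ := h3
  exact ⟨E, hfin, fun σ hσ => by rw [hU' σ (hE hσ), h1]⟩

end

end TRX
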