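import Pool.Agent.TRX.B0

set_option autoImplicit false

open NumberField Ideal IsDedekindDomain WeierstrassCurve.Affine
open scoped Classical

/-! # [TRX-B1] the isomorphism `(x, y) ↦ (u² x, u³ y)` from `Ws d` to `Ws (u² d)`. Port of `Pool/Agent/QTB/S2.lean` -/

namespace TRX

open TR TTS

section

variable {K : Type} [Field K] {d d' u : K}

/-- PROOF. As `QTB.scal_nonsing`: `WeierstrassCurve.Affine.nonsingular_iff`, `TTS.eq_iff`; the equation is multiplied by `u ^ 6`; the derivatives by `u ^ 4` and `u ^ 3`. -/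
theorem scal_nonsing (hu : u ≠ 0) (h : d' = u ^ 2 * d) {x y : K}
    (hxy : (Ws d).toAffine.Nonsingular x y) : (Ws d').toAffine.Nonsingular (u ^ 2 * x) (u ^ 3 * y) := by
  rw [WeierstrassCurve.Affine.nonsingular_iff] at hxy ⊢
  rw [TTS.eq_iff] at hxy ⊢
  obtain ⟨h1, h2⟩ := hxy
  refine ⟨by rw [h]; linear_combination (u ^ 6) * h1, ?_⟩
  simp only [Ws] at h2 ⊢
  rcases h2 with h2 | h2
  · left
    intro h3
    apply h2
    have h4 : u ^ 4 ≠ 0 := pow_ne_zero _ hu
    apply mul_left_cancel₀ h4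
    rw [h] at h3
    linear_combination h3
  · right
    intro h3
    apply h2
    have h4 : u ^ 3 ≠ 0 := pow_ne_zero _ hu
    apply mul_left_cancel₀ h4
    linear_combination h3

theorem b1_addX (x₁ x₂ l : K) : (Ws d).toAffine.addX x₁ x₂ l = l ^ 2 - x₁ - x₂ := by
  simp only [WeierstrassCurve.Affine.addX, Ws]
  ring

theorem b1_addY (x₁ x₂ y₁ l : K) :
    (Ws d).toAffine.addY x₁ x₂ y₁ l = -(l * (l ^ 2 - x₁ - x₂ - x₁) + y₁) := by
  simp only [WeierstrassCurve.Affine.addY, WeierstrassCurve.Affine.negAddY,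
    WeierstrassCurve.Affine.addX, WeierstrassCurve.Affine.negY, Ws]
  ring

theorem b1_negY (X Y : K) : (Ws d).toAffine.negY X Y = -Y := by
  simp only [WeierstrassCurve.Affine.negY, Ws]
  ring

theorem b1_slope (hu : u ≠ 0) (h : d' = u ^ 2 * d) (x₁ x₂ y₁ y₂ : K)
    (h₁ : (Ws d).toAffine.Equation x₁ y₁) (h₂ : (Ws d).toAffine.Equation x₂ y₂)
    (hxy : ¬ (x₁ = x₂ ∧ y₁ = (Ws d).toAffine.negY x₂ y₂)) :
    (Ws d').toAffine.slope (u ^ 2 * x₁) (u ^ 2 * x₂) (u ^ 3 * y₁) (u ^ 3 * y₂) =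
      u * (Ws d).toAffine.slope x₁ x₂ y₁ y₂ := by
  have hu2 : u ^ 2 ≠ 0 := pow_ne_zero _ hu
  have hu3 : u ^ 3 ≠ 0 := pow_ne_zero _ hu
  by_cases hx : x₁ = x₂
  · have hy : y₁ ≠ (Ws d).toAffine.negY x₂ y₂ := fun h => hxy ⟨hx, h⟩
    have hy12 : y₁ = y₂ := WeierstrassCurve.Affine.Y_eq_of_Y_ne h₁ h₂ hx hy
    have hy' : u ^ 3 * y₁ ≠ (Ws d').toAffine.negY (u ^ 2 * x₂) (u ^ 3 * y₂) := by
      rw [b1_negY] at hy ⊢
      intro h
      apply hy
      apply mul_left_cancel₀ hu3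
      linear_combination h
    rw [WeierstrassCurve.Affine.slope_of_Y_ne hx hy,
      WeierstrassCurve.Affine.slope_of_Y_ne (by rw [hx]) hy']
    rw [b1_negY] at hy
    rw [b1_negY, b1_negY]
    simp only [Ws]
    have h2 : y₁ - -y₁ ≠ 0 := by
      intro h
      apply hy
      rw [← hy12]
      linear_combination h
    have h3 : u ^ 3 * y₁ - -(u ^ 3 * y₁) ≠ 0 := by
      have : u ^ 3 * y₁ - -(u ^ 3 * y₁) = u ^ 3 * (y₁ - -y₁) := by ring
      rw [this]
      exact mul_ne_zero hu3 h2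
    rw [div_eq_iff h3, mul_div_assoc', div_mul_eq_mul_div, eq_div_iff h2, h]
    ring
  · have hx' : u ^ 2 * x₁ ≠ u ^ 2 * x₂ := fun h => hx (mul_left_cancel₀ hu2 h)
    rw [WeierstrassCurve.Affine.slope_of_X_ne hx, WeierstrassCurve.Affine.slope_of_X_ne hx']
    have h2 : x₁ - x₂ ≠ 0 := sub_ne_zero.2 hx
    have h3 : u ^ 2 * x₁ - u ^ 2 * x₂ ≠ 0 := sub_ne_zero.2 hx'
    rw [div_eq_iff h3, mul_div_assoc', div_mul_eq_mul_div, eq_div_iff h2]
    ring

/-- `(x, y) ↦ (u² x, u³ y)` -/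
def scalP (hu : u ≠ 0) (h : d' = u ^ 2 * d) : (Ws d).toAffine.Point → (Ws d').toAffine.Point
  | .zero => .zero
  | .some x y hxy => .some (u ^ 2 * x) (u ^ 3 * y) (scal_nonsing hu h hxy)

/-- PROOF. As `QTB.scalP_add` (with `QTB.s2_slope`): the slope is multiplied by `u`. (`TTS.s1_negY`.) -/
theorem scalP_add (hu : u ≠ 0) (h : d' = u ^ 2 * d) (P Q : (Ws d).toAffine.Point) :
    scalP hu h (P + Q) = scalP hu h P + scalP hu h Q := by
  cases P with
  | zero =>
    have h0 : (WeierstrassCurve.Affine.Point.zero : (Ws d).toAffine.Point) = 0 := rfl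
    have h1 : scalP hu h (0 : (Ws d).toAffine.Point) = 0 := rfl
    rw [h0, zero_add, h1, zero_add]
  | some x₁ y₁ h₁ =>
    cases Q with
    | zero =>
      have h0 : (WeierstrassCurve.Affine.Point.zero : (Ws d).toAffine.Point) = 0 := rfl
      have h1 : scalP hu h (0 : (Ws d).toAffine.Point) = 0 := rfl
      rw [h0, add_zero, h1, add_zero]
    | some x₂ y₂ h₂ =>
      have hu2 : u ^ 2 ≠ 0 := pow_ne_zero _ hu
      have hu3 : u ^ 3 ≠ 0 := pow_ne_zero _ hu
      by_cases hxy : x₁ = x₂ ∧ y₁ = (Ws d).toAffine.negY x₂ y₂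
      · rw [WeierstrassCurve.Affine.Point.add_of_Y_eq hxy.1 hxy.2]
        have h1 : scalP hu h (0 : (Ws d).toAffine.Point) = 0 := rfl
        rw [h1]
        symm
        apply WeierstrassCurve.Affine.Point.add_of_Y_eq
        · rw [hxy.1]
        · rw [hxy.2, b1_negY, b1_negY]
          ring
      · rw [WeierstrassCurve.Affine.Point.add_some hxy]
        have hxy' : ¬ (u ^ 2 * x₁ = u ^ 2 * x₂ ∧
            u ^ 3 * y₁ = (Ws d').toAffine.negY (u ^ 2 * x₂) (u ^ 3 * y₂)) := by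
          rintro ⟨h3, h4⟩
          apply hxy
          rw [b1_negY] at h4 ⊢
          refine ⟨mul_left_cancel₀ hu2 h3, mul_left_cancel₀ hu3 ?_⟩
          linear_combination h4
        simp only [scalP]
        rw [WeierstrassCurve.Affine.Point.add_some hxy']
        rw [WeierstrassCurve.Affine.Point.some.injEq]
        rw [b1_slope hu h x₁ x₂ y₁ y₂ h₁.1 h₂.1 hxy]
        simp only [b1_addX, b1_addY]
        constructor <;> ring

theorem b1_scalP (hu : u ≠ 0) (h : d' = u ^ 2 * d) {u' : K} (hu' : u' ≠ 0) (h' : d = u' ^ 2 * d')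
    (huu : u' * u = 1) (P : (Ws d).toAffine.Point) : scalP hu' h' (scalP hu h P) = P := by
  cases P with
  | zero => rfl
  | some x y hP =>
    simp only [scalP, WeierstrassCurve.Affine.Point.some.injEq]
    have h2 : u' ^ 2 * u ^ 2 = 1 := by rw [← mul_pow, huu, one_pow]
    have h3 : u' ^ 3 * u ^ 3 = 1 := by rw [← mul_pow, huu, one_pow]
    constructor
    · linear_combination x * h2
    · linear_combination y * h3

/-- the additive homomorphism -/
noncomputable def scalH (hu : u ≠ 0) (h : d' = u ^ 2 * d) :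
    (Ws d).toAffine.Point →+ (Ws d').toAffine.Point :=
  AddMonoidHom.mk' (scalP hu h) (scalP_add hu h)

/-- PROOF. As `QTB.scalP_neg_u`. -/
theorem scalH_neg_u (hu : u ≠ 0) (h : d' = u ^ 2 * d) {u' : K} (hu' : u' ≠ 0) (h' : d' = u' ^ 2 * d)
    (huu : u' = -u) (P : (Ws d).toAffine.Point) : scalH hu' h' P = -scalH hu h P := by
  change scalP hu' h' P = -scalP hu h P
  cases P with
  | zero => rfl
  | some x y hP =>
    simp only [scalP, WeierstrassCurve.Affine.Point.neg_some,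
      WeierstrassCurve.Affine.Point.some.injEq, b1_negY]
    rw [huu]
    constructor <;> ring

/-- PROOF. As `QTB.ptW_scalP`. -/
theorem ptH_scalH {L : Type} [Field L] (f : K →+* L) {δ δ' v : L} (hu : u ≠ 0) (h : d' = u ^ 2 * d)
    (hδ : f d = δ) (hδ' : f d' = δ') (hv : v ≠ 0) (h' : δ' = v ^ 2 * δ) (huv : f u = v)
    (P : (Ws d).toAffine.Point) : ptH f hδ' (scalH hu h P) = scalH hv h' (ptH f hδ P) := by
  subst huv
  change ptF f hδ' (scalP hu h P) = scalP hv h' (ptF f hδ P)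
  cases P with
  | zero => rfl
  | some x y hP =>
    simp only [scalP, ptF, map_mul, map_pow]

/-- PROOF. As `QTB.scalP_injective` (the inverse is the map for `u⁻¹`). -/
theorem scalH_injective (hu : u ≠ 0) (h : d' = u ^ 2 * d) : Function.Injective (scalH hu h) := by
  have hi : u⁻¹ ≠ 0 := inv_ne_zero hu
  have h' : d = u⁻¹ ^ 2 * d' := by
    rw [h]
    field_simp
  exact Function.LeftInverse.injective (g := scalP hi h') fun P =>
    b1_scalP hu h hi h' (inv_mul_cancel₀ hu) P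

/-- PROOF. As `QTB.scalP_surjective`. -/
theorem scalH_surjective (hu : u ≠ 0) (h : d' = u ^ 2 * d) : Function.Surjective (scalH hu h) := by
  have hi : u⁻¹ ≠ 0 := inv_ne_zero hu
  have h' : d = u⁻¹ ^ 2 * d' := by
    rw [h]
    field_simp
  exact Function.RightInverse.surjective (g := scalP hi h') fun P =>
    b1_scalP hi h' hu h (mul_inv_cancel₀ hu) P

end

end TRX
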