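import Pool.Agent.TRX.B1

set_option autoImplicit false

open NumberField Ideal IsDedekindDomain WeierstrassCurve.Affine
open scoped Classical

/-! # [TRX-B2] the twisted corestriction for `Ws d`, `Ws (θ² d)`. Port of `Pool/Agent/QTB/S5.lean` -/

namespace TRX

open TR TTS
open QTB (Idx2 IsAct sg eta ext HH)

section

variable {K Ω : Type} [Field K] [Field Ω] [Algebra K Ω] {d d' : Ω}

theorem theta_ne {m : K} (hm : m ≠ 0) {θ : Ω} (hθ : θ ^ 2 = algebraMap K Ω m) : θ ≠ 0 := by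
  rintro rfl
  rw [zero_pow two_ne_zero] at hθ
  exact hm ((map_eq_zero (algebraMap K Ω)).1 hθ.symm)

/-- the corestriction as a cochain with values in the points of the twisted curve `Ws d'`, `d' = θ² d` -/
noncomputable def etaT (hfix : ∀ σ : Ω ≃ₐ[K] Ω, (σ : Ω →+* Ω) d = d) {m : K} (hm : m ≠ 0) {θ : Ω}
    (hθ : θ ^ 2 = algebraMap K Ω m) (hdd : d' = θ ^ 2 * d) (τ : Ω ≃ₐ[K] Ω)
    (X : (Ω ≃ₐ[K] Ω) → (Ws d).toAffine.Point) (σ : Ω ≃ₐ[K] Ω) : (Ws d').toAffine.Point :=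
  scalH (theta_ne hm hθ) hdd (eta (act hfix) (HH θ) τ X σ)

/-- PROOF. As `QTB.scal_sg`: `ptH_scalH` with `u = θ`, `v = σ θ = ± θ` (`QTB.not_HH`), `scalH_neg_u`. -/
theorem scal_sg [CharZero K] (hfix : ∀ σ : Ω ≃ₐ[K] Ω, (σ : Ω →+* Ω) d = d)
    (hfix' : ∀ σ : Ω ≃ₐ[K] Ω, (σ : Ω →+* Ω) d' = d') {m : K} (hm : m ≠ 0) {θ : Ω}
    (hθ : θ ^ 2 = algebraMap K Ω m) (hdd : d' = θ ^ 2 * d) (σ : Ω ≃ₐ[K] Ω)
    (P : (Ws d).toAffine.Point) :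
    ptH (σ : Ω →+* Ω) (hfix' σ) (scalH (theta_ne hm hθ) hdd P) =
      scalH (theta_ne hm hθ) hdd (sg (HH θ) σ (act hfix σ P)) := by
  by_cases h : HH θ σ
  · have h1 : sg (HH θ) σ (act hfix σ P) = act hfix σ P := if_pos h
    rw [h1]
    exact ptH_scalH (σ : Ω →+* Ω) (theta_ne hm hθ) hdd (hfix σ) (hfix' σ) (theta_ne hm hθ) hdd h P
  · have h1 : sg (HH θ) σ (act hfix σ P) = -act hfix σ P := if_neg h
    have h2 : σ θ = -θ := QTB.not_HH hθ h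
    have hv : -θ ≠ 0 := neg_ne_zero.2 (theta_ne hm hθ)
    have hv4 : d' = (-θ) ^ 2 * d := by
      rw [hdd]; ring
    have h3 := ptH_scalH (σ : Ω →+* Ω) (theta_ne hm hθ) hdd (hfix σ) (hfix' σ) hv hv4 h2 P
    have h4 := scalH_neg_u (theta_ne hm hθ) hdd hv hv4 rfl (ptH (σ : Ω →+* Ω) (hfix σ) P)
    rw [h1, map_neg, h3, h4]
    rfl

theorem b2_crossed {hfix : ∀ σ : Ω ≃ₐ[K] Ω, (σ : Ω →+* Ω) d = d} {θ : Ω}
    {X : (Ω ≃ₐ[K] Ω) → (Ws d).toAffine.Point}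
    (hX : RCoc hfix θ X) (g h : Ω ≃ₐ[K] Ω) (hg : HH θ g) (hh : HH θ h) :
    X (g * h) = X g + act hfix g (X h) := hX.crossed g h hg hh

/-- PROOF. As `QTB.etaT_coc`. `coc_of_vanish`. Crossed: `QTB.eta_crossed` (`isAct`, `QTB.idx2`, `RCoc.crossed`), `scal_sg`. Vanishing: `E` from `RCoc.fin`, `N` from
`QTB.exists_conj_fix E τ`; the compositum `E ⊔ N`; for `σ` in its fixing group: `σ θ = θ` (`θ ∈ E`), `X σ = 0`, `X (τ⁻¹ σ τ) = 0`. -/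
theorem etaT_coc [CharZero K] (hfix : ∀ σ : Ω ≃ₐ[K] Ω, (σ : Ω →+* Ω) d = d)
    (hfix' : ∀ σ : Ω ≃ₐ[K] Ω, (σ : Ω →+* Ω) d' = d') {m : K} (hm : m ≠ 0) {θ : Ω}
    (hθ : θ ^ 2 = algebraMap K Ω m) (hdd : d' = θ ^ 2 * d) {τ : Ω ≃ₐ[K] Ω}
    (hτ : τ θ ≠ θ) {X : (Ω ≃ₐ[K] Ω) → (Ws d).toAffine.Point} (hX : RCoc hfix θ X) :
    Coc K Ω hfix' (etaT hfix hm hθ hdd τ X) := by
  apply coc_of_vanish
  · intro σ ρ
    unfold etaT
    rw [QTB.eta_crossed (isAct hfix) (QTB.idx2 hm hθ hτ) (b2_crossed hX) σ ρ, map_add,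
      scal_sg hfix hfix' hm hθ]
  · obtain ⟨M, hMfin, hθM, hM0⟩ := hX.fin
    obtain ⟨N, hNfin, hN⟩ := QTB.exists_conj_fix M τ
    refine ⟨M ⊔ N, inferInstance, fun σ hσ => ?_⟩
    have hσM : σ ∈ M.fixingSubgroup := by
      rw [IntermediateField.mem_fixingSubgroup_iff] at hσ ⊢
      exact fun x hx => hσ x ((le_sup_left : M ≤ M ⊔ N) hx)
    have hσN : σ ∈ N.fixingSubgroup := by
      rw [IntermediateField.mem_fixingSubgroup_iff] at hσ ⊢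
      exact fun x hx => hσ x ((le_sup_right : N ≤ M ⊔ N) hx)
    have hσθ : HH θ σ := (IntermediateField.mem_fixingSubgroup_iff M σ).1 hσM θ hθM
    have h1 : eta (act hfix) (HH θ) τ X σ = 0 := by
      unfold eta
      rw [if_pos hσθ, hM0 σ hσM, hM0 _ (hN σ hσN), map_zero, sub_zero]
    unfold etaT
    rw [h1, map_zero]

/-- PROOF. As `QTB.ext_coc`: `coc_of_vanish`, `QTB.ext_crossed`, and `RCoc.fin` (`θ ∈ E`). -/
theorem ext_coc [CharZero K] (hfix : ∀ σ : Ω ≃ₐ[K] Ω, (σ : Ω →+* Ω) d = d) {m : K} (hm : m ≠ 0) {θ : Ω}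
    (hθ : θ ^ 2 = algebraMap K Ω m) {τ : Ω ≃ₐ[K] Ω}
    (hτ : τ θ ≠ θ) {X : (Ω ≃ₐ[K] Ω) → (Ws d).toAffine.Point} (hX : RCoc hfix θ X)
    {P : (Ws d).toAffine.Point}
    (hη : ∀ σ, eta (act hfix) (HH θ) τ X σ = sg (HH θ) σ (act hfix σ P) - P) :
    Coc K Ω hfix (ext (act hfix) (HH θ) τ X P) := by
  apply coc_of_vanish
  · intro σ ρ
    exact QTB.ext_crossed (isAct hfix) (QTB.idx2 hm hθ hτ) (b2_crossed hX) hη σ ρ
  · obtain ⟨M, hMfin, hθM, hM0⟩ := hX.fin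
    refine ⟨M, hMfin, fun σ hσ => ?_⟩
    have hσθ : HH θ σ := (IntermediateField.mem_fixingSubgroup_iff M σ).1 hσ θ hθM
    unfold QTB.ext
    rw [if_pos hσθ, hM0 σ hσ]

end

end TRX
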