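import Pool.Agent.TRX.B2

set_option autoImplicit false

open NumberField Ideal IsDedekindDomain WeierstrassCurve.Affine
open scoped Classical

/-! # [TRX-B3] local triviality of the corestriction. Port of `Pool/Agent/QTB/S5b.lean` -/

namespace TRX

open TR TTS
open QTB (Idx2 IsAct sg eta ext HH)

theorem b3_conj {K Ω : Type} [Field K] [Field Ω] [Algebra K Ω] {H : (Ω ≃ₐ[K] Ω) → Prop}
    {τ : Ω ≃ₐ[K] Ω} (hH : Idx2 H τ) {g : Ω ≃ₐ[K] Ω} (hg : H g) : H (τ⁻¹ * g * τ) := by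
  have h1 := hH.one
  rw [← inv_mul_cancel τ, hH.mul] at h1
  rw [hH.mul, hH.mul]
  have h2 := hH.tau
  tauto

section

variable {K Ω : Type} [Field K] [Field Ω] [Algebra K Ω] {d d' : Ω}

/-- PROOF. As `QTB.etaT_loc`. Given `ι`, `dv'` (the image of `d'`), `hfixv'`. `dv = ι d`; it is fixed by `Gal(Ωv/Kv)`, because `d` comes from `K` (`d₀`). `r` from `QTB.exists_res ι`; the hypothesis
`h ι` gives `Q1`. Case 1: all `γ` have `r γ θ = θ`: `h (ι.comp τ)` gives `Q2` (`(ι.comp τ) d = dv` as `τ d = d`); the pair `(γ, τ⁻¹ r(γ) τ)` is compatible with `ι ∘ τ`. `QTB.eta_loc_split`. Case 2: `t` with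
`r t θ ≠ θ`: `QTB.eta_loc_nonsplit`. Then apply `scalH` for `ι θ` over `Ωv` (`ptH_scalH`): the sign becomes the action of `γ` on `ι θ` (as in `scal_sg`). -/
theorem etaT_loc [CharZero K] [IsAlgClosure K Ω] {d₀ : K} (hd₀ : algebraMap K Ω d₀ = d)
    (hfix : ∀ σ : Ω ≃ₐ[K] Ω, (σ : Ω →+* Ω) d = d) {m : K} (hm : m ≠ 0) {θ : Ω}
    (hθ : θ ^ 2 = algebraMap K Ω m) (hdd : d' = θ ^ 2 * d)
    {τ : Ω ≃ₐ[K] Ω} (hτ : τ θ ≠ θ) {X : (Ω ≃ₐ[K] Ω) → (Ws d).toAffine.Point} (hX : RCoc hfix θ X)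
    {Kv Ωv : Type} [Field Kv] [Algebra K Kv] [Field Ωv] [Algebra Kv Ωv] [Algebra K Ωv] [IsScalarTower K Kv Ωv]
    (h : RLoc θ X Kv Ωv) : LocTriv (etaT hfix hm hθ hdd τ X) Kv Ωv := by
  intro ι dv' hιd' hfixv'
  obtain ⟨r, hr, huniq⟩ := QTB.exists_res (Kv := Kv) ι
  have hιm : (ι θ) ^ 2 = algebraMap K Ωv m := by
    rw [← map_pow, hθ]
    exact ι.commutes m
  have hιθ : ι θ ≠ 0 := theta_ne hm hιm
  obtain ⟨dv, hιd⟩ : ∃ dv : Ωv, (ι : Ω →+* Ωv) d = dv := ⟨_, rfl⟩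
  have hdv : dv = algebraMap K Ωv d₀ := by
    rw [← hιd, ← hd₀]
    exact ι.commutes d₀
  have hfixv : ∀ τ : Ωv ≃ₐ[Kv] Ωv, (τ : Ωv →+* Ωv) dv = dv := by
    intro τ
    rw [hdv, IsScalarTower.algebraMap_apply K Kv Ωv]
    exact τ.commutes _
  have hdd' : dv' = (ι θ) ^ 2 * dv := by
    rw [← hιd', ← hιd, hdd]
    exact (map_mul ι _ _).trans (by rw [map_pow]; rfl)
  have hidx := QTB.idx2 (K := K) hm hθ hτ
  have hX' : ∀ g h : Ω ≃ₐ[K] Ω, HH θ g → HH θ h → X (g * h) = X g + act hfix g (X h) :=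
    fun g h hg hh => hX.crossed g h hg hh
  obtain ⟨ρ', hρ'⟩ : ∃ ρ' : (Ωv ≃ₐ[Kv] Ωv) → (Ws dv).toAffine.Point →+
      (Ws dv).toAffine.Point,
      ∀ γ P, ρ' γ P = ptH (γ : Ωv →+* Ωv) (hfixv γ) P :=
    ⟨fun γ => ptH (γ : Ωv →+* Ωv) (hfixv γ), fun _ _ => rfl⟩
  obtain ⟨ιP, hιP⟩ : ∃ ιP : (Ws d).toAffine.Point →+ (Ws dv).toAffine.Point,
      ∀ P, ιP P = ptH (ι : Ω →+* Ωv) hιd P :=
    ⟨ptH (ι : Ω →+* Ωv) hιd, fun _ => rfl⟩
  have hact' : IsAct ρ' := by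
    constructor
    · intro a
      rw [hρ']
      exact ptH_id rfl a
    · intro g h a
      rw [hρ', hρ', hρ']
      exact (ptH_comp (h : Ωv →+* Ωv) (g : Ωv →+* Ωv) (hfixv h) (hfixv g) (hfixv (g * h)) a).symm
  have hι : ∀ γ a, ιP (act hfix (r γ) a) = ρ' γ (ιP a) := by
    intro γ a
    have e : ((ι : Ω →+* Ωv).comp ((r γ : Ω ≃ₐ[K] Ω) : Ω →+* Ω)) =
        ((γ : Ωv →+* Ωv).comp (ι : Ω →+* Ωv)) := RingHom.ext fun x => hr γ x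
    have e1 : ((ι : Ω →+* Ωv).comp ((r γ : Ω ≃ₐ[K] Ω) : Ω →+* Ω)) d = dv := by
      rw [RingHom.comp_apply, hfix (r γ), hιd]
    have e2 : ((γ : Ωv →+* Ωv).comp (ι : Ω →+* Ωv)) d = dv := by
      rw [RingHom.comp_apply, hιd, hfixv γ]
    rw [hιP, hιP, hρ', act_apply, ptH_comp _ _ (hfix (r γ)) hιd e1, ptH_comp _ _ hιd (hfixv γ) e2]
    exact s5_congr e e1 e2 a
  obtain ⟨Q1, hQ1⟩ := h ι dv hιd hfixv
  have h1 : ∀ γ, HH θ (r γ) → ιP (X (r γ)) = ρ' γ Q1 - Q1 := by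
    intro γ hγ
    rw [hιP, hρ']
    exact hQ1 γ (r γ) (hr γ) hγ
  have hR : ∃ R : (Ws dv).toAffine.Point, ∀ γ,
      ιP (eta (act hfix) (HH θ) τ X (r γ)) = (if HH θ (r γ) then ρ' γ R else -ρ' γ R) - R := by
    by_cases hall : ∀ γ, HH θ (r γ)
    · have hcd : ((ι.comp (τ : Ω →ₐ[K] Ω) : Ω →ₐ[K] Ωv) : Ω →+* Ωv) d = dv := by
        have e3 : (τ : Ω →+* Ω) d = d := hfix τ
        have e4 : ((ι.comp (τ : Ω →ₐ[K] Ω) : Ω →ₐ[K] Ωv) : Ω →+* Ωv) d =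
            (ι : Ω →+* Ωv) ((τ : Ω →+* Ω) d) := rfl
        rw [e4, e3, hιd]
      obtain ⟨Q2, hQ2⟩ := h (ι.comp (τ : Ω →ₐ[K] Ω)) dv hcd hfixv
      have h2 : ∀ γ, ιP (act hfix τ (X (τ⁻¹ * r γ * τ))) = ρ' γ Q2 - Q2 := by
        intro γ
        have hσ : ∀ x, (ι.comp (τ : Ω →ₐ[K] Ω)) ((τ⁻¹ * r γ * τ) x) =
            γ ((ι.comp (τ : Ω →ₐ[K] Ω)) x) := by
          intro x
          change ι (τ ((τ⁻¹ * r γ * τ) x)) = γ (ι (τ x))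
          rw [← hr γ (τ x)]
          congr 1
          rw [← AlgEquiv.mul_apply, ← mul_assoc, ← mul_assoc, mul_inv_cancel, one_mul]
          rfl
        have h3 := hQ2 γ (τ⁻¹ * r γ * τ) hσ (b3_conj hidx (hall γ))
        have e1 : ((ι : Ω →+* Ωv).comp (τ : Ω →+* Ω)) d = dv := by
          rw [RingHom.comp_apply, hfix τ, hιd]
        rw [hιP, hρ', act_apply, ptH_comp _ _ (hfix τ) hιd e1]
        rw [← h3]
        exact s5_congr rfl e1 hcd _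
      refine ⟨Q1 - Q2, fun γ => ?_⟩
      rw [if_pos (hall γ)]
      exact QTB.eta_loc_split hall (fun γ => h1 γ (hall γ)) h2 γ
    · push Not at hall
      obtain ⟨t, ht⟩ := hall
      exact QTB.eta_loc_nonsplit (isAct hfix) hact' hidx hι hX' ht h1
  obtain ⟨R, hR⟩ := hR
  refine ⟨scalH hιθ hdd' R, fun γ σ hσ => ?_⟩
  have hσr : σ = r γ := huniq γ σ hσ
  subst hσr
  have e1 : ptH (ι : Ω →+* Ωv) hιd' (etaT hfix hm hθ hdd τ X (r γ)) =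
      scalH hιθ hdd' (ιP (eta (act hfix) (HH θ) τ X (r γ))) := by
    rw [hιP]
    exact ptH_scalH (ι : Ω →+* Ωv) (theta_ne hm hθ) hdd hιd hιd' hιθ hdd' rfl _
  have e2 : ptH (γ : Ωv →+* Ωv) (hfixv' γ) (scalH hιθ hdd' R) =
      scalH hιθ hdd' (if HH θ (r γ) then ρ' γ R else -ρ' γ R) := by
    by_cases hH : HH θ (r γ)
    · rw [if_pos hH, hρ']
      refine ptH_scalH (γ : Ωv →+* Ωv) hιθ hdd' (hfixv γ) (hfixv' γ) hιθ hdd' ?_ R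
      change γ (ι θ) = ι θ
      rw [← hr γ θ]
      exact congrArg ι hH
    · have h2 : (r γ) θ = -θ := QTB.not_HH hθ hH
      have hv : -(ι θ) ≠ 0 := neg_ne_zero.2 hιθ
      have hv4 : dv' = (-(ι θ)) ^ 2 * dv := by
        rw [hdd']; ring
      have h3 : γ (ι θ) = -(ι θ) := by
        rw [← hr γ θ, h2, map_neg]
      have h4 := ptH_scalH (γ : Ωv →+* Ωv) hιθ hdd' (hfixv γ) (hfixv' γ) hv hv4 h3 R
      have h5 := scalH_neg_u hιθ hdd' hv hv4 rfl (ρ' γ R)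
      rw [if_neg hH, map_neg, ← h5, hρ']
      exact h4
  rw [e1, e2, hR γ, map_sub]

end

end TRX
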