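import Pool.Agent.TRX.B0

set_option autoImplicit false

open NumberField Ideal IsDedekindDomain WeierstrassCurve.Affine
open scoped Classical

/-! # [TRX-B4] twice the extension is locally trivial. Port of `Pool/Agent/QTB/S7a.lean` (`loc_struct`, `two_loc`) -/

namespace TRX

open TR TTS
open QTB (Idx2 IsAct sg eta ext HH)

theorem b4_swap {K Ω : Type} [Field K] [Field Ω] [Algebra K Ω] {d : Ω}
    {hfix : ∀ σ : Ω ≃ₐ[K] Ω, (σ : Ω →+* Ω) d = d}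
    {Kv Ωv : Type} [Field Kv] [Algebra K Kv] [Field Ωv] [Algebra Kv Ωv] [Algebra K Ωv]
    [IsScalarTower K Kv Ωv] (ι : Ω →ₐ[K] Ωv) {dv : Ωv}
    (hdv : (ι : Ω →+* Ωv) d = dv) (hfixv : ∀ γ : Ωv ≃ₐ[Kv] Ωv, (γ : Ωv →+* Ωv) dv = dv)
    (γ : Ωv ≃ₐ[Kv] Ωv) (σ : Ω ≃ₐ[K] Ω) (h : ∀ x, ι (σ x) = γ (ι x))
    (P : (Ws d).toAffine.Point) :
    ptH (ι : Ω →+* Ωv) hdv (ptH (σ : Ω →+* Ω) (hfix σ) P) =
      ptH (γ : Ωv →+* Ωv) (hfixv γ) (ptH (ι : Ω →+* Ωv) hdv P) := by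
  have h7 : (ι : Ω →+* Ωv).comp (σ : Ω →+* Ω) = (γ : Ωv →+* Ωv).comp (ι : Ω →+* Ωv) := by
    ext x
    exact h x
  have h8 : ((ι : Ω →+* Ωv).comp (σ : Ω →+* Ω)) d = dv := by
    rw [RingHom.comp_apply, hfix σ, hdv]
  have h9 : ((γ : Ωv →+* Ωv).comp (ι : Ω →+* Ωv)) d = dv := by
    rw [RingHom.comp_apply, hdv, hfixv γ]
  rw [ptH_comp (σ : Ω →+* Ω) (ι : Ω →+* Ωv) (hfix σ) hdv h8 P,
    ptH_comp (ι : Ω →+* Ωv) (γ : Ωv →+* Ωv) hdv (hfixv γ) h9 P]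
  exact s5_congr h7 _ _ P

section

variable {K Ω : Type} [Field K] [CharZero K] [Field Ω] [Algebra K Ω] [IsAlgClosure K Ω] {d : Ω}
  {hfix : ∀ σ : Ω ≃ₐ[K] Ω, (σ : Ω →+* Ω) d = d}
  {Kv Ωv : Type} [Field Kv] [Algebra K Kv] [Field Ωv] [Algebra Kv Ωv] [Algebra K Ωv] [IsScalarTower K Kv Ωv]

/-- PROOF. As `QTB.loc_struct`. Either all `γ` fix `ι θ` and `y` is locally trivial, or there are `P`, `Q` such that `ι y(σ) = γ Q - Q` for `γ` fixing `ι θ`,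
`ι y(σ) = (γ Q - Q) + P` for the others, `γ P = P`, resp. `γ P = - P`. `Q` from `hloc ι` (`y = X` on `H`), `r` from `QTB.exists_res`. Case 2: `QTB.vanish` for
`G = Gal(Ωv/Kv)`, `H γ = (γ (ι θ) = ι θ)` (`QTB.idx2` for `Ωv / Kv`, `m`, `ι θ`), `Y γ = ι y (r γ) - (γ Q - Q)`. -/
theorem loc_struct {m : K} (hm : m ≠ 0) {θ : Ω} (hθ : θ ^ 2 = algebraMap K Ω m)
    {X y : (Ω ≃ₐ[K] Ω) → (Ws d).toAffine.Point} (hy : Coc K Ω hfix y)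
    (hyX : ∀ σ : Ω ≃ₐ[K] Ω, σ θ = θ → y σ = X σ) (hloc : RLoc θ X Kv Ωv) (ι : Ω →ₐ[K] Ωv) {dv : Ωv}
    (hdv : (ι : Ω →+* Ωv) d = dv) (hfixv : ∀ γ : Ωv ≃ₐ[Kv] Ωv, (γ : Ωv →+* Ωv) dv = dv) :
    ∃ P Q : (Ws dv).toAffine.Point,
      (∀ γ : Ωv ≃ₐ[Kv] Ωv, γ (ι θ) = ι θ → ptH (γ : Ωv →+* Ωv) (hfixv γ) P = P) ∧
      (∀ γ : Ωv ≃ₐ[Kv] Ωv, γ (ι θ) ≠ ι θ → ptH (γ : Ωv →+* Ωv) (hfixv γ) P = -P) ∧
      ∀ (γ : Ωv ≃ₐ[Kv] Ωv) (σ : Ω ≃ₐ[K] Ω), (∀ x, ι (σ x) = γ (ι x)) →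
        ptH (ι : Ω →+* Ωv) hdv (y σ) =
          ptH (γ : Ωv →+* Ωv) (hfixv γ) Q - Q + (if γ (ι θ) = ι θ then 0 else P) := by
  by_cases hall : ∀ γ : Ωv ≃ₐ[Kv] Ωv, γ (ι θ) = ι θ
  · obtain ⟨Q, hQ⟩ := hloc ι dv hdv hfixv
    refine ⟨0, Q, fun γ _ => map_zero _, fun γ h => absurd (hall γ) h, fun γ σ hσ => ?_⟩
    have h1 : σ θ = θ := by
      apply ι.toRingHom.injective
      exact (hσ θ).trans (hall γ)
    rw [hyX σ h1, hQ γ σ hσ h1, if_pos (hall γ), add_zero]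
  · push Not at hall
    obtain ⟨γ0, hγ0⟩ := hall
    have hcK : CharZero Kv := charZero_of_injective_algebraMap (algebraMap K Kv).injective
    have hm' : algebraMap K Kv m ≠ 0 := (map_ne_zero _).2 hm
    have hθ' : (ι θ) ^ 2 = algebraMap Kv Ωv (algebraMap K Kv m) := by
      rw [← map_pow, hθ, ← IsScalarTower.algebraMap_apply]
      exact ι.commutes m
    have hI : Idx2 (HH (K := Kv) (ι θ)) γ0 := QTB.idx2 hm' hθ' hγ0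
    obtain ⟨Q, hQ⟩ := hloc ι dv hdv hfixv
    obtain ⟨r, hr, hr2⟩ := QTB.exists_res (Kv := Kv) ι
    have hA : IsAct (act (K := Kv) hfixv) := isAct hfixv
    obtain ⟨P1, hP1, hP2, hP3⟩ := QTB.vanish hA hI
      (Y := fun γ => ptH (ι : Ω →+* Ωv) hdv (y (r γ)) -
        (ptH (γ : Ωv →+* Ωv) (hfixv γ) Q - Q)) (by
        intro g h
        have e1 : ptH (ι : Ω →+* Ωv) hdv (y (r (g * h))) =
            ptH (ι : Ω →+* Ωv) hdv (y (r g)) +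
              ptH (g : Ωv →+* Ωv) (hfixv g) (ptH (ι : Ω →+* Ωv) hdv (y (r h))) := by
          rw [map_mul, hy.crossed, ← ptH_apply, map_add, b4_swap ι hdv hfixv g (r g) (hr g)]
        have e2 : ptH ((g * h : Ωv ≃ₐ[Kv] Ωv) : Ωv →+* Ωv) (hfixv (g * h)) Q =
            ptH (g : Ωv →+* Ωv) (hfixv g) (ptH (h : Ωv →+* Ωv) (hfixv h) Q) :=
          hA.mul g h Q
        change ptH (ι : Ω →+* Ωv) hdv (y (r (g * h))) -
            (ptH ((g * h : Ωv ≃ₐ[Kv] Ωv) : Ωv →+* Ωv) (hfixv (g * h)) Q - Q) =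
          (ptH (ι : Ω →+* Ωv) hdv (y (r g)) -
            (ptH (g : Ωv →+* Ωv) (hfixv g) Q - Q)) +
          ptH (g : Ωv →+* Ωv) (hfixv g) (ptH (ι : Ω →+* Ωv) hdv (y (r h)) -
            (ptH (h : Ωv →+* Ωv) (hfixv h) Q - Q))
        rw [e1, e2, map_sub, map_sub]
        abel) (by
        intro g hg
        have h1 : r g θ = θ := by
          apply ι.toRingHom.injective
          exact (hr g θ).trans hg
        change ptH (ι : Ω →+* Ωv) hdv (y (r g)) -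
            (ptH (g : Ωv →+* Ωv) (hfixv g) Q - Q) = 0
        rw [hyX _ h1, hQ g (r g) (hr g) h1, sub_self])
    refine ⟨P1, Q, fun γ h => hP1 γ h, fun γ h => hP2 γ h, fun γ σ hσ => ?_⟩
    have h1 : σ = r γ := hr2 γ σ hσ
    by_cases h2 : γ (ι θ) = ι θ
    · have h3 : σ θ = θ := by
        apply ι.toRingHom.injective
        exact (hσ θ).trans h2
      rw [hyX σ h3, hQ γ σ hσ h3, if_pos h2, add_zero]
    · have h3 : ptH (ι : Ω →+* Ωv) hdv (y (r γ)) -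
            (ptH (γ : Ωv →+* Ωv) (hfixv γ) Q - Q) = P1 := hP3 γ h2
      rw [if_neg h2, ← h3, h1]
      abel

/-- PROOF. As `QTB.two_loc`: `loc_struct`, the point `2 Q - P`. -/
theorem two_loc {m : K} (hm : m ≠ 0) {θ : Ω} (hθ : θ ^ 2 = algebraMap K Ω m)
    {X y : (Ω ≃ₐ[K] Ω) → (Ws d).toAffine.Point} (hy : Coc K Ω hfix y)
    (hyX : ∀ σ : Ω ≃ₐ[K] Ω, σ θ = θ → y σ = X σ) (hloc : RLoc θ X Kv Ωv) :
    LocTriv (fun σ => (2 : ℕ) • y σ) Kv Ωv := by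
  intro ι dv hdv hfixv
  obtain ⟨P, Q, h1, h2, h3⟩ := loc_struct hm hθ hy hyX hloc ι hdv hfixv
  refine ⟨2 • Q - P, fun γ σ hσ => ?_⟩
  rw [map_nsmul, h3 γ σ hσ, map_sub, map_nsmul]
  by_cases h4 : γ (ι θ) = ι θ
  · rw [if_pos h4, h1 γ h4]
    abel
  · rw [if_neg h4, h2 γ h4]
    abel

end

end TRX
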