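import Pool.Agent.TRX.B0
import Pool.Agent.QTB.S9a
import Pool.Agent.QTB.S9b

set_option autoImplicit false

open NumberField Ideal IsDedekindDomain WeierstrassCurve.Affine
open scoped Classical

/-! # [TRX-B5] relative cocycles from cocycles over a quadratic extension `N` of `K`. Port of `Pool/Agent/QTB/S9a.lean`, `S9b.lean` (`θ = QTB.th Q Ω`, the image of `Q.s`; `QTB.th_sq`, `QTB.fix_iff`, `QTB.exists_up`
can be used as they are) -/

namespace TRX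

open TR TTS
open TU (QS)
open QTB (th th_sq fix_iff exists_up)

section

variable {K N : Type} [Field K] [NumberField K] [Field N] [NumberField N] [Algebra K N]
  {Ω : Type} [Field Ω] [Algebra N Ω] [Algebra K Ω] [IsScalarTower K N Ω] {d : Ω}

/-- a function on `Gal(Ω / N)` as a function on `Gal(Ω / K)`, `0` outside `Gal(Ω / N)` -/
noncomputable def low (N : Type) [Field N] [NumberField N] [Algebra K N] [Algebra N Ω] [IsScalarTower K N Ω]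
    (x : (Ω ≃ₐ[N] Ω) → (Ws d).toAffine.Point) (σ : Ω ≃ₐ[K] Ω) : (Ws d).toAffine.Point :=
  if h : ∀ f : N, σ (algebraMap N Ω f) = algebraMap N Ω f then
    x (AlgEquiv.ofRingEquiv (f := (σ : Ω ≃+* Ω)) h) else 0

theorem b5_ptH_congr (σ : Ω ≃ₐ[N] Ω) (σ' : Ω ≃ₐ[K] Ω) (h : ∀ y : Ω, σ' y = σ y)
    (h1 : (σ : Ω →+* Ω) d = d) (h2 : (σ' : Ω →+* Ω) d = d) (P : (Ws d).toAffine.Point) :
    ptH (σ : Ω →+* Ω) h1 P = ptH (σ' : Ω →+* Ω) h2 P := by
  rcases P with _ | ⟨x, y, hxy⟩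
  · rfl
  · simp only [ptH_apply, ptF]
    rw [WeierstrassCurve.Affine.Point.some.injEq]
    exact ⟨(h x).symm, (h y).symm⟩

/-- PROOF. As `QTB.low_res`. -/
theorem low_res (x : (Ω ≃ₐ[N] Ω) → (Ws d).toAffine.Point) (σ : Ω ≃ₐ[N] Ω) (σ' : Ω ≃ₐ[K] Ω)
    (h : ∀ y : Ω, σ' y = σ y) : low N x σ' = x σ := by
  have hp : ∀ f : N, σ' (algebraMap N Ω f) = algebraMap N Ω f := by
    intro f
    rw [h, σ.commutes]
  unfold low
  rw [dif_pos hp]
  have h1 : AlgEquiv.ofRingEquiv (f := (σ' : Ω ≃+* Ω)) hp = σ := AlgEquiv.ext fun y => h y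
  rw [h1]

/-- PROOF. As `QTB.low_coc`. `crossed`: `exists_up`, `low_res`. `fin`: `exists_vanish` (B0) gives a finite extension `E` of `N` in `Ω` with `x = 0` on its fixing group; `E.restrictScalars K` is finite over `K`
(`QTB.s9b_finite`), contains `θ`; an automorphism fixing it fixes `N` and comes from one over `N` which fixes `E`. -/
theorem low_coc (Q : QS K N) (hfix : ∀ σ : Ω ≃ₐ[K] Ω, (σ : Ω →+* Ω) d = d)
    {hfixN : ∀ σ : Ω ≃ₐ[N] Ω, (σ : Ω →+* Ω) d = d} {x : (Ω ≃ₐ[N] Ω) → (Ws d).toAffine.Point}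
    (hx : Coc N Ω hfixN x) : RCoc hfix (th Q Ω) (low N x) := by
  refine ⟨?_, fun σ' τ' h1 h2 => ?_⟩
  · obtain ⟨M, hM, hfixM⟩ := exists_vanish hx
    have hθ : th Q Ω ∈ M.restrictScalars K := M.algebraMap_mem Q.s
    refine ⟨M.restrictScalars K, QTB.s9b_finite M, hθ, fun σ' hσ' => ?_⟩
    rw [IntermediateField.mem_fixingSubgroup_iff] at hσ'
    obtain ⟨σ, hσ⟩ := exists_up Q σ' (hσ' _ hθ)
    have h3 : σ ∈ M.fixingSubgroup := by
      rw [IntermediateField.mem_fixingSubgroup_iff]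
      intro y hy
      rw [← hσ y]
      exact hσ' y hy
    rw [low_res x σ σ' hσ, hfixM σ h3]
  · obtain ⟨σ, hσ⟩ := exists_up Q σ' h1
    obtain ⟨τ, hτ⟩ := exists_up Q τ' h2
    have h3 : ∀ y : Ω, (σ' * τ') y = (σ * τ) y := by
      intro y
      rw [AlgEquiv.mul_apply, AlgEquiv.mul_apply, hτ, hσ]
    rw [low_res x σ σ' hσ, low_res x τ τ' hτ, low_res x (σ * τ) (σ' * τ') h3,
      hx.crossed σ τ, ← ptH_apply, b5_ptH_congr σ σ' hσ (hfixN σ) (hfix σ')]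

/-- PROOF. As `QTB.low_cob`. -/
theorem low_cob (Q : QS K N) (hfix : ∀ σ : Ω ≃ₐ[K] Ω, (σ : Ω →+* Ω) d = d)
    {hfixN : ∀ σ : Ω ≃ₐ[N] Ω, (σ : Ω →+* Ω) d = d} {x : (Ω ≃ₐ[N] Ω) → (Ws d).toAffine.Point}
    {n : ℕ} {P : (Ws d).toAffine.Point}
    (h : ∀ σ : Ω ≃ₐ[N] Ω, n • x σ = ptH (σ : Ω →+* Ω) (hfixN σ) P - P) (σ' : Ω ≃ₐ[K] Ω)
    (hσ : σ' (th Q Ω) = th Q Ω) :
    n • low N x σ' = ptH (σ' : Ω →+* Ω) (hfix σ') P - P := by
  obtain ⟨σ, h1⟩ := exists_up Q σ' hσ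
  rw [low_res x σ σ' h1, h σ, b5_ptH_congr σ σ' h1 (hfixN σ) (hfix σ')]

end

end TRX
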