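import Pool.Agent.TRX.B5
import Pool.Agent.QTB.S9c

set_option autoImplicit false

open NumberField Ideal IsDedekindDomain WeierstrassCurve.Affine
open scoped Classical

/-! # [TRX-B5l] local triviality. Port of `Pool/Agent/QTB/S9c.lean` (`low_loc`; `QTB.exists_place`, `QTB.s9c_lift`, `QTB.s9c_normal` can be used as they are) -/

namespace TRX

open TR TTS
open TU (QS)
open QTB (th th_sq fix_iff exists_up)

section

variable {K N : Type} [Field K] [NumberField K] [Field N] [NumberField N] [Algebra K N]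
  {Ω : Type} [Field Ω] [Algebra N Ω] [Algebra K Ω] [IsScalarTower K N Ω] {d : Ω}

/-- PROOF. As `QTB.low_loc`. `ι : Ω → Ωv` over `K`, `dv = ι d`; `w`, `f` from `QTB.exists_place`; `F' : closure of N_w → Ωv` over `f`, `j : Ω → closure of N_w` over `N` with `F' ∘ j = ι`. The hypothesis for `w`, `j` and `dw = j d`
(fixed by the Galois group of `N_w` because `d` is the image of `d₀ ∈ K`) gives `Q0`; `Q = F' (Q0)` (`ptH F'`, `F' dw = ι d = dv`). -/
theorem low_loc [IsAlgClosure N Ω] (Q : QS K N) {d₀ : K} (hd₀ : algebraMap K Ω d₀ = d)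
    {x : (Ω ≃ₐ[N] Ω) → (Ws d).toAffine.Point}
    (hloc : ∀ w : HeightOneSpectrum (𝓞 N),
      LocTriv x (w.adicCompletion N) (AlgebraicClosure (w.adicCompletion N)))
    (v : HeightOneSpectrum (𝓞 K)) :
    RLoc (th Q Ω) (low (K := K) N x) (v.adicCompletion K) (AlgebraicClosure (v.adicCompletion K)) := by
  intro ι dv hdv hfv
  have hKL : ∀ y : K, ι (algebraMap K Ω y) = algebraMap K (AlgebraicClosure (v.adicCompletion K)) y :=
    fun y => ι.commutes y
  have hKv : ∀ y : K, algebraMap K (AlgebraicClosure (v.adicCompletion K)) y =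
      algebraMap (v.adicCompletion K) (AlgebraicClosure (v.adicCompletion K))
        (algebraMap K (v.adicCompletion K) y) := fun y =>
    IsScalarTower.algebraMap_apply K (v.adicCompletion K) (AlgebraicClosure (v.adicCompletion K)) y
  let ι0 : N →+* AlgebraicClosure (v.adicCompletion K) :=
    (ι : Ω →+* AlgebraicClosure (v.adicCompletion K)).comp (algebraMap N Ω)
  have hι0' : ∀ y : N, ι0 y = ι (algebraMap N Ω y) := fun y => rfl
  have hι0 : ∀ y : K, ι0 (algebraMap K N y) =
      algebraMap (v.adicCompletion K) (AlgebraicClosure (v.adicCompletion K))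
        (algebraMap K (v.adicCompletion K) y) := by
    intro y
    rw [hι0', ← IsScalarTower.algebraMap_apply K N Ω, hKL, hKv]
  obtain ⟨w, f, -, hf1, hf2⟩ := QTB.exists_place Q v ι0 hι0
  obtain ⟨F', hF'⟩ := QTB.s9c_lift f
  have hFw : ∀ y : N, algebraMap N (AlgebraicClosure (w.adicCompletion N)) y =
      algebraMap (w.adicCompletion N) (AlgebraicClosure (w.adicCompletion N))
        (algebraMap N (w.adicCompletion N) y) := fun y =>
    IsScalarTower.algebraMap_apply N (w.adicCompletion N) (AlgebraicClosure (w.adicCompletion N)) y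
  have hF'F : ∀ y : N, F' (algebraMap N (AlgebraicClosure (w.adicCompletion N)) y) = ι0 y := by
    intro y
    rw [hFw, hF', hf1]
  obtain ⟨j, hj⟩ : ∃ j : Ω →ₐ[N] AlgebraicClosure (w.adicCompletion N), ∀ y, F' (j y) = ι y := by
    have hnorm : Normal N Ω := IsAlgClosure.normal N Ω
    have halg : Algebra.IsAlgebraic N Ω := IsAlgClosure.isAlgebraic
    let j0 : Ω →ₐ[N] AlgebraicClosure (w.adicCompletion N) := IsAlgClosed.lift
    obtain ⟨g, hg⟩ := QTB.s9c_normal ι0 (F'.comp (j0 : Ω →+* AlgebraicClosure (w.adicCompletion N)))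
      (ι : Ω →+* AlgebraicClosure (v.adicCompletion K)) (fun y => by
        show F' (j0 (algebraMap N Ω y)) = _
        rw [j0.commutes, hF'F]) (fun y => rfl)
    exact ⟨j0.comp (g : Ω →ₐ[N] Ω), fun y => hg y⟩
  obtain ⟨dw, hdw⟩ : ∃ dw, (j : Ω →+* AlgebraicClosure (w.adicCompletion N)) d = dw := ⟨_, rfl⟩
  have hjd : dw = algebraMap (w.adicCompletion N) (AlgebraicClosure (w.adicCompletion N))
      (algebraMap N (w.adicCompletion N) (algebraMap K N d₀)) := by
    rw [← hdw, ← hd₀, IsScalarTower.algebraMap_apply K N Ω, ← hFw]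
    exact j.commutes _
  have hfw : ∀ τ : AlgebraicClosure (w.adicCompletion N) ≃ₐ[w.adicCompletion N]
      AlgebraicClosure (w.adicCompletion N),
      (τ : AlgebraicClosure (w.adicCompletion N) →+* AlgebraicClosure (w.adicCompletion N)) dw =
        dw := by
    intro τ
    rw [hjd]
    exact τ.commutes _
  obtain ⟨Q0, hQ0⟩ := hloc w j dw hdw hfw
  have hb : F' dw = dv := by
    rw [← hdw]
    exact (hj d).trans hdv
  refine ⟨ptH F' hb Q0, fun τ σ hστ hσθ => ?_⟩
  obtain ⟨σF, hσF⟩ := exists_up Q σ hσθ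
  rw [low_res x σF σ hσF]
  have hτf : ∀ y, τ (f y) = f y := by
    intro y
    obtain ⟨a, b, hab⟩ := hf2 y
    have h1 : τ (ι0 Q.s) = ι0 Q.s := by
      have h2 := hστ (th Q Ω)
      rw [hσθ] at h2
      exact h2.symm
    rw [hab, map_add, map_mul, τ.commutes, τ.commutes, h1]
  obtain ⟨τ', hτ'⟩ : ∃ τ' : AlgebraicClosure (w.adicCompletion N) ≃ₐ[w.adicCompletion N]
      AlgebraicClosure (w.adicCompletion N), ∀ y, F' (τ' y) = τ (F' y) := by
    have hnorm : Normal (w.adicCompletion N) (AlgebraicClosure (w.adicCompletion N)) :=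
      WR.r4c_normal_gen (w.adicCompletion N)
    exact QTB.s9c_normal f F' ((τ : AlgebraicClosure (v.adicCompletion K) →+*
      AlgebraicClosure (v.adicCompletion K)).comp F') hF' (fun y => by
        show τ (F' (algebraMap _ _ y)) = _
        rw [hF', hτf])
  have hcomm : ∀ y, j (σF y) = τ' (j y) := by
    intro y
    apply F'.injective
    rw [hj, hτ', hj, ← hσF, hστ]
  have key := congrArg (ptH F' hb) (hQ0 τ' σF hcomm)
  have h0 : F'.comp (j : Ω →+* AlgebraicClosure (w.adicCompletion N)) =
      (ι : Ω →+* AlgebraicClosure (v.adicCompletion K)) := RingHom.ext fun y => hj y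
  have h0' : (F'.comp (j : Ω →+* AlgebraicClosure (w.adicCompletion N))) d = dv := by
    rw [h0]
    exact hdv
  have e1 : ptH F' hb (ptH (j : Ω →+* AlgebraicClosure (w.adicCompletion N)) hdw (x σF)) =
      ptH (ι : Ω →+* AlgebraicClosure (v.adicCompletion K)) hdv (x σF) := by
    rw [ptH_comp (j : Ω →+* AlgebraicClosure (w.adicCompletion N)) F' hdw hb h0']
    exact s9a_congr h0 h0' hdv (x σF)
  have e2 : ptH F' hb (ptH (τ' : AlgebraicClosure (w.adicCompletion N) →+*
      AlgebraicClosure (w.adicCompletion N)) (hfw τ') Q0) =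
      ptH (τ : AlgebraicClosure (v.adicCompletion K) →+* AlgebraicClosure (v.adicCompletion K))
        (hfv τ) (ptH F' hb Q0) := by
    have h1 : (F'.comp (τ' : AlgebraicClosure (w.adicCompletion N) →+*
      AlgebraicClosure (w.adicCompletion N))) = ((τ : AlgebraicClosure (v.adicCompletion K) →+*
      AlgebraicClosure (v.adicCompletion K)).comp F') := RingHom.ext fun y => hτ' y
    have h2 : (F'.comp (τ' : AlgebraicClosure (w.adicCompletion N) →+*
      AlgebraicClosure (w.adicCompletion N))) dw = dv := by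
      show F' (τ' dw) = dv
      rw [show τ' dw = dw from hfw τ', hb]
    have h3 : ((τ : AlgebraicClosure (v.adicCompletion K) →+*
      AlgebraicClosure (v.adicCompletion K)).comp F') dw = dv := by
      rw [← h1]
      exact h2
    rw [ptH_comp _ F' (hfw τ') hb h2, ptH_comp F' _ hb (hfv τ) h3]
    exact s9a_congr h1 h2 h3 Q0
  rw [map_sub, e1, e2] at key
  exact key

end

end TRX
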