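import Pool.Agent.TTS.S9e

set_option autoImplicit false

open NumberField Ideal IsDedekindDomain WeierstrassCurve.Affine
open scoped Classical

/-! # [TRX-B6] `2`-power order. Port of `Coc.nsmul`, `LocTriv.nsmul`, `sha_powL` in `Pool/Agent/QTB/P1.lean` -/

namespace TRX

open TR TTS

theorem coc_nsmul {F Ω : Type} [Field F] [Field Ω] [Algebra F Ω] {d : Ω}
    {hfix : ∀ σ : Ω ≃ₐ[F] Ω, (σ : Ω →+* Ω) d = d} {c : (Ω ≃ₐ[F] Ω) → (Ws d).toAffine.Point}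
    (hc : Coc F Ω hfix c) (n : ℕ) : Coc F Ω hfix (fun σ => n • c σ) := by
  refine ⟨hc.loc.comp (fun P => n • P), fun σ τ => ?_⟩
  have h4 := hc.crossed σ τ
  rw [← ptH_apply] at h4
  change n • c (σ * τ) = n • c σ + ptH (σ : Ω →+* Ω) (hfix σ) (n • c τ)
  rw [h4, smul_add, map_nsmul]

theorem locTriv_nsmul {F Ω : Type} [Field F] [Field Ω] [Algebra F Ω] {d : Ω}
    {c : (Ω ≃ₐ[F] Ω) → (Ws d).toAffine.Point} {Fv Ωv : Type} [Field Fv]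
    [Algebra F Fv] [Field Ωv] [Algebra Fv Ωv] [Algebra F Ωv] [IsScalarTower F Fv Ωv]
    (h : LocTriv c Fv Ωv) (n : ℕ) : LocTriv (fun σ => n • c σ) Fv Ωv := by
  intro ι dv hdv hfv
  obtain ⟨Q, hQ⟩ := h ι dv hdv hfv
  refine ⟨n • Q, fun τ σ hστ => ?_⟩
  rw [map_nsmul, map_nsmul, hQ τ σ hστ, smul_sub]

theorem coc_add {F Ω : Type} [Field F] [Field Ω] [Algebra F Ω] {d : Ω}
    {hfix : ∀ σ : Ω ≃ₐ[F] Ω, (σ : Ω →+* Ω) d = d} {c c' : (Ω ≃ₐ[F] Ω) → (Ws d).toAffine.Point}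
    (hc : Coc F Ω hfix c) (hc' : Coc F Ω hfix c') : Coc F Ω hfix (fun σ => c σ + c' σ) := by
  refine ⟨hc.loc.add hc'.loc, fun σ τ => ?_⟩
  have h4 := hc.crossed σ τ
  have h5 := hc'.crossed σ τ
  rw [← ptH_apply] at h4 h5
  change c (σ * τ) + c' (σ * τ) = c σ + c' σ + ptH (σ : Ω →+* Ω) (hfix σ) (c τ + c' τ)
  rw [h4, h5, map_add]
  abel

theorem locTriv_add {F Ω : Type} [Field F] [Field Ω] [Algebra F Ω] {d : Ω}
    {c c' : (Ω ≃ₐ[F] Ω) → (Ws d).toAffine.Point} {Fv Ωv : Type} [Field Fv]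
    [Algebra F Fv] [Field Ωv] [Algebra Fv Ωv] [Algebra F Ωv] [IsScalarTower F Fv Ωv]
    (h : LocTriv c Fv Ωv) (h' : LocTriv c' Fv Ωv) : LocTriv (fun σ => c σ + c' σ) Fv Ωv := by
  intro ι dv hdv hfv
  obtain ⟨Q, hQ⟩ := h ι dv hdv hfv
  obtain ⟨Q', hQ'⟩ := h' ι dv hdv hfv
  refine ⟨Q + Q', fun τ σ hστ => ?_⟩
  rw [map_add, map_add, hQ τ σ hστ, hQ' τ σ hστ]
  abel

/-- [TRX-B6] a locally trivial cocycle of `2`-power order is principal, if the Selmer groups are trivial. PROOF. Induction on `k` as `QTB.sha_powL`; `TTS.sha_core`. -/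
theorem sha_pow {M : Type} [Field M] [NumberField M] {r d₀ : M} (hr : r ^ 2 = -7)
    (hsel : Sel d₀ r) (hsel' : Sel d₀ (-r)) {Ω : Type} [Field Ω] [Algebra M Ω] [IsAlgClosure M Ω]
    [CharZero Ω] {d : Ω} (hd : algebraMap M Ω d₀ = d) (hd0 : d ≠ 0)
    (hfix : ∀ σ : Ω ≃ₐ[M] Ω, (σ : Ω →+* Ω) d = d) (k : ℕ) :
    ∀ c : (Ω ≃ₐ[M] Ω) → (Ws d).toAffine.Point, Coc M Ω hfix c →
      (∀ P : HeightOneSpectrum (𝓞 M),
        LocTriv c (P.adicCompletion M) (AlgebraicClosure (P.adicCompletion M))) →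
      (∃ Q : (Ws d).toAffine.Point, ∀ σ : Ω ≃ₐ[M] Ω,
        2 ^ k • c σ = ptH (σ : Ω →+* Ω) (hfix σ) Q - Q) →
      ∃ P : (Ws d).toAffine.Point, ∀ σ : Ω ≃ₐ[M] Ω, c σ = ptH (σ : Ω →+* Ω) (hfix σ) P - P := by
  induction k with
  | zero =>
    rintro c - - ⟨P, hP⟩
    exact ⟨P, fun σ => by rw [← hP σ, pow_zero, one_smul]⟩
  | succ k ih =>
    rintro c hc hloc ⟨P, hP⟩
    have h1 := ih (fun σ => 2 • c σ) (coc_nsmul hc 2) (fun v => locTriv_nsmul (hloc v) 2)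
      ⟨P, fun σ => by rw [← hP σ, smul_smul, ← pow_succ]⟩
    exact sha_core hr hsel hsel' hd hd0 hfix c hc hloc h1

end TRX
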