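import Pool.Agent.TRX.B3
import Pool.Agent.TRX.B4
import Pool.Agent.TRX.B5l
import Pool.Agent.TRX.B6

set_option autoImplicit false

open NumberField Ideal IsDedekindDomain WeierstrassCurve.Affine
open scoped Classical

/-! # [TRX-B7] the extension of a locally trivial cocycle from `N` to `M`. Compare `Pool/Agent/QTB/S5c.lean` (`exists_ext`) -/

namespace TRX

open TR TTS
open TU (QS)
open QTB (Idx2 IsAct sg eta ext HH th th_sq fix_iff exists_up)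

theorem b7_nsq {M N : Type} [Field M] [NumberField M] [Field N] [NumberField N] [Algebra M N] (Q : QS M N) :
    ¬ IsSquare Q.e := by
  rintro ⟨b, hb⟩
  have h1 := Q.hs
  rw [hb, map_mul, ← pow_two] at h1
  rcases sq_eq_sq_iff_eq_or_eq_neg.1 h1 with h | h
  · exact Q.ns b h.symm
  · apply Q.ns (-b)
    rw [map_neg, h]

/-- [TRX-B7] **the extension.** PROOF. `θ = th Q Ω`, `θ² = Q.e` (`QTB.th_sq`), `Q.e` is not a square in `M` (`Q.ns`, `Q.hs`: a square root `b` of `Q.e` in `M` would give `Q.s = ± b`), `d' = θ² d = algebraMap (Q.e * d₀)`. `X = low N x`: `low_coc`, `low_loc`, `low_cob`.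
`τ` from `QTB.exists_tau`. `c = etaT hfix _ hθ _ τ X`: `etaT_coc`, `etaT_loc` for all `P`; `QTB.eta_cob` and `scal_sg` give `2^k • c = ∂ (scalH (P0 - τ P0))`; `sha_pow` (B6) for `Q.e * d₀`: `c = ∂ R'`; `R' = scalH P` (`scalH_surjective`), so
`eta σ = sg σ (σ P) - P` (`scal_sg`, `scalH_injective`). `y₀ = ext … P`: `ext_coc`; `y₀ = X` on `H`; `2^(k+1) • y₀` is principal (`QTB.two_cob`; exactly as in `QTB.exists_ext`). `2 • y₀` is locally trivial (`two_loc`), so it is principal (`sha_pow` for `d₀`, `coc_nsmul`): `2 • y₀ = ∂ R1`,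
`R1 = 2 • R` (`TTS.two_divisible`), `y = y₀ - ∂ R` (`TTS.Coc.sub`): `2 • y = 0`. For `σ ∈ Gal(Ω/N)`: `x σ = X (σ.restrictScalars M) = y₀ (σ.restrictScalars M)` (`low_res`). -/
theorem exists_down {M N : Type} [Field M] [NumberField M] [Field N] [NumberField N] [Algebra M N] (Q : QS M N)
    {r d₀ : M} (hr : r ^ 2 = -7) (h1 : Sel d₀ r) (h2 : Sel d₀ (-r)) (h3 : Sel (Q.e * d₀) r)
    (h4 : Sel (Q.e * d₀) (-r)) {Ω : Type} [Field Ω] [Algebra M Ω] [Algebra N Ω] [IsScalarTower M N Ω]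
    [IsAlgClosure M Ω] [IsAlgClosure N Ω] [CharZero Ω] {d : Ω} (hd : algebraMap M Ω d₀ = d) (hd0 : d ≠ 0)
    (hfix : ∀ σ : Ω ≃ₐ[M] Ω, (σ : Ω →+* Ω) d = d) (hfixN : ∀ σ : Ω ≃ₐ[N] Ω, (σ : Ω →+* Ω) d = d)
    (x : (Ω ≃ₐ[N] Ω) → (Ws d).toAffine.Point) (hx : Coc N Ω hfixN x)
    (hloc : ∀ w : HeightOneSpectrum (𝓞 N),
      LocTriv x (w.adicCompletion N) (AlgebraicClosure (w.adicCompletion N))) (k : ℕ)
    (htors : ∃ P : (Ws d).toAffine.Point, ∀ σ : Ω ≃ₐ[N] Ω,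
      2 ^ k • x σ = ptH (σ : Ω →+* Ω) (hfixN σ) P - P) :
    ∃ (y : (Ω ≃ₐ[M] Ω) → (Ws d).toAffine.Point) (R : (Ws d).toAffine.Point), Coc M Ω hfix y ∧
      (∀ σ : Ω ≃ₐ[M] Ω, (2 : ℕ) • y σ = 0) ∧
      ∀ σ : Ω ≃ₐ[N] Ω, x σ = y (σ.restrictScalars M) + (ptH (σ : Ω →+* Ω) (hfixN σ) R - R) := by
  have halg : Algebra.IsAlgebraic M Ω := IsAlgClosure.isAlgebraic
  have hcl : IsAlgClosed Ω := IsAlgClosure.isAlgClosed M
  have hm : ¬ IsSquare Q.e := b7_nsq Q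
  have hm0 : Q.e ≠ 0 := by
    intro h
    exact hm ⟨0, by rw [h, mul_zero]⟩
  have hθ : th Q Ω ^ 2 = algebraMap M Ω Q.e := th_sq Q
  obtain ⟨τ, hτ⟩ := QTB.exists_tau hm hθ
  have hX : RCoc hfix (th Q Ω) (low (K := M) N x) := low_coc Q hfix hx
  have hXl := low_loc Q hd hloc
  obtain ⟨P0, hP0⟩ := htors
  have hXP : ∀ σ' : Ω ≃ₐ[M] Ω, HH (th Q Ω) σ' →
      2 ^ k • low (K := M) N x σ' = act hfix σ' P0 - P0 :=
    fun σ' hσ' => low_cob Q hfix hP0 σ' hσ'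
  obtain ⟨X, hXdef⟩ : ∃ X : (Ω ≃ₐ[M] Ω) → (Ws d).toAffine.Point, X = low (K := M) N x := ⟨_, rfl⟩
  rw [← hXdef] at hX hXl hXP
  obtain ⟨θ, hθdef⟩ : ∃ θ : Ω, θ = th Q Ω := ⟨_, rfl⟩
  rw [← hθdef] at hθ hτ hX hXl hXP
  obtain ⟨d', hdd⟩ : ∃ d' : Ω, d' = θ ^ 2 * d := ⟨_, rfl⟩
  have hd' : algebraMap M Ω (Q.e * d₀) = d' := by
    rw [hdd, hθ, map_mul, hd]
  have hfix' : ∀ σ : Ω ≃ₐ[M] Ω, (σ : Ω →+* Ω) d' = d' := by
    intro σ
    rw [← hd']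
    exact σ.commutes _
  have hθ0 : θ ≠ 0 := theta_ne hm0 hθ
  have hd'0 : d' ≠ 0 := by
    rw [hdd]
    exact mul_ne_zero (pow_ne_zero 2 hθ0) hd0
  have hH : Idx2 (HH (K := M) θ) τ := QTB.idx2 hm0 hθ hτ
  have hcoc : Coc M Ω hfix' (etaT hfix hm0 hθ hdd τ X) := etaT_coc hfix hfix' hm0 hθ hdd hτ hX
  have hlocT : ∀ P : HeightOneSpectrum (𝓞 M), LocTriv (etaT hfix hm0 hθ hdd τ X)
      (P.adicCompletion M) (AlgebraicClosure (P.adicCompletion M)) :=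
    fun P => etaT_loc hd hfix hm0 hθ hdd hτ hX (hXl P)
  have e1 : ∀ g : Ω ≃ₐ[M] Ω, 2 ^ k • eta (act hfix) (HH θ) τ X g =
      sg (HH θ) g (act hfix g (P0 - act hfix τ P0)) - (P0 - act hfix τ P0) := fun g =>
    QTB.eta_cob (isAct hfix) hH hXP g
  have e2 : ∃ P : (Ws d').toAffine.Point, ∀ σ : Ω ≃ₐ[M] Ω,
      2 ^ k • etaT hfix hm0 hθ hdd τ X σ = ptH (σ : Ω →+* Ω) (hfix' σ) P - P := by
    refine ⟨scalH (theta_ne hm0 hθ) hdd (P0 - act hfix τ P0), fun σ => ?_⟩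
    rw [scal_sg hfix hfix' hm0 hθ hdd σ]
    unfold etaT
    rw [← map_nsmul, e1 σ, map_sub]
  obtain ⟨R, hR⟩ := sha_pow hr h3 h4 hd' hd'0 hfix' k _ hcoc hlocT e2
  obtain ⟨P, rfl⟩ := scalH_surjective (theta_ne hm0 hθ) hdd R
  have hη : ∀ σ : Ω ≃ₐ[M] Ω, eta (act hfix) (HH θ) τ X σ = sg (HH θ) σ (act hfix σ P) - P := by
    intro σ
    apply scalH_injective (theta_ne hm0 hθ) hdd
    have e3 := hR σ
    rw [scal_sg hfix hfix' hm0 hθ hdd σ] at e3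
    unfold etaT at e3
    rw [e3, map_sub]
  have hy0 : Coc M Ω hfix (ext (act hfix) (HH θ) τ X P) := ext_coc hfix hm0 hθ hτ hX hη
  have hyX : ∀ σ : Ω ≃ₐ[M] Ω, σ θ = θ → ext (act hfix) (HH θ) τ X P σ = X σ := fun σ hσ => if_pos hσ
  obtain ⟨y0, hy0def⟩ : ∃ y0 : (Ω ≃ₐ[M] Ω) → (Ws d).toAffine.Point,
    y0 = ext (act hfix) (HH θ) τ X P := ⟨_, rfl⟩
  rw [← hy0def] at hy0 hyX
  have hl2 : ∀ P : HeightOneSpectrum (𝓞 M), LocTriv (fun σ => (2 : ℕ) • y0 σ)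
      (P.adicCompletion M) (AlgebraicClosure (P.adicCompletion M)) :=
    fun P => two_loc hm0 hθ hy0 hyX (hXl P)
  obtain ⟨R', hR'⟩ := QTB.two_cob (Y := fun g => 2 ^ k • y0 g) (isAct hfix) hH
    (fun g h => by
      have e4 := hy0.crossed g h
      change 2 ^ k • y0 (g * h) = 2 ^ k • y0 g + act hfix g (2 ^ k • y0 h)
      rw [e4, smul_add, map_nsmul]
      rfl) (P0 := P0)
    (fun g hg => by
      change 2 ^ k • y0 g = act hfix g P0 - P0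
      rw [hyX g hg]
      exact hXP g hg)
  obtain ⟨R1, hR1⟩ := sha_pow hr h1 h2 hd hd0 hfix k (fun σ => (2 : ℕ) • y0 σ)
    (coc_nsmul hy0 2) hl2 ⟨R', fun σ => by
      have e5 := hR' σ
      rw [smul_comm]
      exact e5⟩
  obtain ⟨R, rfl⟩ := two_divisible hd0 R1
  refine ⟨fun σ => y0 σ - (ptH (σ : Ω →+* Ω) (hfix σ) R - R), R, Coc.sub hfix hy0 R, ?_, ?_⟩
  · intro σ
    have e6 := hR1 σ
    change (2 : ℕ) • (y0 σ - (ptH (σ : Ω →+* Ω) (hfix σ) R - R)) = 0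
    change (2 : ℕ) • y0 σ = _ at e6
    rw [smul_sub, e6, map_nsmul, smul_sub, sub_self]
  · intro σ
    have e7 : (σ.restrictScalars M) θ = θ := by
      rw [hθdef]
      exact σ.commutes Q.s
    have e8 : low (K := M) N x (σ.restrictScalars M) = x σ := low_res x σ _ fun _ => rfl
    have e9 : ptH ((σ.restrictScalars M : Ω ≃ₐ[M] Ω) : Ω →+* Ω) (hfix _) R =
        ptH (σ : Ω →+* Ω) (hfixN σ) R := s9a_congr (RingHom.ext fun _ => rfl) _ _ R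
    change x σ = y0 (σ.restrictScalars M) -
      (ptH ((σ.restrictScalars M : Ω ≃ₐ[M] Ω) : Ω →+* Ω) (hfix _) R - R) +
      (ptH (σ : Ω →+* Ω) (hfixN σ) R - R)
    rw [e9, hyX _ e7, hXdef, e8, sub_add_cancel]

end TRX
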