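import Pool.Agent.TRX.C5
import Pool.Agent.TRX.C5c

set_option autoImplicit false

open NumberField Ideal IsDedekindDomain
open scoped Classical

/-! # [TRX-C6] the elements `c_U` are in the Selmer group over `N = M(√a)` -/

namespace TRX

open TR TU TTS

section
variable {L M N : Type} [Field L] [NumberField L] [Field M] [NumberField M] [Field N] [NumberField N]
  [Algebra L M] [Algebra M N] [IsTotallyReal L] (D : Dat L M) {d a : L}
  {V T U : Finset (HeightOneSpectrum (𝓞 L))} (Q : QS M N)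
include D

/-- [TRX-C6] the primes of `N` above `T`. PROOF. `v ∈ T`, `P` above `v` in `M`, `P'` above `P` in `N`. `a` has odd valuation at `P` (`above_nice`, `ha.od`, `Od.val`), `2 ∉ P`: `Od P a` (`ur_or_od`, `Ur.val`), `QS.ram`: `P'.valuation (algebraMap x) = (P.valuation x)²` for `x ∈ M`, a square; `ur_iff_val` (`2 ∉ P'`). -/
theorem ur_above_T (ha : SP L a T) (hQ : Q.e = algebraMap L M a) {v : HeightOneSpectrum (𝓞 L)} (hv : v ∈ T)
    {P : HeightOneSpectrum (𝓞 M)} (hP : P.asIdeal.comap (algebraMap (𝓞 L) (𝓞 M)) = v.asIdeal)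
    {P' : HeightOneSpectrum (𝓞 N)} (hP' : P'.asIdeal.comap (algebraMap (𝓞 M) (𝓞 N)) = P.asIdeal) {x : M} (hx : x ≠ 0) :
    Ur P' (algebraMap M N x) := by
  obtain ⟨-, -, hval⟩ := above_nice D (ha.seven v hv) hP
  have h2v : (2 : 𝓞 L) ∉ v.asIdeal := ha.nice.two hv
  have h2P : (2 : 𝓞 M) ∉ P.asIdeal := by
    have := q3_not_mem hP h2v
    rwa [map_ofNat] at this
  have h2P' : (2 : 𝓞 N) ∉ P'.asIdeal := by
    have := q3_not_mem hP' h2P
    rwa [map_ofNat] at this
  have hod : Od P Q.e := by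
    rw [hQ]
    rcases ur_or_od h2P (d := algebraMap L M a) ((map_ne_zero _).2 ha.ne) with h | h
    · exact absurd (by rw [← hval]; exact h.val) (ha.od v hv).val
    · exact h
  obtain ⟨P0, hu, -, hv2⟩ := Q.ram P hod
  have hPP : P' = P0 := (hu P').1 hP'
  rw [ur_iff_val h2P' ((map_ne_zero _).2 hx), hPP, hv2]
  exact ⟨_, pow_two _⟩

/-- [TRX-C6] **the elements `c_U`**. PROOF. Let `P'` be a prime of `N`, `P = P' ∩ 𝓞_M`, `v = P ∩ 𝓞_L` (`u6_below`).
(1) `D.rr ∈ P`. If `a` is a square in `M_P` then `#T` is even (`sq_seven_of_SP`), so `#U` is even and `c` is a square in `M_P` (`Star.sq_seven_M`), so in `N_P'` (`locCond_up`, TRX/A7). Otherwise `c` is a square in `N_P'`: `isSquare_inert` (TRX/A7; `Ur P c`: `Star.ur_up`, `Ur P a`: `ur_seven_of_SP`; not `Sq P a`: `isSquare_of_Sq`).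
(2) `D.rr ∉ P`, `v ∉ V ∪ T`: `Ur v d`, `Ur v c` (`U ⊆ T`), so `Ur P'` (`Ur.up` twice), `locCond_ur` (`7 ∉ P'` because `7 = -rr²`). (3) `v ∈ T`: `ur_above_T` for `d` and `c`, `locCond_ur`. (4) `v ∈ V`, `v ∉ T`: `v ∉ U`: `c` is a square in `M_P` (`Star.sq_inert`), so in `N_P'` (`locCond_up`; `LocCond` of a square is clear). -/
theorem selN_star (hd : SP L d V) (ha : SP L a T) (hQ : Q.e = algebraMap L M a) {c : L} (hU : U ⊆ T)
    (hc : Star U c) (hpar : Even T.card → Even U.card) :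
    SelN N (algebraMap L M d) D.r (algebraMap L M c) := by
  intro P'
  obtain ⟨P, hP'⟩ : ∃ P : HeightOneSpectrum (𝓞 M),
      P'.asIdeal.comap (algebraMap (𝓞 M) (𝓞 N)) = P.asIdeal := ⟨u6_below P', rfl⟩
  obtain ⟨v, hP⟩ : ∃ v : HeightOneSpectrum (𝓞 L),
      P.asIdeal.comap (algebraMap (𝓞 L) (𝓞 M)) = v.asIdeal := ⟨u6_below P, rfl⟩
  by_cases hr : D.rr ∈ P.asIdeal
  · have h7 : (7 : 𝓞 M) ∈ P.asIdeal := (n1_rr_iff D P).2 hr
    have h2 : (2 : 𝓞 M) ∉ P.asIdeal := q3_two P h7
    by_cases hs : IsSquare (algebraMap M (P.adicCompletion M) (algebraMap L M a))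
    · have hT : Even T.card := (sq_seven_of_SP D ha hr).1 hs
      have hc2 := (Star.sq_seven_M D (ha.nice.subset hU) hc hr).2 (hpar hT)
      exact locCond_up P hP' (Or.inl hc2)
    · have hur : Ur P Q.e := by
        rw [hQ]
        exact ur_seven_of_SP D ha hr
      have hns : ¬ Sq P Q.e := by
        rw [hQ]
        exact fun h => hs (isSquare_of_Sq P h)
      have hcu : Ur P (algebraMap L M c) := by
        refine Star.ur_up D hc P ?_
        intro w hw hPw
        have h7w := n1_seven D ((ha.nice.subset hU).seven w hw)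
        have := q3_not_mem hPw h7w
        rw [map_ofNat] at this
        exact this h7
      exact Or.inl (isSquare_inert Q P h2 hur hns hP' hcu)
  · have h7 : (7 : 𝓞 M) ∉ P.asIdeal := fun h => hr ((n1_rr_iff D P).1 h)
    have h7' : (7 : 𝓞 N) ∉ P'.asIdeal := by
      have := q3_not_mem hP' h7
      rwa [map_ofNat] at this
    have h7v : (7 : 𝓞 L) ∉ v.asIdeal := by
      intro h
      apply h7
      rw [← hP, Ideal.mem_comap, map_ofNat] at h
      exact h
    have hrN : (algebraMap M N D.r) ^ 2 = -7 := by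
      rw [← map_pow, D.hr, map_neg, map_ofNat]
    by_cases hvT : v ∈ T
    · exact locCond_ur hrN P' h7' (ur_above_T D Q ha hQ hvT hP hP' ((map_ne_zero _).2 hd.ne))
        (ur_above_T D Q ha hQ hvT hP hP' ((map_ne_zero _).2 hc.ne))
    · have hvU : v ∉ U := fun h => hvT (hU h)
      by_cases hvV : v ∈ V
      · exact locCond_up P hP' (Or.inl (Star.sq_inert D hc hvU (hd.four v hvV) (hd.seven v hvV) hP))
      · exact locCond_ur hrN P' h7' (Ur.up hP' (Ur.up hP (hd.ur v hvV h7v)))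
          (Ur.up hP' (Ur.up hP (hc.ur v hvU)))

end

end TRX
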