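import Pool.Agent.TRX.B6
import Pool.Agent.TTS.S9f

set_option autoImplicit false

open NumberField Ideal IsDedekindDomain WeierstrassCurve.Affine
open scoped Classical

/-! # [TRX-D0] the Tate–Shafarevich group in terms of cocycles with values in `Ws δ`. Compare `Pool/Agent/QTB/S15a.lean`, `S15b.lean` and `TRB.sha_make` in TRBX_S1.lean -/

namespace TRX

open TR TTS

theorem d0_id {K : Type} [Field K] {d : K} (h : RingHom.id K d = d) (P : (Ws d).toAffine.Point) :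
    ptH (RingHom.id K) h P = P := by
  cases P <;> rfl

/-- the coboundaries -/
theorem d0_zero {F : Type} [Field F] [NumberField F] {d₀ : F} (C : WeierstrassCurve.VariableChange F)
    (hfix : ∀ σ : AlgebraicClosure F ≃ₐ[F] AlgebraicClosure F,
      (σ : AlgebraicClosure F →+* AlgebraicClosure F) (algebraMap F (AlgebraicClosure F) d₀) =
        algebraMap F (AlgebraicClosure F) d₀)
    (c0 : SBSD.locTrivial (C • Ws d₀)) :
    (QuotientAddGroup.mk c0 : SBSD.Sha (C • Ws d₀)) = 0 ↔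
      ∃ R : (Ws (algebraMap F (AlgebraicClosure F) d₀)).toAffine.Point,
        ∀ σ : AlgebraicClosure F ≃ₐ[F] AlgebraicClosure F,
          s9f_tr d₀ C (AlgebraicClosure F) (c0.1 σ) =
            ptH (σ : AlgebraicClosure F →+* AlgebraicClosure F) (hfix σ) R - R := by
  have hgact : ∀ (σ : AlgebraicClosure F ≃ₐ[F] AlgebraicClosure F)
      (P : SBSD.Pts (C • Ws d₀) (AlgebraicClosure F)),
      s9f_tr d₀ C (AlgebraicClosure F)
        (WeierstrassCurve.Affine.Point.map (W' := C • Ws d₀) σ.toAlgHom P) =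
        ptH (σ : AlgebraicClosure F →+* AlgebraicClosure F) (hfix σ)
          (s9f_tr d₀ C (AlgebraicClosure F) P) := fun σ P =>
    s9f_tr_map d₀ C (AlgebraicClosure F) (AlgebraicClosure F) σ.toAlgHom (hfix σ) P
  rw [QuotientAddGroup.eq_zero_iff, AddSubgroup.mem_addSubgroupOf]
  constructor
  · rintro ⟨P, hP⟩
    refine ⟨s9f_tr d₀ C (AlgebraicClosure F) P, fun σ => ?_⟩
    have h1 := congrArg (s9f_tr d₀ C (AlgebraicClosure F)) (hP σ)
    rw [map_sub, hgact] at h1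
    exact h1
  · rintro ⟨R, hR⟩
    refine ⟨(s9f_tr d₀ C (AlgebraicClosure F)).symm R, fun σ => ?_⟩
    apply (s9f_tr d₀ C (AlgebraicClosure F)).injective
    rw [map_sub, hgact, AddEquiv.apply_symm_apply]
    exact hR σ

section

variable {F : Type} [Field F] [NumberField F] {d₀ : F} {δ : AlgebraicClosure F}

/-- `x` is the class of the cocycle `c` (`δ` is the image of `d₀`) -/
def Rep (hδ : algebraMap F (AlgebraicClosure F) d₀ = δ) (C : WeierstrassCurve.VariableChange F)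
    (x : SBSD.Sha (C • Ws d₀)) (c : (AlgebraicClosure F ≃ₐ[F] AlgebraicClosure F) → (Ws δ).toAffine.Point) : Prop :=
  ∃ c0 : SBSD.locTrivial (C • Ws d₀), (QuotientAddGroup.mk c0 : SBSD.Sha (C • Ws d₀)) = x ∧
    ∀ σ : AlgebraicClosure F ≃ₐ[F] AlgebraicClosure F, ptH (RingHom.id (AlgebraicClosure F)) hδ
      (s9f_tr d₀ C (AlgebraicClosure F) (c0.1 σ)) = c σ

variable (hδ : algebraMap F (AlgebraicClosure F) d₀ = δ) (C : WeierstrassCurve.VariableChange F)
  (hfix : ∀ σ : AlgebraicClosure F ≃ₐ[F] AlgebraicClosure F,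
      (σ : AlgebraicClosure F →+* AlgebraicClosure F) δ = δ)

/-- [TRX-D0] PROOF. `QuotientAddGroup.mk_surjective`. -/
theorem exists_rep (x : SBSD.Sha (C • Ws d₀)) :
    ∃ c : (AlgebraicClosure F ≃ₐ[F] AlgebraicClosure F) → (Ws δ).toAffine.Point, Rep hδ C x c := by
  obtain ⟨c0, rfl⟩ := QuotientAddGroup.mk_surjective x
  exact ⟨fun σ => ptH (RingHom.id (AlgebraicClosure F)) hδ
    (s9f_tr d₀ C (AlgebraicClosure F) (c0.1 σ)), c0, rfl, fun σ => rfl⟩

/-- [TRX-D0] PROOF. As in `TTS.s9f_two` (`subst hδ`; `ptH (RingHom.id _)` is the identity). -/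
theorem Rep.coc {x : SBSD.Sha (C • Ws d₀)}
    {c : (AlgebraicClosure F ≃ₐ[F] AlgebraicClosure F) → (Ws δ).toAffine.Point} (h : Rep hδ C x c) :
    Coc F (AlgebraicClosure F) hfix c ∧ ∀ v : HeightOneSpectrum (𝓞 F),
      LocTriv c (v.adicCompletion F) (AlgebraicClosure (v.adicCompletion F)) := by
  subst hδ
  obtain ⟨c0, -, h1⟩ := h
  obtain ⟨⟨hc1, hc2⟩, hloc, -⟩ := c0.2
  have hgact : ∀ (σ : AlgebraicClosure F ≃ₐ[F] AlgebraicClosure F)
      (P : SBSD.Pts (C • Ws d₀) (AlgebraicClosure F)),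
      s9f_tr d₀ C (AlgebraicClosure F)
        (WeierstrassCurve.Affine.Point.map (W' := C • Ws d₀) σ.toAlgHom P) =
        ptH (σ : AlgebraicClosure F →+* AlgebraicClosure F) (hfix σ)
          (s9f_tr d₀ C (AlgebraicClosure F) P) := fun σ P =>
    s9f_tr_map d₀ C (AlgebraicClosure F) (AlgebraicClosure F) σ.toAlgHom (hfix σ) P
  have h2 : c = fun σ => s9f_tr d₀ C (AlgebraicClosure F) (c0.1 σ) := by
    funext σ
    rw [← h1 σ, d0_id]
  subst h2
  refine ⟨⟨hc1.comp (s9f_tr d₀ C (AlgebraicClosure F)), fun σ τ => ?_⟩, fun v ι dv h hfix' => ?_⟩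
  · rw [hc2 σ τ, map_add, hgact]
    rfl
  · obtain ⟨Q', hQ'⟩ := hloc v ι
    have hdv : algebraMap F (AlgebraicClosure (v.adicCompletion F)) d₀ = dv := by
      rw [← h]
      exact (ι.commutes d₀).symm
    subst hdv
    refine ⟨s9f_tr d₀ C (AlgebraicClosure (v.adicCompletion F)) Q', fun τ σ hστ => ?_⟩
    have h6 := congrArg (s9f_tr d₀ C (AlgebraicClosure (v.adicCompletion F))) (hQ' τ σ hστ)
    rw [s9f_tr_map d₀ C _ _ ι (ι.commutes d₀), map_sub,
      s9f_tr_map d₀ C _ _ _ (hfix' τ)] at h6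
    exact h6

/-- [TRX-D0] PROOF. As `TRB.sha_make` (the values of the cocycle are transported by the inverse of `s9f_tr`). -/
theorem rep_of_coc {c : (AlgebraicClosure F ≃ₐ[F] AlgebraicClosure F) → (Ws δ).toAffine.Point}
    (hc : Coc F (AlgebraicClosure F) hfix c)
    (hfin : ∀ v : HeightOneSpectrum (𝓞 F),
      LocTriv c (v.adicCompletion F) (AlgebraicClosure (v.adicCompletion F)))
    (hinf : ∀ v : InfinitePlace F, LocTriv c v.Completion (AlgebraicClosure v.Completion)) :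
    ∃ x : SBSD.Sha (C • Ws d₀), Rep hδ C x c := by
  subst hδ
  let Ω := AlgebraicClosure F
  let e := s9f_tr d₀ C Ω
  have hgact : ∀ (σ : Ω ≃ₐ[F] Ω) (P : SBSD.Pts (C • Ws d₀) (AlgebraicClosure F)),
      e (WeierstrassCurve.Affine.Point.map (W' := C • Ws d₀) σ.toAlgHom P) =
        ptH (σ : Ω →+* Ω) (hfix σ) (e P) := fun σ P =>
    s9f_tr_map d₀ C Ω Ω σ.toAlgHom (hfix σ) P
  have hes : ∀ P, e (e.symm P) = P := fun P => e.apply_symm_apply P
  -- the local condition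
  have hloc : ∀ (Fv : Type) [Field Fv] [Algebra F Fv],
      LocTriv c Fv (AlgebraicClosure Fv) →
      SBSD.TrivialOver (C • Ws d₀) Fv (fun σ => e.symm (c σ)) := by
    intro Fv _ _ h j
    have hdv : (j : Ω →+* AlgebraicClosure Fv) (algebraMap F Ω d₀) =
        algebraMap F (AlgebraicClosure Fv) d₀ := j.commutes d₀
    have hfv : ∀ τ : AlgebraicClosure Fv ≃ₐ[Fv] AlgebraicClosure Fv,
        (τ : AlgebraicClosure Fv →+* AlgebraicClosure Fv) (algebraMap F (AlgebraicClosure Fv) d₀) =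
          algebraMap F (AlgebraicClosure Fv) d₀ := by
      intro τ
      rw [IsScalarTower.algebraMap_apply F Fv (AlgebraicClosure Fv)]
      exact τ.commutes _
    obtain ⟨Q, hQ⟩ := h j _ hdv hfv
    refine ⟨(s9f_tr d₀ C (AlgebraicClosure Fv)).symm Q, fun τ σ hστ => ?_⟩
    apply (s9f_tr d₀ C (AlgebraicClosure Fv)).injective
    have h1 := hQ τ σ hστ
    rw [s9f_tr_map d₀ C _ _ j hdv, map_sub, s9f_tr_map d₀ C _ _ _ (hfv τ),
      AddEquiv.apply_symm_apply, AddEquiv.apply_symm_apply]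
    exact h1
  have hcoc : (fun σ => e.symm (c σ)) ∈ SBSD.cocycles (C • Ws d₀) := by
    refine ⟨hc.loc.comp e.symm, fun σ τ => ?_⟩
    apply e.injective
    rw [map_add, hgact]
    change e (e.symm (c (σ * τ))) = e (e.symm (c σ)) + ptH _ (hfix σ) (e (e.symm (c τ)))
    rw [hes, hes, hes]
    exact hc.crossed σ τ
  have hmem : (fun σ => e.symm (c σ)) ∈ SBSD.locTrivial (C • Ws d₀) :=
    ⟨hcoc, fun v => hloc _ (hfin v), fun v => hloc _ (hinf v)⟩
  refine ⟨QuotientAddGroup.mk ⟨fun σ => e.symm (c σ), hmem⟩, ⟨fun σ => e.symm (c σ), hmem⟩, rfl,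
    fun σ => ?_⟩
  rw [d0_id]
  exact hes (c σ)

/-- [TRX-D0] PROOF. As `QTB.mk_eq_zero_iff` for the difference. -/
theorem rep_eq_iff {x x' : SBSD.Sha (C • Ws d₀)}
    {c c' : (AlgebraicClosure F ≃ₐ[F] AlgebraicClosure F) → (Ws δ).toAffine.Point} (h : Rep hδ C x c)
    (h' : Rep hδ C x' c') : x = x' ↔ ∃ R : (Ws δ).toAffine.Point,
      ∀ σ : AlgebraicClosure F ≃ₐ[F] AlgebraicClosure F,
        c σ = c' σ + (ptH (σ : AlgebraicClosure F →+* AlgebraicClosure F) (hfix σ) R - R) := by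
  subst hδ
  obtain ⟨c0, rfl, h1⟩ := h
  obtain ⟨c0', rfl, h1'⟩ := h'
  have h2 := d0_zero C hfix (c0 - c0')
  rw [QuotientAddGroup.mk_sub, sub_eq_zero] at h2
  rw [h2]
  have h3 : ∀ σ : AlgebraicClosure F ≃ₐ[F] AlgebraicClosure F,
      s9f_tr d₀ C (AlgebraicClosure F) ((c0 - c0').1 σ) = c σ - c' σ := by
    intro σ
    rw [← h1 σ, ← h1' σ, d0_id, d0_id, ← map_sub]
    rfl
  constructor
  · rintro ⟨R, hR⟩
    refine ⟨R, fun σ => ?_⟩
    rw [← hR σ, h3 σ]
    abel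
  · rintro ⟨R, hR⟩
    refine ⟨R, fun σ => ?_⟩
    rw [h3 σ, hR σ]
    abel

/-- [TRX-D0] PROOF. `QuotientAddGroup.eq_zero_iff` for `n • c0`. -/
theorem rep_nsmul_eq_zero_iff {x : SBSD.Sha (C • Ws d₀)}
    {c : (AlgebraicClosure F ≃ₐ[F] AlgebraicClosure F) → (Ws δ).toAffine.Point} (h : Rep hδ C x c) (n : ℕ) :
    n • x = 0 ↔ ∃ R : (Ws δ).toAffine.Point,
      ∀ σ : AlgebraicClosure F ≃ₐ[F] AlgebraicClosure F,
        n • c σ = ptH (σ : AlgebraicClosure F →+* AlgebraicClosure F) (hfix σ) R - R := by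
  subst hδ
  obtain ⟨c0, rfl, h1⟩ := h
  have h2 := d0_zero C hfix (n • c0)
  rw [QuotientAddGroup.mk_nsmul] at h2
  rw [h2]
  have h3 : ∀ σ : AlgebraicClosure F ≃ₐ[F] AlgebraicClosure F,
      s9f_tr d₀ C (AlgebraicClosure F) ((n • c0).1 σ) = n • c σ := by
    intro σ
    rw [← h1 σ, d0_id, ← map_nsmul]
    rfl
  simp only [h3]

end

/-- [TRX-D0] the two part from a system of representatives. PROOF. `2^k • x = 0` gives `b` with `x = Φ b`, so `2 • x = 0`; `Φ` is a bijection from `B` to `{x // 2 • x = 0}` (`Nat.card_congr`, `Equiv.ofBijective`). -/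
theorem two_part {A B : Type} [AddCommGroup A] (Φ : B → A) (h1 : ∀ b, 2 • Φ b = 0) (h2 : Function.Injective Φ)
    (h3 : ∀ (x : A) (k : ℕ), 2 ^ k • x = 0 → ∃ b, Φ b = x) :
    (∀ (x : A) (k : ℕ), 2 ^ k • x = 0 → 2 • x = 0) ∧ Nat.card {x : A // 2 • x = 0} = Nat.card B := by
  have h4 : ∀ (x : A) (k : ℕ), 2 ^ k • x = 0 → 2 • x = 0 := by
    intro x k hx
    obtain ⟨b, rfl⟩ := h3 x k hx
    exact h1 b
  refine ⟨h4, ?_⟩
  symm
  refine Nat.card_congr (Equiv.ofBijective (fun b => (⟨Φ b, h1 b⟩ : {x : A // 2 • x = 0})) ⟨?_, ?_⟩)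
  · intro b b' h
    exact h2 (congrArg Subtype.val h)
  · rintro ⟨x, hx⟩
    obtain ⟨b, hb⟩ := h3 x 1 (by rw [pow_one]; exact hx)
    exact ⟨b, Subtype.ext hb⟩

end TRX
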