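import Pool.Agent.TRX.K4
import Pool.Agent.TRX.C5
import Pool.Agent.TRX.B6
import Pool.Agent.TTS.S9b

set_option autoImplicit false

open NumberField Ideal IsDedekindDomain WeierstrassCurve.Affine
open scoped Classical

/-! # [TRX-D1] cocycles with values in the 2-torsion, over a field which contains `√-7` (`ρ` is the image of `r = √-7` in `Ω`; start with `subst hρr` / `subst hδ` where it helps) -/

namespace TRX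

open TR TTS

theorem d1_one {M Ω : Type} [Field M] [Field Ω] [CharZero Ω] [Algebra M Ω] {δ ρ : Ω}
    (hδ0 : δ ≠ 0) (hρ : ρ ^ 2 = -7) {α : Ω} {σ : Ω ≃ₐ[M] Ω} (h : σ α = α) :
    kap hδ0 hρ α σ = 0 := by
  unfold kap
  rw [if_pos h]

theorem d1_neg {M Ω : Type} [Field M] [Field Ω] [CharZero Ω] [Algebra M Ω] {δ ρ : Ω}
    (hδ0 : δ ≠ 0) (hρ : ρ ^ 2 = -7) {α : Ω} (hα0 : α ≠ 0) {σ : Ω ≃ₐ[M] Ω} (h : σ α = -α) :
    kap hδ0 hρ α σ = T1 hδ0 hρ := by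
  unfold kap
  rw [if_neg]
  intro h1
  apply hα0
  have h7 : (2 : Ω) * α = 0 := by linear_combination h - h1
  exact (mul_eq_zero.1 h7).resolve_left two_ne_zero

theorem d1_pm {M Ω : Type} [Field M] [Field Ω] [CharZero Ω] [Algebra M Ω] {α : Ω} {z : M}
    (hz : algebraMap M Ω z = α ^ 2) (σ : Ω ≃ₐ[M] Ω) : σ α = α ∨ σ α = -α := by
  apply sq_eq_sq_iff_eq_or_eq_neg.1
  rw [← map_pow, ← hz, σ.commutes]

theorem d1_self {M Ω : Type} [Field M] [Field Ω] [CharZero Ω] [Algebra M Ω] {δ ρ : Ω}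
    (hδ0 : δ ≠ 0) (hρ : ρ ^ 2 = -7) {α : Ω} (hα0 : α ≠ 0) {z : M}
    (hz : algebraMap M Ω z = α ^ 2) (σ : Ω ≃ₐ[M] Ω) :
    σ α = (ch hδ0 hρ (kap hδ0 hρ α σ) : Ω) * α := by
  obtain ⟨c0, c1, c2, c3⟩ := s2a_ch hδ0 hρ
  rcases d1_pm hz σ with h | h
  · rw [d1_one hδ0 hρ h, c0, h]
    push_cast
    ring
  · rw [d1_neg hδ0 hρ hα0 h, c1, h]
    push_cast
    ring

theorem d1_other {M Ω : Type} [Field M] [Field Ω] [CharZero Ω] [Algebra M Ω] {δ ρ ρ' : Ω}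
    (hδ0 : δ ≠ 0) (hρ : ρ ^ 2 = -7) (hρ' : ρ' ^ 2 = -7) (hT : T1 hδ0 hρ = T2 hδ0 hρ') {α : Ω}
    (σ : Ω ≃ₐ[M] Ω) : ch hδ0 hρ' (kap hδ0 hρ α σ) = 1 := by
  obtain ⟨c0, c1, c2, c3⟩ := s2a_ch hδ0 hρ'
  unfold kap
  split_ifs with h
  · exact c0
  · rw [hT]
    exact c2

section
variable {M Ω : Type} [Field M] [CharZero M] [Field Ω] [CharZero Ω] [Algebra M Ω] [IsAlgClosure M Ω] {δ ρ : Ω}

/-- [TRX-D1] **splitting.** PROOF. `χ σ = ch hδ0 hρ (y σ)` is multiplicative and locally constant (as in `TTS.exists_class`): `TRS.kummer_char` gives `α`, `z`; the same for `-ρ`: `β`, `z'`. `y σ ∈ {0, T1, T2, T3}` (`TTS.two_nsmul_eq_zero`); `ch = 1` on `0, T2`,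
`-1` on `T1, T3`; for `-ρ` the points `T1`, `T2` are exchanged (`TTS.T1_neg`): `ch hδ0 hρ' = 1` on `0, T1`, `-1` on `T2, T3`. `kap hδ0 hρ α` is `0` or `T1` as `σ α = α` or `-α`; `kap hδ0 hρ' β` is `0` or `T1 hδ0 hρ' = T2 hδ0 hρ`. `TTS.T_add`. -/
theorem exists_split {r : M} (hρr : algebraMap M Ω r = ρ) (hρ : ρ ^ 2 = -7) (hρ' : (-ρ) ^ 2 = -7)
    (hδ0 : δ ≠ 0) (hfix : ∀ σ : Ω ≃ₐ[M] Ω, (σ : Ω →+* Ω) δ = δ)
    (y : (Ω ≃ₐ[M] Ω) → (Ws δ).toAffine.Point) (hy : Coc M Ω hfix y) (h2 : ∀ σ, (2 : ℕ) • y σ = 0) :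
    ∃ (α β : Ω) (z z' : M), z ≠ 0 ∧ z' ≠ 0 ∧ algebraMap M Ω z = α ^ 2 ∧ algebraMap M Ω z' = β ^ 2 ∧
      (∀ σ : Ω ≃ₐ[M] Ω, σ α = (ch hδ0 hρ (y σ) : Ω) * α) ∧ (∀ σ : Ω ≃ₐ[M] Ω, σ β = (ch hδ0 hρ' (y σ) : Ω) * β) ∧
      ∀ σ : Ω ≃ₐ[M] Ω, y σ = kap hδ0 hρ α σ + kap hδ0 hρ' β σ := by
  have : IsAlgClosed Ω := IsAlgClosure.isAlgClosed M
  have : Algebra.IsAlgebraic M Ω := IsAlgClosure.isAlgebraic
  have : IsGalois M Ω := inferInstance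
  have key : ∀ (R : Ω) (hR : R ^ 2 = -7), (∀ σ : Ω ≃ₐ[M] Ω, (σ : Ω →+* Ω) R = R) →
      ∃ α : Ω, α ≠ 0 ∧ (∀ σ : Ω ≃ₐ[M] Ω, σ α = (ch hδ0 hR (y σ) : Ω) * α) ∧
        ∃ z : M, z ≠ 0 ∧ algebraMap M Ω z = α ^ 2 := by
    intro R hR hRf
    have hχ1 : IsLocallyConstant (fun σ => ch hδ0 hR (y σ)) := hy.loc.comp (ch hδ0 hR)
    have hχ2 : ∀ σ τ, ch hδ0 hR (y (σ * τ)) = ch hδ0 hR (y σ) * ch hδ0 hR (y τ) := by
      intro σ τ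
      have h3 : y (σ * τ) = y σ + ptH (σ : Ω →+* Ω) (hfix σ) (y τ) := hy.crossed σ τ
      have h4 : (2 : ℕ) • ptH (σ : Ω →+* Ω) (hfix σ) (y τ) = 0 := by
        rw [← map_nsmul, h2 τ, map_zero]
      rw [h3, ch_add hδ0 hR (h2 σ) h4, ch_map hδ0 hR (σ : Ω →+* Ω) (hfix σ) hδ0 hR (hRf σ)]
    exact TRS.kummer_char (fun σ => ch hδ0 hR (y σ)) (fun σ => ch_sq hδ0 hR _) hχ1 hχ2
  have hf : ∀ σ : Ω ≃ₐ[M] Ω, (σ : Ω →+* Ω) ρ = ρ := by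
    intro σ
    rw [← hρr]
    exact σ.commutes r
  have hf' : ∀ σ : Ω ≃ₐ[M] Ω, (σ : Ω →+* Ω) (-ρ) = -ρ := by
    intro σ
    rw [map_neg, hf σ]
  obtain ⟨α, hα, hασ, z, hz0, hz⟩ := key ρ hρ hf
  obtain ⟨β, hβ, hβσ, z', hz0', hz'⟩ := key (-ρ) hρ' hf'
  refine ⟨α, β, z, z', hz0, hz0', hz, hz', hασ, hβσ, fun σ => ?_⟩
  obtain ⟨c0, c1, c2, c3⟩ := s2a_ch hδ0 hρ
  obtain ⟨k0, k1, k2, k3⟩ := s2a_ch hδ0 hρ'
  obtain ⟨t1, t2⟩ := T1_neg hδ0 hρ hρ'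
  obtain ⟨h12, -, -⟩ := T_add hδ0 hρ
  have h5 := hασ σ
  have h6 := hβσ σ
  have hpos : ∀ x : Ω, ((1 : ℤ) : Ω) * x = x := fun x => by
    rw [Int.cast_one, one_mul]
  have hneg : ∀ x : Ω, ((-1 : ℤ) : Ω) * x = -x := fun x => by
    rw [Int.cast_neg, Int.cast_one, neg_one_mul]
  rcases (two_nsmul_eq_zero hδ0 hρ (y σ)).1 (h2 σ) with h | h | h | h
  · rw [h, c0, hpos] at h5
    rw [h, k0, hpos] at h6
    rw [h, d1_one hδ0 hρ h5, d1_one hδ0 hρ' h6, add_zero]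
  · rw [h, c1, hneg] at h5
    rw [h, ← t2, k2, hpos] at h6
    rw [h, d1_neg hδ0 hρ hα h5, d1_one hδ0 hρ' h6, add_zero]
  · rw [h, c2, hpos] at h5
    rw [h, ← t1, k1, hneg] at h6
    rw [h, d1_one hδ0 hρ h5, d1_neg hδ0 hρ' hβ h6, zero_add, t1]
  · rw [h, c3, hneg] at h5
    rw [h, k3, hneg] at h6
    rw [h, d1_neg hδ0 hρ hα h5, d1_neg hδ0 hρ' hβ h6, t1, h12]

omit [IsAlgClosure M Ω] [CharZero M] in
/-- [TRX-D1] the characters of the sum of two classes. PROOF. `TTS.s2a_ch`, `TTS.ch_add`, `TTS.T1_neg`. -/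
theorem ch_kap (hρ : ρ ^ 2 = -7) (hρ' : (-ρ) ^ 2 = -7) (hδ0 : δ ≠ 0) {α β : Ω} {z z' : M} (hz : algebraMap M Ω z = α ^ 2)
    (hz' : algebraMap M Ω z' = β ^ 2) (hα0 : α ≠ 0) (hβ0 : β ≠ 0) (σ : Ω ≃ₐ[M] Ω) :
    σ α = (ch hδ0 hρ (kap hδ0 hρ α σ + kap hδ0 hρ' β σ) : Ω) * α ∧
      σ β = (ch hδ0 hρ' (kap hδ0 hρ α σ + kap hδ0 hρ' β σ) : Ω) * β := by
  obtain ⟨t1, t2⟩ := T1_neg hδ0 hρ hρ'
  have h1 : ch hδ0 hρ (kap hδ0 hρ' β σ) = 1 := d1_other hδ0 hρ' hρ t1 σ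
  have h2 : ch hδ0 hρ' (kap hδ0 hρ α σ) = 1 := d1_other hδ0 hρ hρ' t2.symm σ
  constructor
  · rw [ch_add hδ0 hρ (two_kap hδ0 hρ α σ) (two_kap hδ0 hρ' β σ), h1, mul_one]
    exact d1_self hδ0 hρ hα0 hz σ
  · rw [ch_add hδ0 hρ' (two_kap hδ0 hρ α σ) (two_kap hδ0 hρ' β σ), h2, one_mul]
    exact d1_self hδ0 hρ' hβ0 hz' σ

omit [IsAlgClosure M Ω] [CharZero M] in
/-- [TRX-D1] the algebra of the classes. PROOF. `σ α = ± α`, `σ β = ± β`; `α β` is fixed iff the signs agree; `2 • T1 = 0`. -/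
theorem kap_mul (hρ : ρ ^ 2 = -7) (hδ0 : δ ≠ 0) {α β : Ω} {z z' : M} (hz : algebraMap M Ω z = α ^ 2)
    (hz' : algebraMap M Ω z' = β ^ 2) (hα0 : α ≠ 0) (hβ0 : β ≠ 0) (σ : Ω ≃ₐ[M] Ω) :
    kap hδ0 hρ (α * β) σ = kap hδ0 hρ α σ + kap hδ0 hρ β σ := by
  have hαβ : α * β ≠ 0 := mul_ne_zero hα0 hβ0
  have hTT : T1 hδ0 hρ + T1 hδ0 hρ = 0 := by
    rw [← two_nsmul]
    exact (two_nsmul_eq_zero hδ0 hρ _).2 (Or.inr (Or.inl rfl))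
  rcases d1_pm hz σ with h1 | h1 <;> rcases d1_pm hz' σ with h2 | h2
  · have h3 : σ (α * β) = α * β := by rw [map_mul, h1, h2]
    rw [d1_one hδ0 hρ h1, d1_one hδ0 hρ h2, d1_one hδ0 hρ h3, add_zero]
  · have h3 : σ (α * β) = -(α * β) := by
      rw [map_mul, h1, h2]
      ring
    rw [d1_one hδ0 hρ h1, d1_neg hδ0 hρ hβ0 h2, d1_neg hδ0 hρ hαβ h3, zero_add]
  · have h3 : σ (α * β) = -(α * β) := by
      rw [map_mul, h1, h2]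
      ring
    rw [d1_neg hδ0 hρ hα0 h1, d1_one hδ0 hρ h2, d1_neg hδ0 hρ hαβ h3, add_zero]
  · have h3 : σ (α * β) = α * β := by
      rw [map_mul, h1, h2]
      ring
    rw [d1_neg hδ0 hρ hα0 h1, d1_neg hδ0 hρ hβ0 h2, d1_one hδ0 hρ h3, hTT]

omit [IsAlgClosure M Ω] [CharZero M] in
/-- [TRX-D1] PROOF. `α = ± algebraMap s`. -/
theorem kap_sq (hρ : ρ ^ 2 = -7) (hδ0 : δ ≠ 0) {α : Ω} {z : M} (hz : algebraMap M Ω z = α ^ 2)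
    (hsq : IsSquare z) (σ : Ω ≃ₐ[M] Ω) : kap hδ0 hρ α σ = 0 := by
  obtain ⟨s, hs⟩ := hsq
  apply d1_one
  have h1 : α ^ 2 = (algebraMap M Ω s) ^ 2 := by
    rw [← hz, hs, map_mul, sq]
  rcases sq_eq_sq_iff_eq_or_eq_neg.1 h1 with h | h
  · rw [h, σ.commutes]
  · rw [h, map_neg, σ.commutes]

/-- [TRX-D1] PROOF. `locCond_dr` (C5) and `triv_of_locCond` (K3) with `K = M`. -/
theorem kap_dr {d₀ r : M} (hδ : algebraMap M Ω d₀ = δ) (hr : r ^ 2 = -7) (hρr : algebraMap M Ω r = ρ) (hρ : ρ ^ 2 = -7) (hδ0 : δ ≠ 0)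
    (hfix : ∀ σ : Ω ≃ₐ[M] Ω, (σ : Ω →+* Ω) δ = δ) {α : Ω} (hα : algebraMap M Ω (d₀ * r) = α ^ 2) :
    ∃ S : (Ws δ).toAffine.Point, ∀ σ : Ω ≃ₐ[M] Ω, kap hδ0 hρ α σ = ptH (σ : Ω →+* Ω) (hfix σ) S - S := by
  have : IsAlgClosed Ω := IsAlgClosure.isAlgClosed M
  subst hρr
  have hd0 : d₀ ≠ 0 := by
    rintro rfl
    rw [map_zero] at hδ
    exact hδ0 hδ.symm
  have hr0 : r ≠ 0 := by
    rintro rfl
    norm_num at hr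
  obtain ⟨Q, hQ⟩ := triv_of_locCond hd0 hr (mul_ne_zero hd0 hr0) (locCond_dr hd0 hr) hδ hδ0 hρ
    hfix hα
  refine ⟨Q, fun σ => ?_⟩
  rw [hQ σ]
  rfl

/-- [TRX-D1] **the classes `z`, `z'` which differ by `1` or `d r`.** PROOF. `IsSquare (z * z')`: `αβ` gives `0` (`kap_sq`, `kap_mul`, `two_kap`). `IsSquare (z * z' * (d₀ * r))`: let `η² = d₀ r` in `Ω`; `α β η` gives `0`, `kap η` is `∂ S` (`kap_dr`); signs do not matter (`two_kap`). -/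
theorem kap_congr {d₀ r : M} (hδ : algebraMap M Ω d₀ = δ) (hr : r ^ 2 = -7) (hρr : algebraMap M Ω r = ρ) (hρ : ρ ^ 2 = -7) (hδ0 : δ ≠ 0)
    (hfix : ∀ σ : Ω ≃ₐ[M] Ω, (σ : Ω →+* Ω) δ = δ) {α β : Ω} {z z' : M} (hz : algebraMap M Ω z = α ^ 2)
    (hz' : algebraMap M Ω z' = β ^ 2) (hz0 : z ≠ 0) (hz0' : z' ≠ 0) (h : IsSquare (z * z') ∨ IsSquare (z * z' * (d₀ * r))) :
    ∃ S : (Ws δ).toAffine.Point, ∀ σ : Ω ≃ₐ[M] Ω,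
      kap hδ0 hρ α σ = kap hδ0 hρ β σ + (ptH (σ : Ω →+* Ω) (hfix σ) S - S) := by
  have : IsAlgClosed Ω := IsAlgClosure.isAlgClosed M
  have hα0 : α ≠ 0 := by
    rintro rfl
    rw [zero_pow two_ne_zero] at hz
    exact hz0 ((map_eq_zero _).1 hz)
  have hβ0 : β ≠ 0 := by
    rintro rfl
    rw [zero_pow two_ne_zero] at hz'
    exact hz0' ((map_eq_zero _).1 hz')
  have hd0 : d₀ ≠ 0 := by
    rintro rfl
    rw [map_zero] at hδ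
    exact hδ0 hδ.symm
  have hr0 : r ≠ 0 := by
    rintro rfl
    norm_num at hr
  have hzz : algebraMap M Ω (z * z') = (α * β) ^ 2 := by
    rw [map_mul, hz, hz', mul_pow]
  rcases h with h | h
  · refine ⟨0, fun σ => ?_⟩
    have h1 := kap_sq hρ hδ0 hzz h σ
    rw [kap_mul hρ hδ0 hz hz' hα0 hβ0 σ] at h1
    have h2 := two_kap hδ0 hρ β σ
    rw [two_nsmul] at h2
    rw [map_zero, sub_zero, add_zero]
    exact (eq_neg_of_add_eq_zero_left h1).trans (eq_neg_of_add_eq_zero_left h2).symm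
  · obtain ⟨η, hη⟩ := IsAlgClosed.exists_pow_nat_eq (algebraMap M Ω (d₀ * r)) two_pos
    obtain ⟨S, hS⟩ := kap_dr hδ hr hρr hρ hδ0 hfix (α := η) hη.symm
    refine ⟨S, fun σ => ?_⟩
    rw [← hS σ]
    have hη0 : η ≠ 0 := by
      rintro rfl
      rw [zero_pow two_ne_zero] at hη
      exact mul_ne_zero hd0 hr0 ((map_eq_zero _).1 hη.symm)
    have hzzη : algebraMap M Ω (z * z' * (d₀ * r)) = (α * β * η) ^ 2 := by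
      rw [map_mul, hzz, ← hη]
      ring
    have h1 := kap_sq hρ hδ0 hzzη h σ
    rw [kap_mul hρ hδ0 hzz hη.symm (mul_ne_zero hα0 hβ0) hη0 σ,
      kap_mul hρ hδ0 hz hz' hα0 hβ0 σ] at h1
    have h2 := two_kap hδ0 hρ β σ
    have h3 := two_kap hδ0 hρ η σ
    rw [two_nsmul] at h2 h3
    have h4 : kap hδ0 hρ β σ = -kap hδ0 hρ β σ := eq_neg_of_add_eq_zero_left h2
    have h5 : kap hδ0 hρ η σ = -kap hδ0 hρ η σ := eq_neg_of_add_eq_zero_left h3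
    have h6 : kap hδ0 hρ α σ = -kap hδ0 hρ η σ + -kap hδ0 hρ β σ := by
      have h7 := eq_neg_of_add_eq_zero_left h1
      rw [← h7]
      abel
    rw [h6, ← h4, ← h5, add_comm]

end

end TRX
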