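import Pool.Agent.TRX.K4
import Pool.Agent.TRX.B0

set_option autoImplicit false

open NumberField Ideal IsDedekindDomain WeierstrassCurve.Affine
open scoped Classical

/-! # [TRX-D6] the class with values `O`, `T3 = (7 d, 0)`: it is defined over fields without `√-7` -/

namespace TRX

open TR TTS

/-- the value is `0` if `σ α = α` and `T3` otherwise -/
noncomputable def kap3 {K Ω : Type} [Field K] [Field Ω] [CharZero Ω] [Algebra K Ω] {δ : Ω} (hδ0 : δ ≠ 0) (α : Ω) (σ : Ω ≃ₐ[K] Ω) :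
    (Ws δ).toAffine.Point :=
  if σ α = α then 0 else TTS.T3 hδ0

section
variable {K Ω : Type} [Field K] [Field Ω] [CharZero Ω] [Algebra K Ω] {δ ρ : Ω} (hδ0 : δ ≠ 0)

/-- [TRX-D6] PROOF. `2 • T3 = 0`: `TTS.two_mkP_zero`. -/
theorem two_kap3 (α : Ω) (σ : Ω ≃ₐ[K] Ω) : (2 : ℕ) • kap3 hδ0 α σ = 0 := by
  unfold kap3
  split_ifs
  · exact smul_zero _
  · exact two_mkP_zero hδ0 _

/-- [TRX-D6] PROOF. `TTS.T_add`, `TTS.T1_neg`. -/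
theorem kap3_eq (hρ : ρ ^ 2 = -7) (hρ' : (-ρ) ^ 2 = -7) (α : Ω) (σ : Ω ≃ₐ[K] Ω) :
    kap3 hδ0 α σ = kap hδ0 hρ α σ + kap hδ0 hρ' α σ := by
  unfold kap3 kap
  split_ifs
  · exact (add_zero _).symm
  · rw [(T1_neg hδ0 hρ hρ').1]
    exact (T_add hδ0 hρ).1.symm

/-- `kap3` is a crossed homomorphism -/
theorem d6_cross (hfix : ∀ σ : Ω ≃ₐ[K] Ω, (σ : Ω →+* Ω) δ = δ) {β : Ω}
    (hβ : ∀ σ : Ω ≃ₐ[K] Ω, σ β = β ∨ σ β = -β) (σ τ : Ω ≃ₐ[K] Ω) :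
    kap3 hδ0 β (σ * τ) = kap3 hδ0 β σ + ptH (σ : Ω →+* Ω) (hfix σ) (kap3 hδ0 β τ) := by
  have hT : ptH (σ : Ω →+* Ω) (hfix σ) (TTS.T3 hδ0) = TTS.T3 hδ0 :=
    ptH_T3 hδ0 (σ : Ω →+* Ω) (hfix σ) hδ0
  have hTT : TTS.T3 hδ0 + TTS.T3 hδ0 = 0 := by
    rw [← two_nsmul]
    exact two_mkP_zero hδ0 _
  have hmul : (σ * τ) β = σ (τ β) := rfl
  by_cases hα0 : β = 0
  · unfold kap3
    rw [hα0]
    simp only [map_zero, if_true]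
    rw [add_zero]
  have hne : -β ≠ β := by
    intro h
    apply hα0
    have h7 : (2 : Ω) * β = 0 := by linear_combination -h
    exact (mul_eq_zero.1 h7).resolve_left two_ne_zero
  unfold kap3
  rw [hmul]
  rcases hβ σ with h1 | h1 <;> rcases hβ τ with h2 | h2
  · rw [h2, h1, if_pos rfl, map_zero, add_zero]
  · rw [h2, map_neg, h1, if_neg hne, if_pos rfl, hT, zero_add]
  · rw [h2, h1, if_neg hne, if_pos rfl, map_zero, add_zero]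
  · rw [h2, map_neg, h1, neg_neg, if_pos rfl, if_neg hne, hT, hTT]

/-- [TRX-D6] PROOF. As `kap_coc` (K4), with `TTS.ptH_T3`. -/
theorem kap3_coc [Algebra.IsAlgebraic K Ω] (hfix : ∀ σ : Ω ≃ₐ[K] Ω, (σ : Ω →+* Ω) δ = δ) {α : Ω} {z : K}
    (hα : algebraMap K Ω z = α ^ 2) : Coc K Ω hfix (kap3 hδ0 α) := by
  have hσ : ∀ σ : Ω ≃ₐ[K] Ω, σ α = α ∨ σ α = -α := by
    intro σ
    apply sq_eq_sq_iff_eq_or_eq_neg.1
    rw [← map_pow, ← hα, σ.commutes]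
  refine ⟨?_, fun σ τ => d6_cross hδ0 hfix hσ σ τ⟩
  rw [IsLocallyConstant.iff_exists_open]
  intro σ
  obtain ⟨U, hU, hσU, hU'⟩ := (IsLocallyConstant.iff_exists_open _).1
    (CM27.fin_loc_apply (F := K) α) σ
  refine ⟨U, hU, hσU, fun τ hτ => ?_⟩
  have h1 : τ α = σ α := hU' τ hτ
  unfold kap3
  rw [h1]

/-- [TRX-D6] **from `K(ρ)` to `K`.** Let `H` be the stabiliser of `ρ` in `G = Gal(Ω/K)` (`σ ρ = ± ρ`). PROOF. (a) `H = G`: `Q = Q₁ + Q₂` (`kap3_eq`). (b) some `τ` has `τ ρ = -ρ` and `τ β = β`: put `Q = Q₁ + τ Q₁`, `Y σ = kap3 β σ - (σ Q - Q)`, a crossed homomorphism (`kap3` is one, as in `kap3_coc`). For `σ ∈ H`: `σ τ Q₁ - τ Q₁ = τ (τ⁻¹ σ τ Q₁ - Q₁) = τ (kap β (τ⁻¹ σ τ))`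
`= kap hρ' β σ` (`τ⁻¹ σ τ β = β` iff `σ β = β`; `τ T1 = T2`: `ptH_T_neg`, `T1_neg`), so `Y σ = 0`; `Y τ = kap3 β τ - (τ τ Q₁ - Q₁) = 0 - kap β (τ τ) = 0` (`τ τ ∈ H` fixes `β`). For `σ ∉ H`: `σ = τ (τ⁻¹ σ)`, `τ⁻¹ σ ∈ H`: `Y σ = Y τ + τ Y (τ⁻¹ σ) = 0`. (c) otherwise every `σ ∉ H` has `σ β = -β`,
and with one `τ ∉ H` every `σ ∈ H` has `τ σ ∉ H`, so `τ σ β = -β = τ β` and `σ β = β`: `kap3 β σ = σ T1 - T1` with `T1 = T1 hδ0 hρ` (`σ T1 = T1` for `σ ∈ H`, `σ T1 = T2 = T1 + T3` for `σ ∉ H`). -/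
theorem loc_three (hfix : ∀ σ : Ω ≃ₐ[K] Ω, (σ : Ω →+* Ω) δ = δ) (hρ : ρ ^ 2 = -7) (hρ' : (-ρ) ^ 2 = -7)
    {β : Ω} (hβ0 : β ≠ 0) (hβ : ∀ σ : Ω ≃ₐ[K] Ω, σ β = β ∨ σ β = -β)
    (h1 : ∃ Q : (Ws δ).toAffine.Point, ∀ σ : Ω ≃ₐ[K] Ω, σ ρ = ρ → kap hδ0 hρ β σ = ptH (σ : Ω →+* Ω) (hfix σ) Q - Q)
    (h2 : ∃ Q : (Ws δ).toAffine.Point, ∀ σ : Ω ≃ₐ[K] Ω, σ ρ = ρ → kap hδ0 hρ' β σ = ptH (σ : Ω →+* Ω) (hfix σ) Q - Q) :
    ∃ Q : (Ws δ).toAffine.Point, ∀ σ : Ω ≃ₐ[K] Ω, kap3 hδ0 β σ = ptH (σ : Ω →+* Ω) (hfix σ) Q - Q := by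
  have hmul : ∀ (σ τ : Ω ≃ₐ[K] Ω) (P : (Ws δ).toAffine.Point),
      ptH ((σ * τ : Ω ≃ₐ[K] Ω) : Ω →+* Ω) (hfix (σ * τ)) P =
        ptH (σ : Ω →+* Ω) (hfix σ) (ptH (τ : Ω →+* Ω) (hfix τ) P) := by
    intro σ τ P
    exact (ptH_comp (τ : Ω →+* Ω) (σ : Ω →+* Ω) (hfix τ) (hfix σ) (hfix (σ * τ)) P).symm
  have hcongr : ∀ (σ σ' : Ω ≃ₐ[K] Ω) (_ : σ' = σ) (P : (Ws δ).toAffine.Point),
      ptH (σ' : Ω →+* Ω) (hfix σ') P = ptH (σ : Ω →+* Ω) (hfix σ) P := by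
    intro σ σ' h P
    subst h
    rfl
  have hsgn : ∀ σ : Ω ≃ₐ[K] Ω, σ ρ = ρ ∨ σ ρ = -ρ := by
    intro σ
    have h3 : σ ρ ^ 2 = ρ ^ 2 := by
      rw [← map_pow, hρ, map_neg, map_ofNat]
    exact sq_eq_sq_iff_eq_or_eq_neg.1 h3
  have hneg : -β ≠ β := by
    intro h
    apply hβ0
    have h7 : (2 : Ω) * β = 0 := by linear_combination -h
    exact (mul_eq_zero.1 h7).resolve_left two_ne_zero
  by_cases hcase : ∃ τ : Ω ≃ₐ[K] Ω, τ ρ = -ρ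
  swap
  · -- (a)
    obtain ⟨Q₁, hQ₁⟩ := h1
    obtain ⟨Q₂, hQ₂⟩ := h2
    refine ⟨Q₁ + Q₂, fun σ => ?_⟩
    have hσ : σ ρ = ρ := (hsgn σ).resolve_right (fun h => hcase ⟨σ, h⟩)
    rw [kap3_eq hδ0 hρ hρ', hQ₁ σ hσ, hQ₂ σ hσ, map_add, add_sub_add_comm]
  by_cases hb : ∃ τ : Ω ≃ₐ[K] Ω, τ ρ = -ρ ∧ τ β = β
  · -- (b)
    obtain ⟨τ, hτρ, hτβ⟩ := hb
    obtain ⟨Q₁, hQ₁⟩ := h1
    have hτi : τ⁻¹ ρ = -ρ := by
      apply τ.injective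
      rw [← AlgEquiv.mul_apply, mul_inv_cancel, AlgEquiv.one_apply, map_neg, hτρ, neg_neg]
    have hτi' : τ⁻¹ (-ρ) = ρ := by rw [map_neg, hτi, neg_neg]
    have hτiβ : τ⁻¹ β = β := by
      apply τ.injective
      rw [← AlgEquiv.mul_apply, mul_inv_cancel, AlgEquiv.one_apply, hτβ]
    -- the elements which fix `ρ`
    have hA : ∀ σ : Ω ≃ₐ[K] Ω, σ ρ = ρ → kap3 hδ0 β σ =
        ptH (σ : Ω →+* Ω) (hfix σ) (Q₁ + ptH (τ : Ω →+* Ω) (hfix τ) Q₁) -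
          (Q₁ + ptH (τ : Ω →+* Ω) (hfix τ) Q₁) := by
      intro σ hσ
      have h3 : (τ⁻¹ * (σ * τ)) ρ = ρ := by
        rw [AlgEquiv.mul_apply, AlgEquiv.mul_apply, hτρ, map_neg, hσ, hτi']
      have h4 : ptH (σ : Ω →+* Ω) (hfix σ) (ptH (τ : Ω →+* Ω) (hfix τ) Q₁) =
          ptH (τ : Ω →+* Ω) (hfix τ)
            (ptH ((τ⁻¹ * (σ * τ) : Ω ≃ₐ[K] Ω) : Ω →+* Ω) (hfix (τ⁻¹ * (σ * τ))) Q₁) := by
        rw [← hmul, ← hmul]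
        exact (hcongr _ _ (mul_inv_cancel_left τ (σ * τ)) Q₁).symm
      have h5 : ptH (τ : Ω →+* Ω) (hfix τ) (kap hδ0 hρ β (τ⁻¹ * (σ * τ))) = kap hδ0 hρ' β σ := by
        have h6 : (τ⁻¹ * (σ * τ)) β = β ↔ σ β = β := by
          rw [AlgEquiv.mul_apply, AlgEquiv.mul_apply, hτβ]
          constructor
          · intro h
            have h7 := congrArg τ h
            rw [← AlgEquiv.mul_apply, mul_inv_cancel, AlgEquiv.one_apply, hτβ] at h7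
            exact h7
          · intro h
            rw [h, hτiβ]
        unfold kap
        by_cases h : σ β = β
        · rw [if_pos h, if_pos (h6.2 h), map_zero]
        · rw [if_neg h, if_neg (fun h' => h (h6.1 h')), (T1_neg hδ0 hρ hρ').1]
          exact (ptH_T_neg hδ0 hρ (τ : Ω →+* Ω) (hfix τ) hδ0 hρ hτρ).1
      rw [kap3_eq hδ0 hρ hρ', hQ₁ σ hσ, ← h5, hQ₁ _ h3, map_sub, ← h4, map_add, add_sub_add_comm]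
    have hB : kap3 hδ0 β τ =
        ptH (τ : Ω →+* Ω) (hfix τ) (Q₁ + ptH (τ : Ω →+* Ω) (hfix τ) Q₁) -
          (Q₁ + ptH (τ : Ω →+* Ω) (hfix τ) Q₁) := by
      have h3 : (τ * τ) ρ = ρ := by
        rw [AlgEquiv.mul_apply, hτρ, map_neg, hτρ, neg_neg]
      have h4 : (τ * τ) β = β := by
        rw [AlgEquiv.mul_apply, hτβ, hτβ]
      have h5 := hQ₁ _ h3
      have h6 : kap hδ0 hρ β (τ * τ) = 0 := if_pos h4
      have h7 : kap3 hδ0 β τ = 0 := if_pos hτβ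
      rw [h6, hmul] at h5
      rw [h7, map_add, add_comm (ptH (τ : Ω →+* Ω) (hfix τ) Q₁), add_sub_add_right_eq_sub]
      exact h5
    refine ⟨Q₁ + ptH (τ : Ω →+* Ω) (hfix τ) Q₁, fun σ => ?_⟩
    rcases hsgn σ with hσ | hσ
    · exact hA σ hσ
    · have h3 : (τ⁻¹ * σ) ρ = ρ := by
        rw [AlgEquiv.mul_apply, hσ, hτi']
      have h4 := d6_cross hδ0 hfix hβ τ (τ⁻¹ * σ)
      rw [mul_inv_cancel_left, hA _ h3, hB, map_sub, ← hmul,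
        hcongr _ _ (mul_inv_cancel_left τ σ)] at h4
      rw [h4]
      abel
  · -- (c)
    obtain ⟨τ, hτ⟩ := hcase
    have hτβ : ∀ σ : Ω ≃ₐ[K] Ω, σ ρ = -ρ → σ β = -β := fun σ hσ =>
      (hβ σ).resolve_left (fun h => hb ⟨σ, hσ, h⟩)
    refine ⟨TTS.T1 hδ0 hρ, fun σ => ?_⟩
    rcases hsgn σ with hσ | hσ
    · have h3 : (τ * σ) ρ = -ρ := by rw [AlgEquiv.mul_apply, hσ, hτ]
      have h4 := hτβ _ h3
      rw [AlgEquiv.mul_apply, ← hτβ τ hτ] at h4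
      have h5 : σ β = β := τ.injective h4
      have h6 : kap3 hδ0 β σ = 0 := if_pos h5
      rw [h6, (ptH_T hδ0 hρ (σ : Ω →+* Ω) (hfix σ) hδ0 hρ hσ).1, sub_self]
    · have h5 : σ β ≠ β := by
        rw [hτβ σ hσ]
        exact hneg
      have h6 : kap3 hδ0 β σ = TTS.T3 hδ0 := if_neg h5
      rw [h6, (ptH_T_neg hδ0 hρ (σ : Ω →+* Ω) (hfix σ) hδ0 hρ hσ).1, eq_sub_iff_add_eq, add_comm]
      exact (T_add hδ0 hρ).2.1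

end

end TRX
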