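import Pool.Agent.TTS.S5
import Pool.Agent.TU.G0

set_option autoImplicit false

open NumberField Ideal IsDedekindDomain WeierstrassCurve.Affine
open scoped Classical

/-! # [TRX-D6i] infinite places -/

namespace TRX

open TR TU TTS

/-- the real case -/
theorem d6i_real {L : Type} [Field L] (e : L ≃+* ℝ) {ρ : AlgebraicClosure L} (hρ : ρ ^ 2 = -7)
    (τ : AlgebraicClosure L ≃ₐ[L] AlgebraicClosure L) (h : τ ρ = ρ) : τ = 1 := by
  let _ : Algebra L ℂ := ((algebraMap ℝ ℂ).comp (e : L →+* ℝ)).toAlgebra
  have f : AlgebraicClosure L →ₐ[L] ℂ := IsAlgClosed.lift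
  have hf : ∀ a : L, f (algebraMap L (AlgebraicClosure L) a) = ((e a : ℝ) : ℂ) :=
    fun a => f.commutes a
  have hz : (f ρ) ^ 2 = -7 := by rw [← map_pow, hρ, map_neg, map_ofNat]
  have him : (f ρ).im ≠ 0 := by
    intro h0
    have h1 : (f ρ) = (((f ρ).re : ℝ) : ℂ) := by
      apply Complex.ext
      · rw [Complex.ofReal_re]
      · rw [Complex.ofReal_im, h0]
    rw [h1] at hz
    have h2 : (((f ρ).re ^ 2 : ℝ) : ℂ) = ((-7 : ℝ) : ℂ) := by
      push_cast
      exact hz
    have h3 : (f ρ).re ^ 2 = -7 := Complex.ofReal_injective h2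
    nlinarith [sq_nonneg (f ρ).re]
  refine AlgEquiv.ext (fun x => ?_)
  rw [AlgEquiv.one_apply]
  have hx : x = algebraMap L (AlgebraicClosure L) (e.symm ((f x).re - (f x).im / (f ρ).im * (f ρ).re)) +
      algebraMap L (AlgebraicClosure L) (e.symm ((f x).im / (f ρ).im)) * ρ := by
    have hinj : Function.Injective f := (f : AlgebraicClosure L →+* ℂ).injective
    apply hinj
    rw [map_add, map_mul, hf, hf, e.apply_symm_apply, e.apply_symm_apply]
    apply Complex.ext
    · rw [Complex.add_re, Complex.ofReal_re, Complex.re_ofReal_mul]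
      ring
    · rw [Complex.add_im, Complex.ofReal_im, Complex.im_ofReal_mul, zero_add, div_mul_cancel₀ _ him]
  rw [hx, map_add, map_mul, τ.commutes, τ.commutes, h]

/-- the closed case -/
theorem d6i_closed {L : Type} [Field L] [IsAlgClosed L]
    (τ : AlgebraicClosure L ≃ₐ[L] AlgebraicClosure L) : τ = 1 := by
  refine AlgEquiv.ext (fun x => ?_)
  rw [AlgEquiv.one_apply]
  obtain ⟨y, rfl⟩ := (IsAlgClosed.algebraMap_bijective_of_isIntegral
    (k := L) (K := AlgebraicClosure L)).2 x
  exact τ.commutes y

/-- [TRX-D6i] an automorphism of the algebraic closure of a completion at an infinite place which fixes a square root of `-7` is the identity.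
PROOF. `v` complex: the completion is algebraically closed (`InfinitePlace.Completion.ringEquivComplexOfIsComplex`, `IsAlgClosed.of_ringEquiv`, see `TRB.closed_completion`, `TRB.locTriv_closed` in TRBX_S1.lean), `IsAlgClosed.algebraMap_bijective_of_isIntegral`. `v` real: `InfinitePlace.Completion.ringEquivRealOfIsReal`; with this `v.Completion`-algebra structure `ℂ` is an
algebraic closure of `v.Completion` (finite over `ℝ`, `IsAlgClosure`), `IsAlgClosure.equiv`: `τ` becomes an automorphism of `ℂ` which fixes `ℝ` and a `z` with `z² = -7`, `z = ± √7 i`, so it fixes `i` and is the identity. -/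
theorem inf_eq_one {F : Type} [Field F] (v : InfinitePlace F) {ρ : AlgebraicClosure v.Completion} (hρ : ρ ^ 2 = -7)
    (τ : AlgebraicClosure v.Completion ≃ₐ[v.Completion] AlgebraicClosure v.Completion) (h : τ ρ = ρ) : τ = 1 := by
  rcases v.isReal_or_isComplex with hv | hv
  · exact d6i_real (InfinitePlace.Completion.ringEquivRealOfIsReal hv) hρ τ h
  · have : IsAlgClosed v.Completion := IsAlgClosed.of_ringEquiv ℂ v.Completion
      (InfinitePlace.Completion.ringEquivComplexOfIsComplex hv).symm
    exact d6i_closed τ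

end TRX
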