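import Pool.Agent.TRX.D5
import Pool.Agent.TRX.D6
import Pool.Agent.TRX.D6i

set_option autoImplicit false

open NumberField Ideal IsDedekindDomain WeierstrassCurve.Affine
open scoped Classical

/-! # [TRX-D10] local triviality of the classes over `F` -/

namespace TRX

open TR TU TTS

/-- the value of the class does not depend on the field of definition of the embedding -/
theorem d10_kap {F Ω : Type} [Field F] [Field Ω] [CharZero Ω] [Algebra F Ω] {δ ρ γ : Ω} (hδ0 : δ ≠ 0) (hρ : ρ ^ 2 = -7)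
    {Fv Ωv : Type} [Field Fv] [Field Ωv] [CharZero Ωv] [Algebra Fv Ωv] [Algebra F Ωv]
    (ι : Ω →ₐ[F] Ωv) {dv ρv : Ωv} (h : (ι : Ω →+* Ωv) δ = dv) (hdv0 : dv ≠ 0) (hρv : ρv ^ 2 = -7)
    (hιρ : (ι : Ω →+* Ωv) ρ = ρv) (τ : Ωv ≃ₐ[Fv] Ωv) (σ : Ω ≃ₐ[F] Ω) (hστ : ∀ x, ι (σ x) = τ (ι x)) :
    kap hdv0 hρv (ι γ) τ = ptH (ι : Ω →+* Ωv) h (kap hδ0 hρ γ σ) := by
  have h1 : τ (ι γ) = ι γ ↔ σ γ = γ := by
    rw [← hστ]
    exact ι.injective.eq_iff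
  unfold kap
  by_cases h2 : σ γ = γ
  · rw [if_pos h2, if_pos (h1.2 h2), map_zero]
  · rw [if_neg h2, if_neg (fun h' => h2 (h1.1 h'))]
    exact ((ptH_T hδ0 hρ (ι : Ω →+* Ωv) h hdv0 hρv hιρ).1).symm

theorem d10_kap3 {F Ω : Type} [Field F] [Field Ω] [CharZero Ω] [Algebra F Ω] {δ γ : Ω} (hδ0 : δ ≠ 0)
    {Fv Ωv : Type} [Field Fv] [Field Ωv] [CharZero Ωv] [Algebra Fv Ωv] [Algebra F Ωv]
    (ι : Ω →ₐ[F] Ωv) {dv : Ωv} (h : (ι : Ω →+* Ωv) δ = dv) (hdv0 : dv ≠ 0)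
    (τ : Ωv ≃ₐ[Fv] Ωv) (σ : Ω ≃ₐ[F] Ω) (hστ : ∀ x, ι (σ x) = τ (ι x)) :
    kap3 hdv0 (ι γ) τ = ptH (ι : Ω →+* Ωv) h (kap3 hδ0 γ σ) := by
  have h1 : τ (ι γ) = ι γ ↔ σ γ = γ := by
    rw [← hστ]
    exact ι.injective.eq_iff
  unfold kap3
  by_cases h2 : σ γ = γ
  · rw [if_pos h2, if_pos (h1.2 h2), map_zero]
  · rw [if_neg h2, if_neg (fun h' => h2 (h1.1 h'))]
    exact (ptH_T3 hδ0 (ι : Ω →+* Ωv) h hdv0).symm

/-- [TRX-D10] **for one embedding.** PROOF. `dv ≠ 0`, `ρv = ι ρ`, `β = ι γ`. Every `τ ∈ Gal(Ωv/Fv)` has a restriction `σ` (`QTB.exists_res ι`). For such a pair `kap (ι γ) τ = ptH ι (kap γ σ)` (`τ (ι γ) = ι γ` iff `σ γ = γ`; `TTS.ptH_T`; for `-ρ` as well) and `kap3 (ι γ) τ = ptH ι (kap3 γ σ)` (`TTS.ptH_T3`); `τ ρv = ρv` iff `σ ρ = ρ`. `loc_three` (D6) over `Fv`. -/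
theorem kap3_loc_of {F Ω : Type} [Field F] [CharZero F] [Field Ω] [CharZero Ω] [Algebra F Ω] [IsAlgClosure F Ω] {δ ρ γ : Ω} (hδ0 : δ ≠ 0)
    (hρ : ρ ^ 2 = -7) (hρ' : (-ρ) ^ 2 = -7) {z : F} (hz0 : z ≠ 0) (hγ : algebraMap F Ω z = γ ^ 2)
    {Fv Ωv : Type} [Field Fv] [Algebra F Fv] [Field Ωv] [Algebra Fv Ωv] [Algebra F Ωv] [IsScalarTower F Fv Ωv]
    (ι : Ω →ₐ[F] Ωv) {dv : Ωv} (h : (ι : Ω →+* Ωv) δ = dv) (hfix : ∀ τ : Ωv ≃ₐ[Fv] Ωv, (τ : Ωv →+* Ωv) dv = dv)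
    (h1 : ∃ Q : (Ws dv).toAffine.Point, ∀ (τ : Ωv ≃ₐ[Fv] Ωv) (σ : Ω ≃ₐ[F] Ω), (∀ x, ι (σ x) = τ (ι x)) → σ ρ = ρ →
      ptH (ι : Ω →+* Ωv) h (kap hδ0 hρ γ σ) = ptH (τ : Ωv →+* Ωv) (hfix τ) Q - Q)
    (h2 : ∃ Q : (Ws dv).toAffine.Point, ∀ (τ : Ωv ≃ₐ[Fv] Ωv) (σ : Ω ≃ₐ[F] Ω), (∀ x, ι (σ x) = τ (ι x)) → σ ρ = ρ →
      ptH (ι : Ω →+* Ωv) h (kap hδ0 hρ' γ σ) = ptH (τ : Ωv →+* Ωv) (hfix τ) Q - Q) :
    ∃ Q : (Ws dv).toAffine.Point, ∀ (τ : Ωv ≃ₐ[Fv] Ωv) (σ : Ω ≃ₐ[F] Ω), (∀ x, ι (σ x) = τ (ι x)) →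
      ptH (ι : Ω →+* Ωv) h (kap3 hδ0 γ σ) = ptH (τ : Ωv →+* Ωv) (hfix τ) Q - Q := by
  have hΩv : CharZero Ωv := charZero_of_injective_algebraMap (algebraMap F Ωv).injective
  have hdv0 : dv ≠ 0 := by
    rw [← h]
    exact (map_ne_zero (ι : Ω →+* Ωv)).2 hδ0
  have hρv : (ι ρ) ^ 2 = -7 := by rw [← map_pow, hρ, map_neg, map_ofNat]
  have hρv' : (-(ι ρ)) ^ 2 = -7 := by rw [neg_sq]; exact hρv
  have hγ0 : γ ≠ 0 := by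
    rintro rfl
    apply hz0
    apply (algebraMap F Ω).injective
    rw [hγ, map_zero, zero_pow two_ne_zero]
  have hβ0 : ι γ ≠ 0 := (map_ne_zero (ι : Ω →+* Ωv)).2 hγ0
  have hβ : ∀ τ : Ωv ≃ₐ[Fv] Ωv, τ (ι γ) = ι γ ∨ τ (ι γ) = -(ι γ) := by
    intro τ
    apply sq_eq_sq_iff_eq_or_eq_neg.1
    rw [← map_pow, ← map_pow, ← hγ, ι.commutes, IsScalarTower.algebraMap_apply F Fv Ωv, τ.commutes]
  obtain ⟨r, hr, -⟩ := QTB.exists_res (Kv := Fv) ι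
  have hrρ : ∀ τ : Ωv ≃ₐ[Fv] Ωv, τ (ι ρ) = ι ρ → r τ ρ = ρ := by
    intro τ hτ
    exact ι.injective ((hr τ ρ).trans hτ)
  obtain ⟨Q, hQ⟩ := loc_three hdv0 hfix hρv hρv' hβ0 hβ
    (by
      obtain ⟨Q, hQ⟩ := h1
      refine ⟨Q, fun τ hτ => ?_⟩
      rw [d10_kap hδ0 hρ ι h hdv0 hρv rfl τ (r τ) (hr τ)]
      exact hQ τ (r τ) (hr τ) (hrρ τ hτ))
    (by
      obtain ⟨Q, hQ⟩ := h2
      refine ⟨Q, fun τ hτ => ?_⟩
      rw [d10_kap hδ0 hρ' ι h hdv0 hρv' (map_neg (ι : Ω →+* Ωv) ρ) τ (r τ) (hr τ)]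
      exact hQ τ (r τ) (hr τ) (hrρ τ hτ))
  refine ⟨Q, fun τ σ hστ => ?_⟩
  rw [← d10_kap3 hδ0 ι h hdv0 τ σ hστ]
  exact hQ τ

/-- [TRX-D10] the infinite places. PROOF. `kap3_loc_of`: for `τ` with `σ ρ = ρ`: `τ (ι ρ) = ι ρ`, so `τ = 1` (`inf_eq_one`, D6), `σ = 1`, the values are `0`; `Q = 0`. -/
theorem kap3_inf {F Ω : Type} [Field F] [CharZero F] [Field Ω] [CharZero Ω] [Algebra F Ω] [IsAlgClosure F Ω] {δ ρ γ : Ω} (hδ0 : δ ≠ 0)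
    (hρ : ρ ^ 2 = -7) (hρ' : (-ρ) ^ 2 = -7) {z : F} (hz0 : z ≠ 0) (hγ : algebraMap F Ω z = γ ^ 2) (v : InfinitePlace F) :
    LocTriv (kap3 (K := F) hδ0 γ) v.Completion (AlgebraicClosure v.Completion) := by
  intro ι dv h hfix
  have hρv : (ι ρ) ^ 2 = -7 := by rw [← map_pow, hρ, map_neg, map_ofNat]
  have key : ∀ (τ : AlgebraicClosure v.Completion ≃ₐ[v.Completion] AlgebraicClosure v.Completion)
      (σ : Ω ≃ₐ[F] Ω), (∀ x, ι (σ x) = τ (ι x)) → σ ρ = ρ → σ γ = γ := by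
    intro τ σ hστ hσρ
    have h1 : τ (ι ρ) = ι ρ := by rw [← hστ, hσρ]
    have h2 := inf_eq_one v hρv τ h1
    have h3 : τ (ι γ) = ι γ := by
      rw [h2]
      rfl
    exact ι.injective ((hστ γ).trans h3)
  refine kap3_loc_of hδ0 hρ hρ' hz0 hγ ι h hfix ⟨0, fun τ σ hστ hσρ => ?_⟩ ⟨0, fun τ σ hστ hσρ => ?_⟩
  · unfold kap
    rw [if_pos (key τ σ hστ hσρ), map_zero, map_zero, sub_zero]
  · unfold kap
    rw [if_pos (key τ σ hστ hσρ), map_zero, map_zero, sub_zero]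

section
variable {L M N F : Type} [Field L] [NumberField L] [Field M] [NumberField M] [Field N] [NumberField N] [Field F] [NumberField F]
  [Algebra L M] [Algebra M N] [Algebra L F] [Algebra F N] [IsTotallyReal L] (D : Dat L M) {d a : L}
  {V T U : Finset (HeightOneSpectrum (𝓞 L))} (Q : QS M N) (QF : QS F N)
  {Ω : Type} [Field Ω] [CharZero Ω] [Algebra M Ω] [Algebra N Ω] [Algebra F Ω] [IsScalarTower M N Ω] [IsScalarTower F N Ω]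
  [IsAlgClosure M Ω] [IsAlgClosure N Ω] [IsAlgClosure F Ω] {δ ρ : Ω}
include D

/-- [TRX-D10] the finite places. PROOF. `kap3_loc_of`. For `h1`: `low_loc` (B5l) for `QF` and `x = kap (M := N) hδ0 hρ γ` (`kap_star_locTriv`, D5), where `QTB.th QF Ω = algebraMap N Ω QF.s = ρ` and, for `σ : Ω ≃ₐ[F] Ω` with `σ ρ = ρ`, `low N x σ = kap (M := F) hδ0 hρ γ σ` (`QTB.exists_up`, `low_res`, the value of `kap` only depends on `σ γ`). `h2`: the same with `D.neg`. -/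
theorem kap3_locTriv (hd : SP L d V) (ha : SP L a T) (hQ : Q.e = algebraMap L M a)
    (hcomp : ∀ x : L, algebraMap F N (algebraMap L F x) = algebraMap M N (algebraMap L M x)) (hQF : QF.s = algebraMap M N D.r)
    (hδ : algebraMap M Ω (algebraMap L M d) = δ) (hδ0 : δ ≠ 0) (hρr : algebraMap M Ω D.r = ρ) (hρ : ρ ^ 2 = -7) (hρ' : (-ρ) ^ 2 = -7)
    (hU : U ⊆ T) (hpar : Even T.card → Even U.card) {c : L} (hc : Star U c)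
    {γ : Ω} (hγ : algebraMap M Ω (algebraMap L M c) = γ ^ 2) (v : HeightOneSpectrum (𝓞 F)) :
    LocTriv (kap3 (K := F) hδ0 γ) (v.adicCompletion F) (AlgebraicClosure (v.adicCompletion F)) := by
  intro ι dv h hfix
  have htow : ∀ x : L, algebraMap F Ω (algebraMap L F x) = algebraMap M Ω (algebraMap L M x) := by
    intro x
    rw [IsScalarTower.algebraMap_apply F N Ω, hcomp, ← IsScalarTower.algebraMap_apply M N Ω]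
  have hz0 : algebraMap L F c ≠ 0 := (map_ne_zero (algebraMap L F)).2 hc.ne
  have hγF : algebraMap F Ω (algebraMap L F c) = γ ^ 2 := by rw [htow, hγ]
  have hδF : algebraMap F Ω (algebraMap L F d) = δ := by rw [htow, hδ]
  have hth : QTB.th QF Ω = ρ := by
    show algebraMap N Ω QF.s = ρ
    rw [hQF, ← IsScalarTower.algebraMap_apply M N Ω, hρr]
  have hlow : ∀ {ρ' : Ω} (hρ'' : ρ' ^ 2 = -7) (σ : Ω ≃ₐ[F] Ω), σ ρ = ρ →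
      low N (kap (M := N) hδ0 hρ'' γ) σ = kap (M := F) hδ0 hρ'' γ σ := by
    intro ρ' hρ'' σ hσ
    obtain ⟨σN, hσN⟩ := QTB.exists_up QF σ (by rw [hth]; exact hσ)
    rw [low_res _ σN σ hσN]
    unfold kap
    rw [hσN]
  have hρr' : algebraMap M Ω D.neg.r = -ρ := by
    show algebraMap M Ω (-D.r) = -ρ
    rw [map_neg, hρr]
  refine kap3_loc_of hδ0 hρ hρ' hz0 hγF ι h hfix ?_ ?_
  · obtain ⟨Q1, hQ1⟩ := low_loc QF hδF (x := kap (M := N) hδ0 hρ γ)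
      (fun w => kap_star_locTriv D Q hd ha hQ hδ hδ0 hρr hρ hU hpar hc hγ w) v ι dv h hfix
    refine ⟨Q1, fun τ σ hστ hσρ => ?_⟩
    rw [← hlow hρ σ hσρ]
    exact hQ1 τ σ hστ (by rw [hth]; exact hσρ)
  · obtain ⟨Q1, hQ1⟩ := low_loc QF hδF (x := kap (M := N) hδ0 hρ' γ)
      (fun w => kap_star_locTriv D.neg Q hd ha hQ hδ hδ0 hρr' hρ' hU hpar hc hγ w) v ι dv h hfix
    refine ⟨Q1, fun τ σ hστ hσρ => ?_⟩
    rw [← hlow hρ' σ hσρ]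
    exact hQ1 τ σ hστ (by rw [hth]; exact hσρ)

end

end TRX
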