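import Pool.Agent.TTS.S9g

set_option autoImplicit false

open NumberField Ideal IsDedekindDomain WeierstrassCurve.Affine
open scoped Classical

/-! # [TRX-D11a] restriction of cocycles to a larger field -/

namespace TRX

open TR TU TTS

/-- [TRX-D11a] restriction to a larger field. PROOF. Continuity of `restrictScalars` (`TTS.s9g_continuous`). -/
theorem coc_restrict {F N Ω : Type} [Field F] [Field N] [Field Ω] [Algebra F N] [Algebra F Ω] [Algebra N Ω] [IsScalarTower F N Ω]
    [Algebra.IsAlgebraic N Ω] {δ : Ω} {hfix : ∀ σ : Ω ≃ₐ[F] Ω, (σ : Ω →+* Ω) δ = δ} (hfixN : ∀ σ : Ω ≃ₐ[N] Ω, (σ : Ω →+* Ω) δ = δ)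
    {c : (Ω ≃ₐ[F] Ω) → (Ws δ).toAffine.Point} (hc : Coc F Ω hfix c) : Coc N Ω hfixN (fun σ => c (σ.restrictScalars F)) := by
  refine ⟨hc.loc.comp_continuous (s9g_continuous F N Ω), ?_⟩
  intro σ τ
  exact hc.crossed (σ.restrictScalars F) (τ.restrictScalars F)

/-- [TRX-D11a] restriction to a larger field. PROOF. `TTS.loc_lift` exactly as in `TTS.sha_L` (TTS/S9g.lean). -/
theorem locTriv_restrict {F N Ω : Type} [Field F] [NumberField F] [Field N] [NumberField N] [Field Ω] [Algebra F N] [Algebra F Ω] [Algebra N Ω]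
    [IsScalarTower F N Ω] [IsAlgClosure F Ω] {d₀ : F} {δ : Ω} (hδ : algebraMap F Ω d₀ = δ)
    {c : (Ω ≃ₐ[F] Ω) → (Ws δ).toAffine.Point}
    (hloc : ∀ v : HeightOneSpectrum (𝓞 F), LocTriv c (v.adicCompletion F) (AlgebraicClosure (v.adicCompletion F)))
    (w : HeightOneSpectrum (𝓞 N)) :
    LocTriv (fun σ : Ω ≃ₐ[N] Ω => c (σ.restrictScalars F)) (w.adicCompletion N) (AlgebraicClosure (w.adicCompletion N)) := by
  intro ι dv hdv hfixv
  have hι' : ∀ x : F, (ι : Ω →+* AlgebraicClosure (w.adicCompletion N))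
      (algebraMap F Ω x) =
      algebraMap (w.adicCompletion N) (AlgebraicClosure (w.adicCompletion N))
        (algebraMap N (w.adicCompletion N) (algebraMap F N x)) := by
    intro x
    rw [IsScalarTower.algebraMap_apply F N Ω]
    change ι _ = _
    rw [ι.commutes]
    exact IsScalarTower.algebraMap_apply N (w.adicCompletion N)
      (AlgebraicClosure (w.adicCompletion N)) (algebraMap F N x)
  obtain ⟨Q, hQ⟩ := loc_lift d₀ hδ c hloc w
    (ι : Ω →+* AlgebraicClosure (w.adicCompletion N)) hι' dv hdv hfixv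
  exact ⟨Q, fun τ σ h => hQ τ (σ.restrictScalars F) h⟩

end TRX
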