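import Pool.Agent.TTS.S9a
import Pool.Agent.TTS.S9l
import Pool.Agent.TTS.T6
import Pool.Agent.TU.G0
import Pool.Agent.QTB.S9a

set_option autoImplicit false

open NumberField Ideal IsDedekindDomain WeierstrassCurve.Affine
open scoped Classical

/-! # [TRX-D7] descent of coboundaries from `N = F(√-7)` to `F`. Generalisation of `TTS.coboundary_descent` (TTS/S9l.lean, complete) -/

namespace TRX

open TR TU TTS

section
variable {F N : Type} [Field F] [NumberField F] [Field N] [NumberField N] [Algebra F N] (Q : QS F N)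
  {Ω : Type} [Field Ω] [Algebra F Ω] [Algebra N Ω] [IsScalarTower F N Ω]
include Q

theorem d7_lift (σ : Ω ≃ₐ[F] Ω) (h : σ (algebraMap N Ω Q.s) = algebraMap N Ω Q.s) :
    ∃ τ : Ω ≃ₐ[N] Ω, τ.restrictScalars F = σ := by
  refine ⟨AlgEquiv.ofRingEquiv (f := (σ : Ω ≃+* Ω)) ?_, ?_⟩
  · intro x
    obtain ⟨a, b, rfl⟩ := Q.gen x
    have h1 : ∀ y : F, algebraMap N Ω (algebraMap F N y) = algebraMap F Ω y := fun y =>
      (IsScalarTower.algebraMap_apply F N Ω y).symm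
    change σ (algebraMap N Ω (algebraMap F N a + algebraMap F N b * Q.s)) = _
    rw [map_add, map_mul, h1, h1, map_add, map_mul, σ.commutes, σ.commutes, h]
  · ext x
    rfl

theorem d7_conj [IsAlgClosure F Ω] [CharZero Ω] (hs : Q.s ^ 2 = -7) :
    ∃ κ : Ω ≃ₐ[F] Ω, κ (algebraMap N Ω Q.s) = -algebraMap N Ω Q.s := by
  have : IsAlgClosed Ω := IsAlgClosure.isAlgClosed F
  have : Algebra.IsAlgebraic F Ω := IsAlgClosure.isAlgebraic
  have : Normal F Ω := IsAlgClosure.normal F Ω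
  have : IsGalois F Ω := ⟨⟩
  by_contra hcon
  push Not at hcon
  have h1 : algebraMap N Ω Q.s ∈ Set.range (algebraMap F Ω) := by
    rw [InfiniteGalois.mem_range_algebraMap_iff_fixed]
    intro σ
    have h2 : σ (algebraMap N Ω Q.s) ^ 2 = algebraMap N Ω Q.s ^ 2 := by
      have h3 : algebraMap N Ω Q.s ^ 2 = -7 := by
        rw [← map_pow, hs, map_neg, map_ofNat]
      rw [← map_pow, h3, map_neg, map_ofNat]
    rcases sq_eq_sq_iff_eq_or_eq_neg.1 h2 with h4 | h4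
    · exact h4
    · exact absurd h4 (hcon σ)
  obtain ⟨y, hy⟩ := h1
  rw [IsScalarTower.algebraMap_apply F N Ω] at hy
  exact Q.ns y ((algebraMap N Ω).injective hy)

end

/-- [TRX-D7] PROOF. That of `TTS.coboundary_descent` with `L = F`, `M = N`, `D.r = Q.s`: `D.gen` is `Q.gen`, `D.r_not_mem` is `Q.ns`; `s9l_lift` (an automorphism over `F` which fixes `Q.s` is one over `N`: `QTB.exists_up`), `s9l_conj` (same proof), `s9l_fixed` (general), `exists_half` (general). -/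
theorem coboundary_descent {F N : Type} [Field F] [NumberField F] [Field N] [NumberField N] [Algebra F N] (Q : QS F N)
    (hs : Q.s ^ 2 = -7) {Ω : Type} [Field Ω] [Algebra F Ω] [Algebra N Ω] [IsScalarTower F N Ω] [IsAlgClosure F Ω] [CharZero Ω]
    {d₀ : F} {δ : Ω} (hδ : algebraMap F Ω d₀ = δ) (hδ0 : δ ≠ 0)
    (hfix : ∀ σ : Ω ≃ₐ[F] Ω, (σ : Ω →+* Ω) δ = δ) (hdN : algebraMap F N d₀ ≠ 0)
    [Finite (Ws (algebraMap F N d₀)).toAffine.Point]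
    (hT : ∀ R : (Ws (algebraMap F N d₀)).toAffine.Point, (2 : ℕ) • R ≠ T1 hdN hs ∧
      (2 : ℕ) • R ≠ T2 hdN hs ∧ (2 : ℕ) • R ≠ T3 hdN)
    (c : (Ω ≃ₐ[F] Ω) → (Ws δ).toAffine.Point) (hc : Coc F Ω hfix c)
    (P₀ : (Ws δ).toAffine.Point)
    (hP₀ : ∀ σ : Ω ≃ₐ[N] Ω, c (σ.restrictScalars F) =
      ptH (σ : Ω →+* Ω) (hfix (σ.restrictScalars F)) P₀ - P₀) :
    ∃ P : (Ws δ).toAffine.Point, ∀ σ : Ω ≃ₐ[F] Ω, c σ = ptH (σ : Ω →+* Ω) (hfix σ) P - P := by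
  have : IsAlgClosed Ω := IsAlgClosure.isAlgClosed F
  have : Algebra.IsAlgebraic F Ω := IsAlgClosure.isAlgebraic
  obtain ⟨κ, hκ⟩ := d7_conj (Ω := Ω) Q hs
  have hr : (algebraMap N Ω Q.s) ^ 2 = -7 := by rw [← map_pow, hs, map_neg, map_ofNat]
  set ρ : Ω := algebraMap N Ω Q.s with hρ
  obtain ⟨hT1, hT2, hT3, hT12, hT13, hT23⟩ := T_ne hδ0 hr
  have hsgn : ∀ σ : Ω ≃ₐ[F] Ω, σ ρ = ρ ∨ σ ρ = -ρ := by
    intro σ
    have h3 : σ ρ ^ 2 = ρ ^ 2 := by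
      rw [← map_pow, hr, map_neg, map_ofNat]
    exact sq_eq_sq_iff_eq_or_eq_neg.1 h3
  -- the action
  have hmul : ∀ (σ τ : Ω ≃ₐ[F] Ω) (P : (Ws δ).toAffine.Point),
      ptH ((σ * τ : Ω ≃ₐ[F] Ω) : Ω →+* Ω) (hfix (σ * τ)) P =
        ptH (σ : Ω →+* Ω) (hfix σ) (ptH (τ : Ω →+* Ω) (hfix τ) P) := by
    intro σ τ P
    exact (ptH_comp (τ : Ω →+* Ω) (σ : Ω →+* Ω) (hfix τ) (hfix σ) (hfix (σ * τ)) P).symm
  have hTf : ∀ σ : Ω ≃ₐ[F] Ω, σ ρ = ρ → ptH (σ : Ω →+* Ω) (hfix σ) (T1 hδ0 hr) = T1 hδ0 hr :=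
    fun σ hσ => (ptH_T hδ0 hr (σ : Ω →+* Ω) (hfix σ) hδ0 hr hσ).1
  have hswap : ∀ σ : Ω ≃ₐ[F] Ω, σ ρ = -ρ →
      ptH (σ : Ω →+* Ω) (hfix σ) (T1 hδ0 hr) = T2 hδ0 hr ∧
      ptH (σ : Ω →+* Ω) (hfix σ) (T2 hδ0 hr) = T1 hδ0 hr :=
    fun σ hσ => ptH_T_neg hδ0 hr (σ : Ω →+* Ω) (hfix σ) hδ0 hr hσ
  -- the modified cocycle
  obtain ⟨c', hc'⟩ : ∃ c' : (Ω ≃ₐ[F] Ω) → (Ws δ).toAffine.Point, ∀ σ, c' σ = c σ -
    (ptH (σ : Ω →+* Ω) (hfix σ) P₀ - P₀) := ⟨_, fun _ => rfl⟩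
  have hcr : ∀ σ τ : Ω ≃ₐ[F] Ω, c' (σ * τ) = c' σ + ptH (σ : Ω →+* Ω) (hfix σ) (c' τ) := by
    intro σ τ
    have h1 : c (σ * τ) = c σ + ptH (σ : Ω →+* Ω) (hfix σ) (c τ) := hc.crossed σ τ
    rw [hc', hc', hc', h1, hmul, map_sub, map_sub]
    abel
  have hA : ∀ σ : Ω ≃ₐ[F] Ω, σ ρ = ρ → c' σ = 0 := by
    intro σ hσ
    obtain ⟨τ, hτ⟩ := d7_lift Q σ hσ
    subst hτ
    rw [hc', hP₀ τ]
    exact sub_self _
  have hκi : κ⁻¹ ρ = -ρ := by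
    have h3 : κ (κ⁻¹ ρ) = κ (-ρ) := by
      rw [← AlgEquiv.mul_apply, mul_inv_cancel, AlgEquiv.one_apply, map_neg, hκ, neg_neg]
    exact κ.injective h3
  have hB : ∀ σ : Ω ≃ₐ[F] Ω, σ ρ = -ρ → c' σ = c' κ := by
    intro σ hσ
    have h3 : (κ⁻¹ * σ) ρ = ρ := by
      rw [AlgEquiv.mul_apply, hσ, map_neg, hκi, neg_neg]
    have h4 : c' σ = c' (κ * (κ⁻¹ * σ)) := by rw [mul_inv_cancel_left]
    rw [h4, hcr, hA _ h3, map_zero, add_zero]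
  have hQf : ∀ σ : Ω ≃ₐ[F] Ω, σ ρ = ρ → ptH (σ : Ω →+* Ω) (hfix σ) (c' κ) = c' κ := by
    intro σ hσ
    have h3 : (σ * κ) ρ = -ρ := by rw [AlgEquiv.mul_apply, hκ, map_neg, hσ]
    have h4 := hcr σ κ
    rw [hB _ h3, hA σ hσ, zero_add] at h4
    exact h4.symm
  have hκQ : ptH (κ : Ω →+* Ω) (hfix κ) (c' κ) = -c' κ := by
    have h3 : (κ * κ) ρ = ρ := by
      rw [AlgEquiv.mul_apply, hκ, map_neg, hκ, neg_neg]
    have h4 := hA _ h3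
    rw [hcr] at h4
    rw [eq_neg_iff_add_eq_zero, add_comm]
    exact h4
  -- descent to `M`
  have hdN' : (algebraMap N Ω) (algebraMap F N d₀) = δ := by
    rw [← hδ]
    exact (IsScalarTower.algebraMap_apply F N Ω d₀).symm
  have hτf : ∀ τ : Ω ≃ₐ[N] Ω, τ (xP (c' κ)) = xP (c' κ) ∧ τ (yP (c' κ)) = yP (c' κ) := by
    intro τ
    have h3 : (τ.restrictScalars F) ρ = ρ := τ.commutes _
    have h4 := hQf _ h3
    have h5 := xP_ptH ((τ.restrictScalars F : Ω ≃ₐ[F] Ω) : Ω →+* Ω) (hfix _) (c' κ)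
    rw [h4] at h5
    exact ⟨h5.1.symm, h5.2.symm⟩
  obtain ⟨Q₀, hQ₀⟩ := exists_ptH (algebraMap N Ω) hdN' hdN (c' κ)
    (s9l_fixed F _ fun τ => (hτf τ).1) (s9l_fixed F _ fun τ => (hτf τ).2)
  obtain ⟨T₀, k, hT₀, hk⟩ := exists_half (A := (Ws (algebraMap F N d₀)).toAffine.Point) (by
    intro R hR
    rcases (two_nsmul_eq_zero hdN hs _).1 hR with h | h | h | h
    · exact h
    · exact absurd h (hT R).1
    · exact absurd h (hT R).2.1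
    · exact absurd h (hT R).2.2) Q₀
  obtain ⟨T, hTdef⟩ : ∃ T, T = ptH (algebraMap N Ω) hdN' T₀ := ⟨_, rfl⟩
  have hT2' : (2 : ℕ) • T = 0 := by rw [hTdef, ← map_nsmul, hT₀, map_zero]
  have hQT : c' κ = T + (2 * k) • c' κ := by
    conv_lhs => rw [← hQ₀, hk]
    rw [map_add, map_zsmul, hQ₀, ← hTdef]
  have hTQ : T = c' κ - (2 * k) • c' κ := by
    rw [eq_sub_iff_add_eq]
    exact hQT.symm
  have hκT : ptH (κ : Ω →+* Ω) (hfix κ) T = T := by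
    have h5 : -T = T := by
      rw [neg_eq_iff_add_eq_zero, ← two_nsmul]
      exact hT2'
    have h6 : ptH (κ : Ω →+* Ω) (hfix κ) T = -T := by
      rw [hTQ, map_sub, map_zsmul, hκQ, smul_neg]
      abel
    rw [h6, h5]
  have hS1 : ∀ σ : Ω ≃ₐ[F] Ω, σ ρ = ρ →
      ptH (σ : Ω →+* Ω) (hfix σ) (-(k • c' κ)) - (-(k • c' κ)) = 0 := by
    intro σ hσ
    rw [map_neg, map_zsmul, hQf σ hσ, sub_self]
  have hS2 : ∀ σ : Ω ≃ₐ[F] Ω, σ ρ = -ρ →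
      ptH (σ : Ω →+* Ω) (hfix σ) (-(k • c' κ)) - (-(k • c' κ)) = (2 * k) • c' κ := by
    intro σ hσ
    have h3 : (κ⁻¹ * σ) ρ = ρ := by
      rw [AlgEquiv.mul_apply, hσ, map_neg, hκi, neg_neg]
    have h4 : ptH (σ : Ω →+* Ω) (hfix σ) (c' κ) = -c' κ := by
      have h5 := hmul κ (κ⁻¹ * σ) (c' κ)
      rw [hQf _ h3, hκQ] at h5
      have h6 : ∀ (σ' : Ω ≃ₐ[F] Ω) (h : σ' = σ), ptH (σ : Ω →+* Ω) (hfix σ) (c' κ) =
          ptH (σ' : Ω →+* Ω) (hfix σ') (c' κ) := by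
        intro σ' h
        subst h
        rfl
      rw [h6 _ (mul_inv_cancel_left κ σ)]
      exact h5
    rw [map_neg, map_zsmul, h4, smul_neg, neg_neg, sub_neg_eq_add, two_mul, add_smul]
  have hfour := (two_nsmul_eq_zero hδ0 hr T).1 hT2'
  have hT' : T = 0 ∨ T = T3 hδ0 := by
    rcases hfour with h | h | h | h
    · exact Or.inl h
    · exfalso
      rw [h, (hswap κ hκ).1] at hκT
      exact hT12 hκT.symm
    · exfalso
      rw [h, (hswap κ hκ).2] at hκT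
      exact hT12 hκT
    · exact Or.inr h
  have hcc : ∀ σ, c σ = c' σ + (ptH (σ : Ω →+* Ω) (hfix σ) P₀ - P₀) := by
    intro σ
    rw [hc', sub_add_cancel]
  rcases hT' with h | h
  · refine ⟨P₀ + -(k • c' κ), fun σ => ?_⟩
    rw [map_add, add_sub_add_comm, hcc σ]
    rcases hsgn σ with h3 | h3
    · rw [hA σ h3, hS1 σ h3, zero_add, add_zero]
    · rw [hB σ h3, hS2 σ h3, add_comm (ptH (σ : Ω →+* Ω) (hfix σ) P₀ - P₀)]
      congr 1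
      rw [h, zero_add] at hQT
      exact hQT
  · refine ⟨P₀ + -(k • c' κ) + T1 hδ0 hr, fun σ => ?_⟩
    rw [map_add, map_add, add_sub_add_comm, add_sub_add_comm, hcc σ]
    rcases hsgn σ with h3 | h3
    · rw [hA σ h3, hS1 σ h3, zero_add, add_zero, hTf σ h3, sub_self, add_zero]
    · have h7 : T2 hδ0 hr - T1 hδ0 hr = T3 hδ0 := by
        rw [sub_eq_iff_eq_add, add_comm]
        exact (T_add hδ0 hr).2.1.symm
      rw [hB σ h3, hS2 σ h3, (hswap σ h3).1, h7, add_assoc,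
        add_comm (ptH (σ : Ω →+* Ω) (hfix σ) P₀ - P₀)]
      congr 1
      rw [add_comm, ← h]
      exact hQT

end TRX
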