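import Pool.Agent.TRX.D5
import Pool.Agent.TRX.D6
import Pool.Agent.TRX.D7
import Pool.Agent.TRX.D11a

set_option autoImplicit false

open NumberField Ideal IsDedekindDomain WeierstrassCurve.Affine
open scoped Classical

/-! # [TRX-D11] the classes over `F`, `F(√-7) = N = M(√a)` -/

namespace TRX

open TR TU TTS

theorem d11_F {L M N F Ω : Type} [Field L] [Field M] [Field N] [Field F] [Field Ω] [Algebra L M] [Algebra M N]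
    [Algebra L F] [Algebra F N] [Algebra M Ω] [Algebra N Ω] [Algebra F Ω] [IsScalarTower M N Ω] [IsScalarTower F N Ω]
    (hcomp : ∀ x : L, algebraMap F N (algebraMap L F x) = algebraMap M N (algebraMap L M x)) (x : L) :
    algebraMap F Ω (algebraMap L F x) = algebraMap M Ω (algebraMap L M x) := by
  rw [IsScalarTower.algebraMap_apply F N Ω, hcomp, ← IsScalarTower.algebraMap_apply M N Ω]

theorem d11_pm {K Ω : Type} [Field K] [Field Ω] [Algebra K Ω] {z : K} {γ : Ω} (h : algebraMap K Ω z = γ ^ 2)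
    (κ : Ω ≃ₐ[K] Ω) : κ γ = γ ∨ κ γ = -γ := by
  apply sq_eq_sq_iff_eq_or_eq_neg.1
  rw [← map_pow, ← h, κ.commutes]

/-- the conjugate of the class -/
theorem d11_kap {F N Ω : Type} [Field F] [Field N] [Field Ω] [CharZero Ω] [Algebra F Ω] [Algebra N Ω] {δ ρ₁ ρ₂ : Ω}
    {hδ0 : δ ≠ 0} {h₁ : ρ₁ ^ 2 = -7} {h₂ : ρ₂ ^ 2 = -7} (hfix : ∀ σ : Ω ≃ₐ[F] Ω, (σ : Ω →+* Ω) δ = δ) {κ : Ω ≃ₐ[F] Ω}
    (hT : ptH (κ : Ω →+* Ω) (hfix κ) (TTS.T1 hδ0 h₁) = TTS.T1 hδ0 h₂) {γ : Ω} (hγ : κ γ = γ ∨ κ γ = -γ)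
    {σ h : Ω ≃ₐ[N] Ω} (hσ : ∀ y : Ω, κ (σ y) = h (κ y)) :
    ptH (κ : Ω →+* Ω) (hfix κ) (kap hδ0 h₁ γ σ) = kap hδ0 h₂ γ h := by
  have h1 : σ γ = γ ↔ h γ = γ := by
    have h2 := hσ γ
    rcases hγ with h3 | h3
    · rw [h3] at h2
      constructor
      · intro h4
        rw [← h2, h4, h3]
      · intro h4
        apply κ.injective
        rw [h2, h4, h3]
    · rw [h3, map_neg] at h2
      constructor
      · intro h4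
        rw [h4, h3] at h2
        exact (neg_injective h2).symm
      · intro h4
        apply κ.injective
        rw [h2, h4, h3]
  unfold kap
  by_cases h2 : h γ = γ
  · rw [if_pos (h1.2 h2), if_pos h2, map_zero]
  · rw [if_neg (fun h3 => h2 (h1.1 h3)), if_neg h2, hT]

section
variable {L M N F : Type} [Field L] [NumberField L] [Field M] [NumberField M] [Field N] [NumberField N] [Field F] [NumberField F]
  [Algebra L M] [Algebra M N] [Algebra L F] [Algebra F N] [IsTotallyReal L] (D : Dat L M) {d a : L}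
  {V T : Finset (HeightOneSpectrum (𝓞 L))} (Q : QS M N) (QF : QS F N)
  {Ω : Type} [Field Ω] [CharZero Ω] [Algebra M Ω] [Algebra N Ω] [Algebra F Ω] [IsScalarTower M N Ω] [IsScalarTower F N Ω]
  [IsAlgClosure M Ω] [IsAlgClosure N Ω] [IsAlgClosure F Ω] {δ : Ω}
include D

/-- a cocycle over `F` which vanishes over `N` is a coboundary -/
theorem d11_descent (hd : SP L d V) (ha : SP L a T) (hQ : Q.e = algebraMap L M a)
    (hcomp : ∀ x : L, algebraMap F N (algebraMap L F x) = algebraMap M N (algebraMap L M x)) (hQF : QF.s = algebraMap M N D.r)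
    (hδ : algebraMap M Ω (algebraMap L M d) = δ) (hδ0 : δ ≠ 0)
    (hfix : ∀ σ : Ω ≃ₐ[F] Ω, (σ : Ω →+* Ω) δ = δ)
    (c : (Ω ≃ₐ[F] Ω) → (Ws δ).toAffine.Point) (hc : Coc F Ω hfix c)
    (h0 : ∀ σ : Ω ≃ₐ[N] Ω, c (σ.restrictScalars F) = 0) :
    ∃ P : (Ws δ).toAffine.Point, ∀ σ : Ω ≃ₐ[F] Ω, c σ = ptH (σ : Ω →+* Ω) (hfix σ) P - P := by
  have hdM : algebraMap L M d ≠ 0 := (map_ne_zero _).2 hd.ne
  have hδF : algebraMap F Ω (algebraMap L F d) = δ := by rw [d11_F hcomp, hδ]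
  have hs : QF.s ^ 2 = -7 := by
    rw [hQF, ← map_pow, D.hr, map_neg, map_ofNat]
  have hdN : algebraMap F N (algebraMap L F d) ≠ 0 := by
    rw [hcomp]
    exact (map_ne_zero _).2 hdM
  obtain ⟨n1, n2⟩ := dr_not_sq_N D Q hd ha hQ
  have hfin : Finite (Ws (algebraMap F N (algebraMap L F d))).toAffine.Point := by
    rw [hcomp]
    refine finite_N Q hdM D.hr (fin_M D hd) ?_
    rw [hQ]
    exact fin_M_mul D hd ha
  rw [map_mul, ← hcomp, ← hQF] at n1 n2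
  exact coboundary_descent QF hs hδF hδ0 hfix hdN (fun R => not_half hdN hs n1 n2 R) c hc 0 (fun σ => by
    rw [h0, map_zero, sub_zero])

end

section
variable {L M N F : Type} [Field L] [NumberField L] [Field M] [NumberField M] [Field N] [NumberField N] [Field F] [NumberField F]
  [Algebra L M] [Algebra M N] [Algebra L F] [Algebra F N] [IsTotallyReal L] (D : Dat L M) {d a : L}
  {V T U : Finset (HeightOneSpectrum (𝓞 L))} (Q : QS M N) (QF : QS F N)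
  {Ω : Type} [Field Ω] [CharZero Ω] [Algebra M Ω] [Algebra N Ω] [Algebra F Ω] [IsScalarTower M N Ω] [IsScalarTower F N Ω]
  [IsAlgClosure M Ω] [IsAlgClosure N Ω] [IsAlgClosure F Ω] {δ ρ : Ω}
include D

/-- [TRX-D11] **every locally trivial cocycle over `F` of `2`-power order is the class of some `c`.** PROOF. `x σ = c (σ.restrictScalars F)` for `σ ∈ Gal(Ω/N)`: `coc_restrict`, `locTriv_restrict`; `exists_stars` (D5): `x = kap γ + kap' γ' + ∂ R₀`. Put `c₁ = c - ∂ R₀` (`Coc.sub`), `c₁ = kap γ + kap' γ'` on `Gal(Ω/N)`.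
Let `κ ∈ Gal(Ω/F)` with `κ ρ = -ρ` (as `s9l_conj`; `QF.ns`). For `τ ∈ Gal(Ω/N)`: `κ c₁(κ⁻¹ τ κ) = c₁ τ + τ c₁ κ - c₁ κ` (crossed; `c₁ (κ (κ⁻¹ τ κ)) = c₁ (τ κ)`). The left side is `κ (kap γ (κ⁻¹ τ κ) + kap' γ' (κ⁻¹ τ κ)) = kap' γ τ + kap γ' τ` (`κ γ = ± γ`; `κ T1 = T2`: `ptH_T_neg`). So
`kap γ + kap γ' + kap' γ + kap' γ' = ∂ (c₁ κ)` on `Gal(Ω/N)` (signs do not matter, `two_kap`), that is `kap (γ γ') + kap' (γ γ') = ∂ (c₁ κ)` (`kap_mul`, D1): `symmDiff_of_coboundary`: `symmDiff U U' ∈ {∅, T}`, `kap_of_symmDiff` for `-ρ`: `kap' γ' = kap' γ` on `Gal(Ω/N)`. So `c₁ = kap3 γ` there (`kap3_eq`).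
`c₂ = c₁ - kap3 γ` is a cocycle over `F` (`kap3_coc`, `coc_nsmul`, `coc_add`) and `0` on `Gal(Ω/N)`: `coboundary_descent` (D7; `finite_N`, `TTS.not_half` with `dr_not_sq_N`). -/
theorem exists_star_F (hd : SP L d V) (ha : SP L a T) (hQ : Q.e = algebraMap L M a)
    (hcomp : ∀ x : L, algebraMap F N (algebraMap L F x) = algebraMap M N (algebraMap L M x)) (hQF : QF.s = algebraMap M N D.r)
    (hδ : algebraMap M Ω (algebraMap L M d) = δ) (hδ0 : δ ≠ 0) (hρr : algebraMap M Ω D.r = ρ) (hρ : ρ ^ 2 = -7) (hρ' : (-ρ) ^ 2 = -7)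
    (hfix : ∀ σ : Ω ≃ₐ[F] Ω, (σ : Ω →+* Ω) δ = δ)
    (c : (Ω ≃ₐ[F] Ω) → (Ws δ).toAffine.Point) (hc : Coc F Ω hfix c)
    (hloc : ∀ v : HeightOneSpectrum (𝓞 F),
      LocTriv c (v.adicCompletion F) (AlgebraicClosure (v.adicCompletion F))) (k : ℕ)
    (htors : ∃ P : (Ws δ).toAffine.Point, ∀ σ : Ω ≃ₐ[F] Ω,
      2 ^ k • c σ = ptH (σ : Ω →+* Ω) (hfix σ) P - P) :
    ∃ U ⊆ T, (Even T.card → Even U.card) ∧ ∃ c₀ : L, Star U c₀ ∧ ∃ (γ : Ω) (R : (Ws δ).toAffine.Point),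
        algebraMap M Ω (algebraMap L M c₀) = γ ^ 2 ∧
        ∀ σ : Ω ≃ₐ[F] Ω, c σ = kap3 hδ0 γ σ + (ptH (σ : Ω →+* Ω) (hfix σ) R - R) := by
  have hcl : IsAlgClosed Ω := IsAlgClosure.isAlgClosed M
  have halgF : Algebra.IsAlgebraic F Ω := IsAlgClosure.isAlgebraic
  have halgN : Algebra.IsAlgebraic N Ω := IsAlgClosure.isAlgebraic
  have hF : ∀ x : L, algebraMap F Ω (algebraMap L F x) = algebraMap M Ω (algebraMap L M x) := d11_F hcomp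
  have hδF : algebraMap F Ω (algebraMap L F d) = δ := by rw [hF, hδ]
  have hfixN : ∀ σ : Ω ≃ₐ[N] Ω, (σ : Ω →+* Ω) δ = δ := fun σ => hfix (σ.restrictScalars F)
  have hrs : ∀ (σ : Ω ≃ₐ[N] Ω) (P : (Ws δ).toAffine.Point),
      ptH ((σ.restrictScalars F : Ω ≃ₐ[F] Ω) : Ω →+* Ω) (hfix _) P = ptH (σ : Ω →+* Ω) (hfixN σ) P :=
    fun σ P => s9a_congr (RingHom.ext fun _ => rfl) _ _ P
  obtain ⟨P₀, hP₀⟩ := htors
  obtain ⟨U, hU, U', hU', hUp, -, c₀, c₀', hc₀, hc₀', γ, γ', R₀, hγ, hγ', hx⟩ :=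
    exists_stars D Q hd ha hQ hδ hδ0 hρr hρ hρ' hfixN (fun σ => c (σ.restrictScalars F))
      (coc_restrict hfixN hc) (fun w => locTriv_restrict hδF hloc w) k ⟨P₀, fun σ => by
        have e := hP₀ (σ.restrictScalars F)
        rw [hrs] at e
        exact e⟩
  -- subtract the coboundary
  have hc1 : Coc F Ω hfix (fun σ => c σ - (ptH (σ : Ω →+* Ω) (hfix σ) R₀ - R₀)) := Coc.sub hfix hc R₀
  obtain ⟨c₁, hc₁⟩ : ∃ c₁ : (Ω ≃ₐ[F] Ω) → (Ws δ).toAffine.Point,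
    c₁ = fun σ => c σ - (ptH (σ : Ω →+* Ω) (hfix σ) R₀ - R₀) := ⟨_, rfl⟩
  rw [← hc₁] at hc1
  have hcr : ∀ σ τ : Ω ≃ₐ[F] Ω, c₁ (σ * τ) = c₁ σ + ptH (σ : Ω →+* Ω) (hfix σ) (c₁ τ) := fun σ τ => by
    rw [ptH_apply]
    exact hc1.crossed σ τ
  have hx1 : ∀ σ : Ω ≃ₐ[N] Ω, c₁ (σ.restrictScalars F) = kap hδ0 hρ γ σ + kap hδ0 hρ' γ' σ := by
    intro σ
    have e := hx σ
    change c (σ.restrictScalars F) = _ at e
    rw [hc₁]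
    change c (σ.restrictScalars F) - (ptH ((σ.restrictScalars F : Ω ≃ₐ[F] Ω) : Ω →+* Ω) (hfix _) R₀ - R₀) = _
    rw [hrs, e, add_sub_cancel_right]
  -- the conjugation
  have hns : ¬ IsSquare (-7 : F) := by
    rintro ⟨b, hb⟩
    have h1 : (algebraMap F N b) ^ 2 = QF.s ^ 2 := by
      have h2 : QF.s ^ 2 = -7 := by rw [hQF, ← map_pow, D.hr, map_neg, map_ofNat]
      have h3 : (algebraMap F N b) ^ 2 = algebraMap F N (-7) := by rw [← map_pow, sq, ← hb]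
      rw [h2, h3, map_neg, map_ofNat]
    rcases sq_eq_sq_iff_eq_or_eq_neg.1 h1 with h | h
    · exact QF.ns b h
    · apply QF.ns (-b)
      rw [map_neg, h, neg_neg]
  have hρF : ρ ^ 2 = algebraMap F Ω (-7) := by
    rw [hρ, map_neg, map_ofNat]
  obtain ⟨κ, hκ⟩ := QTB.exists_tau hns hρF
  have hκρ : κ ρ = -ρ := by
    have h1 : (κ ρ) ^ 2 = ρ ^ 2 := by
      rw [← map_pow, hρF, κ.commutes]
    exact (sq_eq_sq_iff_eq_or_eq_neg.1 h1).resolve_left hκ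
  have hρ0 : ρ ≠ 0 := by
    rintro rfl
    rw [zero_pow two_ne_zero] at hρ
    norm_num at hρ
  have hθ : QTB.th QF Ω = ρ := by
    change algebraMap N Ω QF.s = ρ
    rw [hQF, ← IsScalarTower.algebraMap_apply, hρr]
  have hγF : algebraMap F Ω (algebraMap L F c₀) = γ ^ 2 := by rw [hF, hγ]
  have hγF' : algebraMap F Ω (algebraMap L F c₀') = γ' ^ 2 := by rw [hF, hγ']
  have hκγ : κ γ = γ ∨ κ γ = -γ := d11_pm hγF κ
  have hκγ' : κ γ' = γ' ∨ κ γ' = -γ' := d11_pm hγF' κ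
  obtain ⟨t1, -⟩ := T1_neg hδ0 hρ hρ'
  have hT := ptH_T_neg hδ0 hρ (κ : Ω →+* Ω) (hfix κ) hδ0 (r' := ρ) hρ (by exact hκρ)
  have hT1 : ptH (κ : Ω →+* Ω) (hfix κ) (TTS.T1 hδ0 hρ) = TTS.T1 hδ0 hρ' := by rw [hT.1, t1]
  have hT2 : ptH (κ : Ω →+* Ω) (hfix κ) (TTS.T1 hδ0 hρ') = TTS.T1 hδ0 hρ := by rw [t1, hT.2]
  have hγ0 : γ ≠ 0 := d5_ne ((map_ne_zero _).2 hc₀.ne) hγ
  have hγ0' : γ' ≠ 0 := d5_ne ((map_ne_zero _).2 hc₀'.ne) hγ'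
  have hγN : algebraMap N Ω (algebraMap M N (algebraMap L M c₀)) = γ ^ 2 := by
    rw [← IsScalarTower.algebraMap_apply, hγ]
  have hγN' : algebraMap N Ω (algebraMap M N (algebraMap L M c₀')) = γ' ^ 2 := by
    rw [← IsScalarTower.algebraMap_apply, hγ']
  have hcob : ∀ h : Ω ≃ₐ[N] Ω, kap hδ0 hρ (γ * γ') h + kap hδ0 hρ' (γ * γ') h =
      ptH (h : Ω →+* Ω) (hfixN h) (c₁ κ) - c₁ κ := by
    intro h
    have hhρ : h ρ = ρ := by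
      rw [← hθ]
      exact h.commutes QF.s
    obtain ⟨σ', hσ'⟩ := QTB.exists_up (L := Ω) QF (κ⁻¹ * h.restrictScalars F * κ) (by
      rw [hθ]
      change κ⁻¹ (h (κ ρ)) = ρ
      rw [hκρ, map_neg, hhρ, ← hκρ]
      exact κ.symm_apply_apply ρ)
    have hκσ : ∀ y : Ω, κ (σ' y) = h (κ y) := by
      intro y
      rw [← hσ' y]
      change κ (κ⁻¹ (h (κ y))) = h (κ y)
      exact κ.apply_symm_apply _
    have e1 : σ'.restrictScalars F = κ⁻¹ * h.restrictScalars F * κ := by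
      ext y
      exact (hσ' y).symm
    have e2 := hx1 σ'
    rw [e1] at e2
    have e3 := hcr κ (κ⁻¹ * h.restrictScalars F * κ)
    have e4 : κ * (κ⁻¹ * h.restrictScalars F * κ) = h.restrictScalars F * κ := by
      rw [mul_assoc, mul_inv_cancel_left]
    rw [e4, hcr, e2, map_add, hx1, hrs] at e3
    have e5 : ptH (κ : Ω →+* Ω) (hfix κ) (kap hδ0 hρ γ σ') = kap hδ0 hρ' γ h :=
      d11_kap hfix hT1 hκγ hκσ
    have e6 : ptH (κ : Ω →+* Ω) (hfix κ) (kap hδ0 hρ' γ' σ') = kap hδ0 hρ γ' h :=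
      d11_kap hfix hT2 hκγ' hκσ
    rw [e5, e6] at e3
    rw [kap_mul hρ hδ0 hγN hγN' hγ0 hγ0' h, kap_mul hρ' hδ0 hγN hγN' hγ0 hγ0' h]
    have f1 := two_kap hδ0 hρ γ h
    have f2 := two_kap hδ0 hρ' γ' h
    rw [two_nsmul] at f1 f2
    have e7 : ptH (h : Ω →+* Ω) (hfixN h) (c₁ κ) - c₁ κ =
        kap hδ0 hρ' γ h + kap hδ0 hρ γ' h - (kap hδ0 hρ γ h + kap hδ0 hρ' γ' h) := by
      rw [sub_eq_sub_iff_add_eq_add, add_comm (ptH _ _ _), e3]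
      abel
    rw [e7]
    have f3 : -kap hδ0 hρ γ h = kap hδ0 hρ γ h := (eq_neg_of_add_eq_zero_left f1).symm
    have f4 : -kap hδ0 hρ' γ' h = kap hδ0 hρ' γ' h := (eq_neg_of_add_eq_zero_left f2).symm
    rw [sub_eq_add_neg, neg_add, f3, f4]
    abel
  have hγγ : algebraMap M Ω (algebraMap L M (c₀ * c₀')) = (γ * γ') ^ 2 := by
    rw [map_mul, map_mul, hγ, hγ']
    ring
  obtain ⟨hs, -⟩ := symmDiff_of_coboundary D Q hd ha hQ hδ hδ0 hρr hρ hρ' hfixN hU hU' hU hU' hc₀ hc₀' hc₀ hc₀'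
    hγγ hγγ (R := c₁ κ) hcob
  have hx2 : ∀ σ : Ω ≃ₐ[N] Ω, c₁ (σ.restrictScalars F) = kap3 hδ0 γ (σ.restrictScalars F) := by
    intro σ
    have e1 : kap3 hδ0 γ (σ.restrictScalars F) = kap3 (K := N) hδ0 γ σ := rfl
    rw [hx1, e1, kap3_eq hδ0 hρ hρ', ← kap_of_symmDiff D Q ha hQ hδ0 hρ' hU hU' hc₀ hc₀' hs hγ hγ' σ]
  -- the difference
  have hk3 : Coc F Ω hfix (kap3 hδ0 γ) := kap3_coc hδ0 hfix hγF
  have hsum := coc_add hc1 hk3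
  obtain ⟨P, hP⟩ := d11_descent D Q QF hd ha hQ hcomp hQF hδ hδ0 hfix _ hsum (fun σ => by
    change c₁ (σ.restrictScalars F) + kap3 hδ0 γ (σ.restrictScalars F) = 0
    rw [hx2, ← two_nsmul, two_kap3])
  refine ⟨U, hU, hUp, c₀, hc₀, γ, P + R₀, hγ, fun σ => ?_⟩
  have e1 := hP σ
  change c₁ σ + kap3 hδ0 γ σ = _ at e1
  have e2 : c₁ σ = c σ - (ptH (σ : Ω →+* Ω) (hfix σ) R₀ - R₀) := by rw [hc₁]
  have e3 := two_kap3 hδ0 γ σ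
  rw [two_nsmul] at e3
  have e4 : -kap3 hδ0 γ σ = kap3 hδ0 γ σ := (eq_neg_of_add_eq_zero_left e3).symm
  have e5 : c₁ σ = ptH (σ : Ω →+* Ω) (hfix σ) P - P + kap3 hδ0 γ σ := by
    rw [← e1, add_assoc, e3, add_zero]
  have e6 : c σ = c₁ σ + (ptH (σ : Ω →+* Ω) (hfix σ) R₀ - R₀) := by
    rw [e2]
    abel
  rw [e6, e5, map_add]
  abel

/-- [TRX-D11] **the kernel over `F`.** PROOF. Restrict to `Gal(Ω/N)`: `kap3 γ₁ - kap3 γ₂ = kap (γ₁ γ₂) + kap' (γ₁ γ₂)` (`kap3_eq`, `kap_mul`, `two_kap`), `symmDiff_of_coboundary` (D5). -/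
theorem symmDiff_of_coboundary_F (hd : SP L d V) (ha : SP L a T) (hQ : Q.e = algebraMap L M a)
    (hδ : algebraMap M Ω (algebraMap L M d) = δ) (hδ0 : δ ≠ 0) (hρr : algebraMap M Ω D.r = ρ) (hρ : ρ ^ 2 = -7) (hρ' : (-ρ) ^ 2 = -7)
    (hfix : ∀ σ : Ω ≃ₐ[F] Ω, (σ : Ω →+* Ω) δ = δ)
    {U₁ U₂ : Finset (HeightOneSpectrum (𝓞 L))} (hU₁ : U₁ ⊆ T) (hU₂ : U₂ ⊆ T) {c₁ c₂ : L} (hc₁ : Star U₁ c₁) (hc₂ : Star U₂ c₂)
    {γ₁ γ₂ : Ω} (hγ₁ : algebraMap M Ω (algebraMap L M c₁) = γ₁ ^ 2) (hγ₂ : algebraMap M Ω (algebraMap L M c₂) = γ₂ ^ 2)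
    {R : (Ws δ).toAffine.Point}
    (h : ∀ σ : Ω ≃ₐ[F] Ω, kap3 hδ0 γ₁ σ = kap3 hδ0 γ₂ σ + (ptH (σ : Ω →+* Ω) (hfix σ) R - R)) :
    symmDiff U₁ U₂ = ∅ ∨ symmDiff U₁ U₂ = T := by
  have hfixN : ∀ σ : Ω ≃ₐ[N] Ω, (σ : Ω →+* Ω) δ = δ := fun σ => hfix (σ.restrictScalars F)
  have hγ0₁ : γ₁ ≠ 0 := d5_ne ((map_ne_zero _).2 hc₁.ne) hγ₁
  have hγ0₂ : γ₂ ≠ 0 := d5_ne ((map_ne_zero _).2 hc₂.ne) hγ₂
  have hγN₁ : algebraMap N Ω (algebraMap M N (algebraMap L M c₁)) = γ₁ ^ 2 := by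
    rw [← IsScalarTower.algebraMap_apply, hγ₁]
  have hγN₂ : algebraMap N Ω (algebraMap M N (algebraMap L M c₂)) = γ₂ ^ 2 := by
    rw [← IsScalarTower.algebraMap_apply, hγ₂]
  have hγγ : algebraMap M Ω (algebraMap L M (c₁ * c₂)) = (γ₁ * γ₂) ^ 2 := by
    rw [map_mul, map_mul, hγ₁, hγ₂]
    ring
  refine (symmDiff_of_coboundary D Q hd ha hQ hδ hδ0 hρr hρ hρ' hfixN hU₁ hU₂ hU₁ hU₂ hc₁ hc₂ hc₁ hc₂
    hγγ hγγ (R := R) (fun σ => ?_)).1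
  have e1 := h (σ.restrictScalars F)
  have e2 : kap3 hδ0 γ₁ (σ.restrictScalars F) = kap3 (K := N) hδ0 γ₁ σ := rfl
  have e3 : kap3 hδ0 γ₂ (σ.restrictScalars F) = kap3 (K := N) hδ0 γ₂ σ := rfl
  have e4 : ptH ((σ.restrictScalars F : Ω ≃ₐ[F] Ω) : Ω →+* Ω) (hfix _) R = ptH (σ : Ω →+* Ω) (hfixN σ) R :=
    s9a_congr (RingHom.ext fun _ => rfl) _ _ R
  rw [e2, e3, e4, kap3_eq hδ0 hρ hρ', kap3_eq hδ0 hρ hρ'] at e1
  rw [kap_mul hρ hδ0 hγN₁ hγN₂ hγ0₁ hγ0₂ σ, kap_mul hρ' hδ0 hγN₁ hγN₂ hγ0₁ hγ0₂ σ]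
  have f1 := two_kap hδ0 hρ γ₂ σ
  have f2 := two_kap hδ0 hρ' γ₂ σ
  rw [two_nsmul] at f1 f2
  have e5 : kap hδ0 hρ γ₁ σ + kap hδ0 hρ γ₂ σ + (kap hδ0 hρ' γ₁ σ + kap hδ0 hρ' γ₂ σ) =
      (kap hδ0 hρ γ₁ σ + kap hδ0 hρ' γ₁ σ) + (kap hδ0 hρ γ₂ σ + kap hδ0 hρ' γ₂ σ) := by abel
  rw [e5, e1]
  have e6 : kap hδ0 hρ γ₂ σ + kap hδ0 hρ' γ₂ σ + (ptH (σ : Ω →+* Ω) (hfixN σ) R - R) +
      (kap hδ0 hρ γ₂ σ + kap hδ0 hρ' γ₂ σ) = (kap hδ0 hρ γ₂ σ + kap hδ0 hρ γ₂ σ) +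
        (kap hδ0 hρ' γ₂ σ + kap hδ0 hρ' γ₂ σ) + (ptH (σ : Ω →+* Ω) (hfixN σ) R - R) := by abel
  rw [e6, f1, f2, add_zero, zero_add]

/-- [TRX-D11] classes which agree. PROOF. As the end of `exists_star_F`: `kap3 γ₁ - kap3 γ₂` is `0` on `Gal(Ω/N)` (`kap3_eq`, `kap_of_symmDiff`), `coboundary_descent` (D7). -/
theorem kap3_of_symmDiff (hd : SP L d V) (ha : SP L a T) (hQ : Q.e = algebraMap L M a)
    (hcomp : ∀ x : L, algebraMap F N (algebraMap L F x) = algebraMap M N (algebraMap L M x)) (hQF : QF.s = algebraMap M N D.r)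
    (hδ : algebraMap M Ω (algebraMap L M d) = δ) (hδ0 : δ ≠ 0) (hρr : algebraMap M Ω D.r = ρ) (hρ : ρ ^ 2 = -7) (hρ' : (-ρ) ^ 2 = -7)
    (hfix : ∀ σ : Ω ≃ₐ[F] Ω, (σ : Ω →+* Ω) δ = δ)
    {U₁ U₂ : Finset (HeightOneSpectrum (𝓞 L))} (hU₁ : U₁ ⊆ T) (hU₂ : U₂ ⊆ T) {c₁ c₂ : L} (hc₁ : Star U₁ c₁) (hc₂ : Star U₂ c₂)
    (hs : symmDiff U₁ U₂ = ∅ ∨ symmDiff U₁ U₂ = T)
    {γ₁ γ₂ : Ω} (hγ₁ : algebraMap M Ω (algebraMap L M c₁) = γ₁ ^ 2) (hγ₂ : algebraMap M Ω (algebraMap L M c₂) = γ₂ ^ 2) :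
    ∃ R : (Ws δ).toAffine.Point, ∀ σ : Ω ≃ₐ[F] Ω,
      kap3 hδ0 γ₁ σ = kap3 hδ0 γ₂ σ + (ptH (σ : Ω →+* Ω) (hfix σ) R - R) := by
  have halgF : Algebra.IsAlgebraic F Ω := IsAlgClosure.isAlgebraic
  have hF : ∀ x : L, algebraMap F Ω (algebraMap L F x) = algebraMap M Ω (algebraMap L M x) := d11_F hcomp
  have hγF₁ : algebraMap F Ω (algebraMap L F c₁) = γ₁ ^ 2 := by rw [hF, hγ₁]
  have hγF₂ : algebraMap F Ω (algebraMap L F c₂) = γ₂ ^ 2 := by rw [hF, hγ₂]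
  have hsum := coc_add (kap3_coc hδ0 hfix hγF₁) (kap3_coc hδ0 hfix hγF₂)
  obtain ⟨P, hP⟩ := d11_descent D Q QF hd ha hQ hcomp hQF hδ hδ0 hfix _ hsum (fun σ => by
    have e2 : kap3 hδ0 γ₁ (σ.restrictScalars F) = kap3 (K := N) hδ0 γ₁ σ := rfl
    have e3 : kap3 hδ0 γ₂ (σ.restrictScalars F) = kap3 (K := N) hδ0 γ₂ σ := rfl
    change kap3 hδ0 γ₁ (σ.restrictScalars F) + kap3 hδ0 γ₂ (σ.restrictScalars F) = 0
    rw [e2, e3, kap3_eq hδ0 hρ hρ' γ₁, kap_of_symmDiff D Q ha hQ hδ0 hρ hU₁ hU₂ hc₁ hc₂ hs hγ₁ hγ₂ σ,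
      kap_of_symmDiff D Q ha hQ hδ0 hρ' hU₁ hU₂ hc₁ hc₂ hs hγ₁ hγ₂ σ, ← kap3_eq hδ0 hρ hρ',
      ← two_nsmul, two_kap3])
  refine ⟨P, fun σ => ?_⟩
  have e1 := hP σ
  change kap3 hδ0 γ₁ σ + kap3 hδ0 γ₂ σ = _ at e1
  have e3 := two_kap3 hδ0 γ₂ σ
  rw [two_nsmul] at e3
  rw [← e1]
  have e4 : kap3 hδ0 γ₂ σ + (kap3 hδ0 γ₁ σ + kap3 hδ0 γ₂ σ) =
      kap3 hδ0 γ₁ σ + (kap3 hδ0 γ₂ σ + kap3 hδ0 γ₂ σ) := by abel
  rw [e4, e3, add_zero]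

end

end TRX
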