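import Pool.Agent.TRX.D0
import Pool.Agent.TRX.D8
import Pool.Agent.TRX.D10
import Pool.Agent.TRX.D11

set_option autoImplicit false

open NumberField Ideal IsDedekindDomain WeierstrassCurve.Affine
open scoped Classical

/-! # [TRX-D13] the Tate–Shafarevich group over `F` -/

namespace TRX

open TR TU TTS

section
variable {L M N F : Type} [Field L] [NumberField L] [Field M] [NumberField M] [Field N] [NumberField N] [Field F] [NumberField F]
  [Algebra L M] [Algebra M N] [Algebra L F] [Algebra F N] [IsTotallyReal L] (D : Dat L M) {d a : L}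
  {V T : Finset (HeightOneSpectrum (𝓞 L))} (Q : QS M N) (QF : QS F N)
include D

/-- [TRX-D13] **THEOREM.** PROOF. `Ω = AlgebraicClosure F` becomes an `N`-algebra by an `F`-embedding `N → Ω` (`IsAlgClosed.lift`, `RingHom.toAlgebra`, as in `TTS.sha_L`, TTS/S9g.lean) and an `M`-algebra by `M → N → Ω`; it is an algebraic closure of `N` and of `M`. `δ = algebraMap F Ω (algebraMap L F d) = algebraMap M Ω (algebraMap L M d)` (`hcomp`), `ρ = algebraMap M Ω D.r`. `t₀ ∈ T`.
For `U : BSet T t₀` choose `c U` with `Star U (c U)` (`exists_star`, `NiceSet.subset`, `ha.nice`), `γ U` with `γ² = c`. `kap3 (γ U)` is a cocycle (`kap3_coc`; `z = algebraMap L F (c U)`), locally trivial at the finite places (`kap3_locTriv`) and at the infinite places (`kap3_inf`): `rep_of_coc` (D0) gives `Φ U`. `two_part` (D0) with `B = BSet T t₀` (`card_BSet`):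
(1) `two_kap3`, `rep_nsmul_eq_zero_iff`. (2) `rep_eq_iff`, `symmDiff_of_coboundary_F`, `BSet_inj`. (3) `exists_rep`, `Rep.coc`, `rep_nsmul_eq_zero_iff`, `exists_star_F`; `exists_BSet`, `kap3_of_symmDiff`; `rep_eq_iff`. -/
theorem sha_F (hd : SP L d V) (ha : SP L a T) (hQ : Q.e = algebraMap L M a)
    (hcomp : ∀ x : L, algebraMap F N (algebraMap L F x) = algebraMap M N (algebraMap L M x)) (hQF : QF.s = algebraMap M N D.r)
    (hT : T.Nonempty) (C : WeierstrassCurve.VariableChange F) :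
    (∀ (x : SBSD.Sha (C • Ws (algebraMap L F d))) (k : ℕ), 2 ^ k • x = 0 → 2 • x = 0) ∧
      Nat.card {x : SBSD.Sha (C • Ws (algebraMap L F d)) // 2 • x = 0} = 2 ^ (2 * ((T.card - 1) / 2)) := by
  obtain ⟨t₀, ht₀⟩ := hT
  have hfin1 : FiniteDimensional F N := Module.Finite.of_restrictScalars_finite ℚ F N
  have halg1 : Algebra.IsAlgebraic F N := Algebra.IsAlgebraic.of_finite F N
  have hfin2 : FiniteDimensional M N := Module.Finite.of_restrictScalars_finite ℚ M N
  have halg2 : Algebra.IsAlgebraic M N := Algebra.IsAlgebraic.of_finite M N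
  let φ : N →ₐ[F] AlgebraicClosure F := IsAlgClosed.lift
  let _ : Algebra N (AlgebraicClosure F) := φ.toRingHom.toAlgebra
  have htw1 : IsScalarTower F N (AlgebraicClosure F) :=
    IsScalarTower.of_algebraMap_eq (fun x => (φ.commutes x).symm)
  let _ : Algebra M (AlgebraicClosure F) := (φ.toRingHom.comp (algebraMap M N)).toAlgebra
  have htw2 : IsScalarTower M N (AlgebraicClosure F) :=
    IsScalarTower.of_algebraMap_eq (fun x => rfl)
  have halg3 : Algebra.IsAlgebraic N (AlgebraicClosure F) := Algebra.IsAlgebraic.tower_top (K := F) N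
  have hclN : IsAlgClosure N (AlgebraicClosure F) := ⟨inferInstance, inferInstance⟩
  have halg4 : Algebra.IsAlgebraic M (AlgebraicClosure F) := Algebra.IsAlgebraic.trans M N (AlgebraicClosure F)
  have hclM : IsAlgClosure M (AlgebraicClosure F) := ⟨inferInstance, inferInstance⟩
  obtain ⟨δ, hδ⟩ : ∃ δ : AlgebraicClosure F, algebraMap M (AlgebraicClosure F) (algebraMap L M d) = δ :=
    ⟨_, rfl⟩
  obtain ⟨ρ, hρr⟩ : ∃ ρ : AlgebraicClosure F, algebraMap M (AlgebraicClosure F) D.r = ρ := ⟨_, rfl⟩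
  have hd0M : algebraMap L M d ≠ 0 := (map_ne_zero _).2 hd.ne
  have hδ0 : δ ≠ 0 := by
    rw [← hδ]
    exact (map_ne_zero _).2 hd0M
  have hρ : ρ ^ 2 = -7 := by
    rw [← hρr, ← map_pow, D.hr, map_neg, map_ofNat]
  have hρ' : (-ρ) ^ 2 = -7 := by
    rw [neg_sq, hρ]
  have htow : ∀ x : L, algebraMap F (AlgebraicClosure F) (algebraMap L F x) =
      algebraMap M (AlgebraicClosure F) (algebraMap L M x) := by
    intro x
    rw [IsScalarTower.algebraMap_apply F N (AlgebraicClosure F), hcomp,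
      IsScalarTower.algebraMap_apply M N (AlgebraicClosure F)]
  have hδF : algebraMap F (AlgebraicClosure F) (algebraMap L F d) = δ := by
    rw [htow, hδ]
  have hfix : ∀ σ : AlgebraicClosure F ≃ₐ[F] AlgebraicClosure F,
      (σ : AlgebraicClosure F →+* AlgebraicClosure F) δ = δ := by
    intro σ
    rw [← hδF]
    exact σ.commutes _
  have hsub : ∀ U : BSet T t₀, U.1 ⊆ T := fun U => U.2.1.trans (Finset.erase_subset _ _)
  have hst : ∀ U : BSet T t₀, ∃ c : L, Star U.1 c := fun U => exists_star D (ha.nice.subset (hsub U))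
  choose c hc using hst
  have hsq : ∀ U : BSet T t₀, ∃ γ : AlgebraicClosure F,
      algebraMap M (AlgebraicClosure F) (algebraMap L M (c U)) = γ ^ 2 := by
    intro U
    obtain ⟨z, hz⟩ := IsAlgClosed.exists_pow_nat_eq
      (algebraMap M (AlgebraicClosure F) (algebraMap L M (c U))) (n := 2) (by norm_num)
    exact ⟨z, hz.symm⟩
  choose γ hγ using hsq
  have hγF : ∀ U, algebraMap F (AlgebraicClosure F) (algebraMap L F (c U)) = γ U ^ 2 := by
    intro U
    rw [htow, hγ]
  have hz0 : ∀ U, algebraMap L F (c U) ≠ 0 := fun U => (map_ne_zero _).2 (hc U).ne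
  have hκ : ∀ p : BSet T t₀, Coc F (AlgebraicClosure F) hfix
      (fun σ => kap3 hδ0 (γ p) σ) := fun p => kap3_coc hδ0 hfix (hγF p)
  have hκf : ∀ (p : BSet T t₀) (w : HeightOneSpectrum (𝓞 F)),
      LocTriv (fun σ : AlgebraicClosure F ≃ₐ[F] AlgebraicClosure F => kap3 hδ0 (γ p) σ)
        (w.adicCompletion F) (AlgebraicClosure (w.adicCompletion F)) := fun p w =>
    kap3_locTriv D Q QF hd ha hQ hcomp hQF hδ hδ0 hρr hρ hρ' (hsub p) p.2.2 (hc p) (hγ p) w
  have hκi : ∀ (p : BSet T t₀) (v : InfinitePlace F),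
      LocTriv (fun σ : AlgebraicClosure F ≃ₐ[F] AlgebraicClosure F => kap3 hδ0 (γ p) σ)
        v.Completion (AlgebraicClosure v.Completion) := fun p v =>
    kap3_inf hδ0 hρ hρ' (hz0 p) (hγF p) v
  choose Φ hΦ using fun p => rep_of_coc hδF C hfix (hκ p) (hκf p) (hκi p)
  have h1 : ∀ p, 2 • Φ p = 0 := by
    intro p
    refine (rep_nsmul_eq_zero_iff hδF C hfix (hΦ p) 2).2 ⟨0, fun σ => ?_⟩
    change 2 • (kap3 hδ0 (γ p) σ) = _
    rw [two_kap3, map_zero, sub_zero]
  have h2 : Function.Injective Φ := by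
    intro p p' h
    obtain ⟨R, hR⟩ := (rep_eq_iff hδF C hfix (hΦ p) (hΦ p')).1 h
    exact BSet_inj ht₀ (symmDiff_of_coboundary_F D Q hd ha hQ hδ hδ0 hρr hρ hρ' hfix
      (hsub p) (hsub p') (hc p) (hc p') (hγ p) (hγ p') hR)
  have h3 : ∀ (x : SBSD.Sha (C • Ws (algebraMap L F d))) (k : ℕ), 2 ^ k • x = 0 →
      ∃ p, Φ p = x := by
    intro x k hx
    obtain ⟨y, hy⟩ := exists_rep hδF C x
    obtain ⟨hyc, hyl⟩ := Rep.coc hδF C hfix hy
    obtain ⟨U, hU, hp, e, he, η, R, hη, hyR⟩ :=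
      exists_star_F D Q QF hd ha hQ hcomp hQF hδ hδ0 hρr hρ hρ' hfix y hyc hyl k
        ((rep_nsmul_eq_zero_iff hδF C hfix hy (2 ^ k)).1 hx)
    obtain ⟨B, hB⟩ := exists_BSet ht₀ hU hp
    obtain ⟨R', hR'⟩ := kap3_of_symmDiff D Q QF hd ha hQ hcomp hQF hδ hδ0 hρr hρ hρ' hfix
      hU (hsub B) he (hc B) hB hη (hγ B)
    refine ⟨B, (rep_eq_iff hδF C hfix (hΦ B) hy).2 ⟨-R - R', fun σ => ?_⟩⟩
    change kap3 hδ0 (γ B) σ = _
    rw [hyR σ, hR' σ, map_sub, map_neg]
    abel
  obtain ⟨h4, h5⟩ := two_part Φ h1 h2 h3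
  refine ⟨h4, ?_⟩
  rw [h5, card_BSet ht₀]

end

end TRX
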