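import Pool.Agent.TTS.S9l
import Pool.Agent.TU.G0

set_option autoImplicit false

open NumberField Ideal IsDedekindDomain WeierstrassCurve.Affine
open scoped Classical

/-! # [TRX-D14] the biquadratic field -/

namespace TRX

open TR TU TTS

/-- a ring hom on a quadratic extension -/
theorem d14_lift {F F' : Type} [Field F] [NumberField F] [Field F'] [NumberField F'] [Algebra F F'] (Q : QS F F')
    {K : Type} [Field K] (φ : F →+* K) (ρ : K) (h : ρ ^ 2 = φ Q.e) :
    ∃ ψ : F' →+* K, (∀ x : F, ψ (algebraMap F F' x) = φ x) ∧ ψ Q.s = ρ := by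
  have hval : ∀ {x : F'} {a b : F}, x = algebraMap F F' a + algebraMap F F' b * Q.s →
      φ (Q.ca x) + φ (Q.cb x) * ρ = φ a + φ b * ρ := by
    intro x a b hx
    obtain ⟨h1, h2⟩ := Q.ca_cb_of hx
    rw [h1, h2]
  have hs := Q.hs
  let ψ : F' →+* K :=
    { toFun := fun x => φ (Q.ca x) + φ (Q.cb x) * ρ
      map_one' := by
        rw [hval (x := 1) (a := 1) (b := 0) (by simp)]
        simp
      map_zero' := by
        rw [hval (x := 0) (a := 0) (b := 0) (by simp)]
        simp
      map_mul' := by
        intro x y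
        have hx := Q.eq_ca_cb x
        have hy := Q.eq_ca_cb y
        rw [hval (x := x * y) (a := Q.ca x * Q.ca y + Q.cb x * Q.cb y * Q.e) (b := Q.ca x * Q.cb y + Q.cb x * Q.ca y) ?_]
        · simp only [map_add, map_mul]
          linear_combination (-(φ (Q.cb x) * φ (Q.cb y))) * h
        · conv_lhs => rw [hx, hy]
          simp only [map_add, map_mul]
          linear_combination (algebraMap F F' (Q.cb x) * algebraMap F F' (Q.cb y)) * hs
      map_add' := by
        intro x y
        have hx := Q.eq_ca_cb x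
        have hy := Q.eq_ca_cb y
        rw [hval (x := x + y) (a := Q.ca x + Q.ca y) (b := Q.cb x + Q.cb y) ?_]
        · simp only [map_add]
          ring
        · conv_lhs => rw [hx, hy]
          simp only [map_add]
          ring }
  refine ⟨ψ, ?_, ?_⟩
  · intro x
    change φ (Q.ca _) + φ (Q.cb _) * ρ = φ x
    rw [hval (x := algebraMap F F' x) (a := x) (b := 0) (by simp)]
    simp
  · change φ (Q.ca _) + φ (Q.cb _) * ρ = ρ
    rw [hval (x := Q.s) (a := 0) (b := 1) (by simp)]
    simp


theorem d14_irr {M : Type} [Field M] (a : M) (h : ∀ v : M, v ^ 2 ≠ a) :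
    Irreducible (Polynomial.X ^ 2 - Polynomial.C a : Polynomial M) := by
  have hm : (Polynomial.X ^ 2 - Polynomial.C a : Polynomial M).Monic := Polynomial.monic_X_pow_sub_C _ two_ne_zero
  have hd : (Polynomial.X ^ 2 - Polynomial.C a : Polynomial M).natDegree = 2 := Polynomial.natDegree_X_pow_sub_C
  rw [hm.irreducible_iff_roots_eq_zero_of_degree_le_three (by omega) (by omega)]
  rw [Multiset.eq_zero_iff_forall_notMem]
  intro x hx
  have h1 := Polynomial.isRoot_of_mem_roots hx
  have h2 : x ^ 2 - a = 0 := by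
    rw [Polynomial.IsRoot, Polynomial.eval_sub, Polynomial.eval_pow, Polynomial.eval_X, Polynomial.eval_C] at h1
    exact h1
  exact h x (by linear_combination h2)

open Polynomial in
theorem d14_quad (L : Type) [Field L] [NumberField L] (hno : ∀ v : L, v ^ 2 ≠ -7) :
    ∃ (M : Type) (_ : Field M) (_ : NumberField M) (_ : Algebra L M) (r : M), r ^ 2 = -7 ∧
      ∀ x : M, ∃ a b : L, x = algebraMap L M a + algebraMap L M b * r := by
  set p : L[X] := X ^ 2 - C (-7) with hp
  have hirr : Irreducible p := d14_irr (-7) hno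
  have : Fact (Irreducible p) := ⟨hirr⟩
  have hdeg : p.natDegree = 2 := by rw [hp]; exact natDegree_X_pow_sub_C
  let N : Type := AdjoinRoot p
  let _ : Field N := inferInstanceAs (Field (AdjoinRoot p))
  let _ : Algebra L N := inferInstanceAs (Algebra L (AdjoinRoot p))
  have : CharZero N := charZero_of_injective_algebraMap (algebraMap L N).injective
  have : FiniteDimensional L N := (AdjoinRoot.powerBasis hirr.ne_zero).finite
  have : FiniteDimensional ℚ N := FiniteDimensional.trans ℚ L N
  have : NumberField N := { to_charZero := inferInstance, to_finiteDimensional := inferInstance }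
  let v : N := AdjoinRoot.root p
  have hv : v ^ 2 = -7 := by
    have h1 : Polynomial.aeval v p = 0 := by
      rw [AdjoinRoot.aeval_eq, AdjoinRoot.mk_self]
    rw [hp, map_sub, map_pow, aeval_X, aeval_C, sub_eq_zero, map_neg, map_ofNat] at h1
    exact h1
  refine ⟨N, inferInstance, inferInstance, inferInstance, v, hv, ?_⟩
  intro x
  obtain ⟨q, hq, hq2⟩ : ∃ q : L[X], q.degree < 2 ∧ AdjoinRoot.mk p q = x := by
    obtain ⟨g, hg⟩ := AdjoinRoot.mk_surjective (g := p) x
    refine ⟨g %ₘ p, ?_, ?_⟩
    · have hm : p.Monic := by rw [hp]; exact monic_X_pow_sub_C _ two_ne_zero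
      have := degree_modByMonic_lt g hm
      rwa [degree_eq_natDegree hm.ne_zero, hdeg] at this
    · rw [← hg, AdjoinRoot.mk_eq_mk]
      have := modByMonic_add_div g p
      refine ⟨-(g /ₘ p), ?_⟩
      linear_combination this
  refine ⟨q.coeff 0, q.coeff 1, ?_⟩
  have h2 : q = C (q.coeff 1) * X + C (q.coeff 0) := by
    apply eq_X_add_C_of_natDegree_le_one
    by_cases hq0 : q = 0
    · rw [hq0]
      simp
    · rw [degree_eq_natDegree hq0] at hq
      have : q.natDegree < 2 := by exact_mod_cast hq
      omega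
  rw [← hq2]
  conv_lhs => rw [h2]
  rw [map_add, map_mul]
  show AdjoinRoot.of p _ * v + AdjoinRoot.of p _ = AdjoinRoot.of p _ + AdjoinRoot.of p _ * v
  ring

/-- [TRX-D14] the field `N = F(√-7) = M(√a)`. PROOF. `N` = the splitting field of `X² + 7` over `F`, or `AdjoinRoot (X ^ 2 + 7 : F[X])`, or the intermediate field `F(ρ)` of `AlgebraicClosure F` with `ρ² = -7`. `√-7 ∉ F`: otherwise `L(√-7) = M ≅ F`, `QF.e` would be a square in `M`. `M → N`: the `L`-algebra map with `D.r ↦ ρ` (`D.gen`; e.g. `IsAlgClosed.lift : M →ₐ[L] AlgebraicClosure F` has `D.r ↦ ± ρ`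
and its image is in `F(ρ)`). `Q.s` is the image of `QF.s`, `Q.e = a`: `N = F(ρ) = L(ρ, √a) = M(√a)`; `Q.ns`: `a` is not a square in `M`. -/
theorem exists_N {L M F : Type} [Field L] [NumberField L] [Field M] [NumberField M] [Field F] [NumberField F]
    [Algebra L M] [Algebra L F] [IsTotallyReal L] (D : Dat L M) (QF : QS L F) (hns : ¬ IsSquare (algebraMap L M QF.e)) :
    ∃ (N : Type) (_ : Field N) (_ : NumberField N) (_ : Algebra M N) (_ : Algebra F N) (Q : QS M N) (Q' : QS F N),
      Q.e = algebraMap L M QF.e ∧ Q'.e = -7 ∧ Q'.s = algebraMap M N D.r ∧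
      ∀ x : L, algebraMap F N (algebraMap L F x) = algebraMap M N (algebraMap L M x) := by
  -- no square root of -7 in F
  have hno : ∀ x : F, x ^ 2 ≠ -7 := by
    intro x hx
    obtain ⟨a, b, rfl⟩ := QF.gen x
    have h1 : algebraMap L F (a ^ 2 + b ^ 2 * QF.e) + algebraMap L F (2 * a * b) * QF.s
        = algebraMap L F (-7) + algebraMap L F 0 * QF.s := by
      have hs := QF.hs
      simp only [map_add, map_mul, map_pow, map_neg, map_ofNat, map_zero]
      linear_combination hx - (algebraMap L F b) ^ 2 * hs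
    obtain ⟨h2, h3⟩ := QF.repr_unique h1
    have h4 : a = 0 ∨ b = 0 := by
      rcases mul_eq_zero.mp h3 with h | h
      · left
        rcases mul_eq_zero.mp h with h | h
        · norm_num at h
        · exact h
      · exact Or.inr h
    rcases h4 with h | h
    · have hb : b ≠ 0 := by
        intro hb
        rw [h, hb] at h2
        norm_num at h2
      apply hns
      refine ⟨algebraMap L M b⁻¹ * D.r, ?_⟩
      have h5 : QF.e = -7 * (b⁻¹) ^ 2 := by
        rw [h] at h2
        field_simp
        linear_combination h2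
      rw [h5]
      have hr := D.hr
      simp only [map_mul, map_neg, map_pow, map_ofNat]
      linear_combination (-(algebraMap L M b⁻¹) ^ 2) * hr
    · have h5 : a ^ 2 = -7 := by
        rw [h] at h2
        linear_combination h2
      obtain ⟨j⟩ := nonempty_real L
      have h6 : (j a) ^ 2 = -7 := by rw [← map_pow, h5, map_neg, map_ofNat]
      nlinarith [sq_nonneg (j a)]
  obtain ⟨N, _, _, _, ρ, hρ, hgen⟩ := d14_quad F hno
  obtain ⟨ψ, hψ1, hψ2⟩ := d14_lift (⟨-7, D.r, by rw [D.hr, map_neg, map_ofNat], D.gen, D.r_not_mem⟩ : QS L M)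
    ((algebraMap F N).comp (algebraMap L F)) ρ (by
      rw [hρ, map_neg, map_ofNat])
  let _ : Algebra M N := ψ.toAlgebra
  have hmap : ∀ x : M, algebraMap M N x = ψ x := fun x => rfl
  have hLN : ∀ x : L, algebraMap F N (algebraMap L F x) = algebraMap M N (algebraMap L M x) := by
    intro x
    rw [hmap, hψ1]
    rfl
  have hr : algebraMap M N D.r = ρ := by
    rw [hmap]
    exact hψ2
  refine ⟨N, inferInstance, inferInstance, inferInstance, inferInstance,
    ⟨algebraMap L M QF.e, algebraMap F N QF.s, ?_, ?_, ?_⟩,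
    ⟨-7, ρ, by rw [hρ, map_neg, map_ofNat], hgen, ?_⟩, rfl, rfl, hr.symm, hLN⟩
  · rw [← map_pow, QF.hs, hLN]
  · intro x
    obtain ⟨u, w, rfl⟩ := hgen x
    obtain ⟨a, b, rfl⟩ := QF.gen u
    obtain ⟨a', b', rfl⟩ := QF.gen w
    refine ⟨algebraMap L M a + algebraMap L M a' * D.r, algebraMap L M b + algebraMap L M b' * D.r, ?_⟩
    rw [map_add, map_add, map_add, map_add, map_mul, map_mul, map_mul, map_mul, hLN, hLN, hLN, hLN, hr]
    ring
  · intro m hm
    apply hns
    refine ⟨m, ?_⟩
    apply (algebraMap M N).injective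
    rw [← hLN, ← QF.hs, map_pow, ← hm, map_mul]
    ring
  · intro x hx
    apply hno x
    apply (algebraMap F N).injective
    rw [map_pow, hx, hρ, map_neg, map_ofNat]

end TRX
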