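import Pool.Agent.TRX.K4
import Pool.Agent.TRX.C5
import Pool.Agent.TTS.S9b
import Pool.Agent.TTS.T6
import Pool.Agent.TTS.S9l

set_option autoImplicit false

open NumberField Ideal IsDedekindDomain WeierstrassCurve.Affine
open scoped Classical

/-! # [TRX-D2] classes: local conditions and coboundaries -/

namespace TRX

open TR TTS

/-- [TRX-D2] the local conditions over `N` of a class of `M`. PROOF. `x' σ = x σ - (σ R - R) = y (σ.restrictScalars M)` is locally trivial (`LocTriv.sub`). For `P` choose an embedding `ι : Ω → AlgebraicClosure N_P` over `N` (`IsAlgClosed.lift`); `TTS.locCond_of_triv` with `K = N`, `φ = algebraMap N N_P`,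
`r = algebraMap M N r`, `d = algebraMap M N d₀`, `z = algebraMap M N z`, `c σ = y (σ.restrictScalars M)` (exactly as at the end of `TTS.exists_class`). -/
theorem selN_of_locTriv {M N : Type} [Field M] [CharZero M] [Field N] [NumberField N] [Algebra M N]
    {Ω : Type} [Field Ω] [CharZero Ω] [Algebra M Ω] [Algebra N Ω] [IsScalarTower M N Ω] [IsAlgClosure N Ω]
    {δ ρ : Ω} {d₀ r : M} (hδ : algebraMap M Ω d₀ = δ) (hδ0 : δ ≠ 0) (hr : r ^ 2 = -7) (hρr : algebraMap M Ω r = ρ) (hρ : ρ ^ 2 = -7)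
    (hfixN : ∀ σ : Ω ≃ₐ[N] Ω, (σ : Ω →+* Ω) δ = δ)
    {x : (Ω ≃ₐ[N] Ω) → (Ws δ).toAffine.Point} {y : (Ω ≃ₐ[M] Ω) → (Ws δ).toAffine.Point}
    (h2 : ∀ σ, (2 : ℕ) • y σ = 0)
    (hloc : ∀ w : HeightOneSpectrum (𝓞 N),
      LocTriv x (w.adicCompletion N) (AlgebraicClosure (w.adicCompletion N)))
    {R : (Ws δ).toAffine.Point}
    (hxy : ∀ σ : Ω ≃ₐ[N] Ω, x σ = y (σ.restrictScalars M) + (ptH (σ : Ω →+* Ω) (hfixN σ) R - R))
    {α : Ω} {z : M} (hα0 : α ≠ 0) (hα : ∀ σ : Ω ≃ₐ[M] Ω, σ α = (ch hδ0 hρ (y σ) : Ω) * α)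
    (hz : algebraMap M Ω z = α ^ 2) : SelN N d₀ r z := by
  have : IsAlgClosed Ω := IsAlgClosure.isAlgClosed N
  have : Algebra.IsAlgebraic N Ω := IsAlgClosure.isAlgebraic
  have : IsGalois N Ω := inferInstance
  have hM : ∀ m : M, algebraMap N Ω (algebraMap M N m) = algebraMap M Ω m := fun m =>
    (IsScalarTower.algebraMap_apply M N Ω m).symm
  obtain rfl : algebraMap N Ω (algebraMap M N r) = ρ := by rw [hM, hρr]
  intro P
  have hc1 : CharZero (P.adicCompletion N) :=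
    charZero_of_injective_algebraMap (algebraMap N (P.adicCompletion N)).injective
  let ι : Ω →ₐ[N] AlgebraicClosure (P.adicCompletion N) := IsAlgClosed.lift
  have hι : ∀ x : N, (ι : Ω →+* AlgebraicClosure (P.adicCompletion N)) (algebraMap N Ω x) =
      algebraMap (P.adicCompletion N)
      (AlgebraicClosure (P.adicCompletion N)) (algebraMap N (P.adicCompletion N) x) := by
    intro x
    change ι (algebraMap N Ω x) = _
    rw [ι.commutes, ← IsScalarTower.algebraMap_apply]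
  have hδN : algebraMap N Ω (algebraMap M N d₀) = δ := by rw [hM, hδ]
  have hfix' : ∀ τ : AlgebraicClosure (P.adicCompletion N) ≃ₐ[P.adicCompletion N]
      AlgebraicClosure (P.adicCompletion N),
      (τ : AlgebraicClosure (P.adicCompletion N) →+* AlgebraicClosure (P.adicCompletion N))
        ((ι : Ω →+* AlgebraicClosure (P.adicCompletion N)) δ) =
        (ι : Ω →+* AlgebraicClosure (P.adicCompletion N)) δ := by
    intro τ
    rw [← hδN, hι]
    exact τ.commutes _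
  have hloc' : LocTriv (fun σ : Ω ≃ₐ[N] Ω => y (σ.restrictScalars M)) (P.adicCompletion N)
      (AlgebraicClosure (P.adicCompletion N)) := by
    have h1 := LocTriv.sub (hfix := hfixN) (hloc P) R
    have h3 : (fun σ : Ω ≃ₐ[N] Ω => x σ - (ptH (σ : Ω →+* Ω) (hfixN σ) R - R)) =
        fun σ : Ω ≃ₐ[N] Ω => y (σ.restrictScalars M) := by
      funext σ
      rw [hxy σ]
      abel
    rw [h3] at h1
    exact h1
  obtain ⟨Q, hQ⟩ := hloc' ι _ rfl hfix'
  have hrN : (algebraMap M N r) ^ 2 = -7 := by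
    rw [← map_pow, hr, map_neg, map_ofNat]
  have hzN : algebraMap N Ω (algebraMap M N z) = α ^ 2 := by rw [hM, hz]
  exact locCond_of_triv (algebraMap N (P.adicCompletion N))
    (ι : Ω →+* AlgebraicClosure (P.adicCompletion N)) hι hrN hρ hδ0 hδN rfl hfix'
    (fun σ : Ω ≃ₐ[N] Ω => y (σ.restrictScalars M)) (fun σ => h2 _) α hα0
    (fun σ => hα (σ.restrictScalars M)) (algebraMap M N z) hzN Q hQ

/-- the values of the descent map at `ε₂` on the points of order two: `1`, `d r` -/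
theorem d2_two {K : Type} [Field K] [CharZero K] {d r : K} (hd : d ≠ 0) (hr : r ^ 2 = -7)
    (T : (Ws d).toAffine.Point) (hT : (2 : ℕ) • T = 0) :
    IsSquare (dl (d * e2 r) T) ∨ IsSquare (dl (d * e2 r) T * (d * r)) := by
  rcases (two_nsmul_eq_zero hd hr T).1 hT with rfl | rfl | rfl | rfl
  · left
    have h0 : dl (d * e2 r) (0 : (Ws d).toAffine.Point) = 1 := if_pos rfl
    rw [h0]
    exact ⟨1, by ring⟩
  · right
    unfold TTS.T1
    rw [t0_mkP, if_neg (s2a_ne12 hd hr)]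
    have h4 := e1_sub_e2 (r := r)
    exact ⟨d * r, by linear_combination (d ^ 2 * r) * h4⟩
  · left
    unfold TTS.T2
    obtain ⟨-, k2, -, kk⟩ := s2b_kappa (d := d) hr
    have hk : 3 * (d * e2 r) ^ 2 - 35 * d ^ 2 = (d * r * wB r ^ 2) ^ 2 := by
      rw [k2, ← kk]
      ring
    rw [t0_mkP, if_pos rfl, hk]
    exact ⟨d * r * wB r ^ 2, by ring⟩
  · right
    unfold TTS.T3
    rw [t0_mkP, if_neg (s2a_ne23 hd hr).symm]
    have h4 := seven_sub_e2 hr
    exact ⟨d * r * wB r ^ 2, by linear_combination (d ^ 2 * r) * h4⟩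

/-- the values of the descent map at `ε₂` if the group is finite and no point of order two is divisible by two -/
theorem d2_dl {K : Type} [Field K] [CharZero K] {d r : K} (hd : d ≠ 0) (hr : r ^ 2 = -7)
    (n1 : ¬ IsSquare (d * r)) (n2 : ¬ IsSquare (-(d * r))) [Finite (Ws d).toAffine.Point]
    (P : (Ws d).toAffine.Point) :
    IsSquare (dl (d * e2 r) P) ∨ IsSquare (dl (d * e2 r) P * (d * r)) := by
  obtain ⟨-, k2, -, kk⟩ := s2b_kappa (d := d) hr
  have hk : 3 * (d * e2 r) ^ 2 - 35 * d ^ 2 = (d * r * wB r ^ 2) ^ 2 := by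
    rw [k2, ← kk]
    ring
  have hk0 : 3 * (d * e2 r) ^ 2 - 35 * d ^ 2 ≠ 0 := by
    rw [hk]
    exact pow_ne_zero _ (mul_ne_zero (mul_ne_zero hd (s2a_r_ne hr))
      (pow_ne_zero _ (s2a_w_ne hr)))
  have he : (d * e2 r) ^ 3 - 35 * d ^ 2 * (d * e2 r) - 98 * d ^ 3 = 0 := by
    rw [factor hr]
    ring
  obtain ⟨T, k, hT, hP⟩ := exists_half (A := (Ws d).toAffine.Point) (fun R hR => by
    by_contra h0
    obtain ⟨g1, g2, g3⟩ := not_half hd hr n1 n2 R
    rcases (two_nsmul_eq_zero hd hr _).1 hR with h | h | h | h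
    · exact h0 h
    · exact g1 h
    · exact g2 h
    · exact g3 h) P
  -- the class of an even multiple is trivial
  have h1 := dl_add hd he hk0 (k • P) (k • P)
  have h2 : k • P + k • P = (2 * k) • P := by
    rw [two_mul, add_smul]
  rw [h2] at h1
  have h3 := dl_add hd he hk0 T ((2 * k) • P)
  rw [← hP] at h3
  have hn1 := dl_ne hk0 (k • P)
  have hn2 := dl_ne hk0 ((2 * k) • P)
  have hn3 := dl_ne hk0 T
  have hn4 := dl_ne hk0 P
  obtain ⟨a, ha⟩ := h1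
  obtain ⟨b, hb⟩ := h3
  generalize dl (d * e2 r) (k • P) = x at ha hn1
  generalize dl (d * e2 r) ((2 * k) • P) = y at ha hb hn2
  generalize dl (d * e2 r) P = p at hb hn4 ⊢
  -- `p = T` modulo squares
  have ha0 : a ≠ 0 := by
    rintro rfl
    rw [mul_zero] at ha
    exact mul_ne_zero (mul_ne_zero hn1 hn1) hn2 ha
  rcases d2_two hd hr T hT with ⟨t, ht⟩ | ⟨t, ht⟩
  · left
    have ht0 : t ≠ 0 := by
      rintro rfl
      rw [mul_zero] at ht
      exact hn3 ht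
    rw [ht] at hb
    refine ⟨b * x / (t * a), ?_⟩
    field_simp
    linear_combination (p * t ^ 2) * (-ha) + x ^ 2 * hb
  · right
    have ht0 : t ≠ 0 := by
      rintro rfl
      rw [mul_zero] at ht
      exact mul_ne_zero hn3 (mul_ne_zero hd (s2a_r_ne hr)) ht
    generalize dl (d * e2 r) T = q at hb ht hn3
    generalize d * r = δ at ht ⊢
    refine ⟨b * x * t / (q * a), ?_⟩
    field_simp
    linear_combination (p * q ^ 2 * δ) * (-ha) + (x ^ 2 * q * δ) * hb + (x ^ 2 * b ^ 2) * ht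

/-- [TRX-D2] **the kernel of the map to cohomology.** PROOF. Generalisation of `TRB.class_of_coboundary` (TRBX_S1.lean in the store; complete): there `c σ = kap hd0 hR α σ`; its proof only uses `2 • c σ = 0` and `(ch (c σ)) * α = σ α` (`hch`). Copy `s1_two`, `s1_dl` with the prefix d2_. -/
theorem class_of_coboundary {M : Type} [Field M] [CharZero M] {d₀ r z : M} (hd₀ : d₀ ≠ 0)
    (hr : r ^ 2 = -7) (hz0 : z ≠ 0)
    (n1 : ¬ IsSquare (d₀ * r)) (n2 : ¬ IsSquare (-(d₀ * r))) [Finite (Ws d₀).toAffine.Point]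
    {Ω : Type} [Field Ω] [Algebra M Ω] [IsAlgClosure M Ω] [CharZero Ω] {δ ρ : Ω}
    (hδ : algebraMap M Ω d₀ = δ) (hδ0 : δ ≠ 0)
    (hfix : ∀ σ : Ω ≃ₐ[M] Ω, (σ : Ω →+* Ω) δ = δ)
    (hρr : algebraMap M Ω r = ρ) (hρ : ρ ^ 2 = -7) {α : Ω} (hα : algebraMap M Ω z = α ^ 2)
    (c : (Ω ≃ₐ[M] Ω) → (Ws δ).toAffine.Point) (h2 : ∀ σ, (2 : ℕ) • c σ = 0)
    (hch : ∀ σ : Ω ≃ₐ[M] Ω, σ α = (ch hδ0 hρ (c σ) : Ω) * α)
    (R₀ : (Ws δ).toAffine.Point)
    (h : ∀ σ : Ω ≃ₐ[M] Ω, c σ = ptH (σ : Ω →+* Ω) (hfix σ) R₀ - R₀) :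
    IsSquare z ∨ IsSquare (z * (d₀ * r)) := by
  have : IsAlgClosed Ω := IsAlgClosure.isAlgClosed M
  have : Algebra.IsAlgebraic M Ω := IsAlgClosure.isAlgebraic
  have hfixed : ∀ x : Ω, (∀ σ : Ω ≃ₐ[M] Ω, σ x = x) → ∃ y : M, algebraMap M Ω y = x :=
    fun x hx => s9l_fixed M (M := M) x hx
  have hσR : ∀ σ : Ω ≃ₐ[M] Ω, (σ : Ω →+* Ω) ρ = ρ := fun σ => by
    rw [← hρr]
    exact σ.commutes _
  have hα0 : α ≠ 0 := by
    rintro rfl
    rw [zero_pow two_ne_zero] at hα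
    exact hz0 ((map_eq_zero _).1 hα)
  have hσα : ∀ σ : Ω ≃ₐ[M] Ω, σ α = α ∨ σ α = -α := by
    intro σ
    apply sq_eq_sq_iff_eq_or_eq_neg.1
    rw [← map_pow, ← hα, σ.commutes]
  have hnα : -α ≠ α := by
    intro h1
    apply hα0
    have h7 : (2 : Ω) * α = 0 := by linear_combination -h1
    exact (mul_eq_zero.1 h7).resolve_left two_ne_zero
  have hσQ : ∀ σ : Ω ≃ₐ[M] Ω, ptH (σ : Ω →+* Ω) (hfix σ) R₀ = R₀ + c σ := by
    intro σ
    rw [h σ]
    abel
  obtain ⟨c0, c1, -, -⟩ := s2a_ch hδ0 hρ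
  have hfixα : (∀ σ : Ω ≃ₐ[M] Ω, σ α = α) → IsSquare z := by
    intro h1
    obtain ⟨y, hy⟩ := hfixed α h1
    refine ⟨y, (algebraMap M Ω).injective ?_⟩
    rw [hα, map_mul, hy, sq]
  -- `2 R₀` is defined over `M`
  have h2fix : ∀ σ : Ω ≃ₐ[M] Ω, ptH (σ : Ω →+* Ω) (hfix σ) ((2 : ℕ) • R₀) = (2 : ℕ) • R₀ := by
    intro σ
    rw [map_nsmul, hσQ, nsmul_add, h2, add_zero]
  obtain ⟨P, hP⟩ : ∃ P : (Ws d₀).toAffine.Point, ptH (algebraMap M Ω) hδ P = (2 : ℕ) • R₀ := by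
    apply exists_ptH (algebraMap M Ω) hδ hd₀
    · apply hfixed
      intro σ
      have h1 := (xP_ptH (σ : Ω →+* Ω) (hfix σ) ((2 : ℕ) • R₀)).1
      rw [h2fix] at h1
      exact h1.symm
    · apply hfixed
      intro σ
      have h1 := (xP_ptH (σ : Ω →+* Ω) (hfix σ) ((2 : ℕ) • R₀)).2
      rw [h2fix] at h1
      exact h1.symm
  by_cases h20 : (2 : ℕ) • R₀ = 0
  · -- `R₀` is defined over `M`
    left
    apply hfixα
    intro σ
    have h3 : ptH (σ : Ω →+* Ω) (hfix σ) R₀ = R₀ := by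
      obtain ⟨t1, t2, t3⟩ : ptH (σ : Ω →+* Ω) (hfix σ) (TTS.T1 hδ0 hρ) = TTS.T1 hδ0 hρ ∧
          ptH (σ : Ω →+* Ω) (hfix σ) (TTS.T2 hδ0 hρ) = TTS.T2 hδ0 hρ ∧
          ptH (σ : Ω →+* Ω) (hfix σ) (TTS.T3 hδ0) = TTS.T3 hδ0 :=
        ptH_T hδ0 hρ (σ : Ω →+* Ω) (hfix σ) hδ0 hρ (hσR σ)
      rcases (two_nsmul_eq_zero hδ0 hρ R₀).1 h20 with h | h | h | h
      · rw [h, map_zero]
      · rw [h, t1]
      · rw [h, t2]
      · rw [h, t3]
    have h4 := h σ
    rw [h3, sub_self] at h4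
    rw [hch σ, h4, c0]
    push_cast
    ring
  by_cases hT2 : (2 : ℕ) • R₀ = TTS.T2 hδ0 hρ
  · left
    apply hfixα
    intro σ
    have hs := half_sq hδ0 hρ R₀ hT2
    have ha := half_add hδ0 hρ R₀ (c σ) hT2 (h2 σ)
    rw [← hσQ, (xP_ptH (σ : Ω →+* Ω) (hfix σ) R₀).1] at ha
    obtain ⟨A, hA⟩ : ∃ A : Ω, A = xP R₀ - δ * e2 ρ := ⟨_, rfl⟩
    rw [← hA] at hs ha
    have hσe : (σ : Ω →+* Ω) (δ * e2 ρ) = δ * e2 ρ := by
      rw [map_mul, hfix σ, s2c_e2 (σ : Ω →+* Ω), hσR]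
    have hσA : (σ : Ω →+* Ω) A = (ch hδ0 hρ (c σ) : Ω) * A := by
      rw [← ha, hA, map_sub, hσe]
    have hσw : (σ : Ω →+* Ω) (δ * ρ * wB ρ ^ 2) = δ * ρ * wB ρ ^ 2 := by
      unfold wB
      rw [map_mul, map_mul, hfix σ, map_pow, map_div₀, map_add, map_one, map_ofNat, hσR]
    have hσA2 : (σ : Ω →+* Ω) A = A := by
      rcases sq_eq_sq_iff_eq_or_eq_neg.1 hs with h | h
      · rw [h, hσw]
      · rw [h, map_neg, hσw]
    have hA0 : A ≠ 0 := by
      intro h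
      rw [h, zero_pow two_ne_zero] at hs
      exact pow_ne_zero 2 (mul_ne_zero (mul_ne_zero hδ0 (s2a_r_ne hρ))
        (pow_ne_zero _ (s2a_w_ne hρ))) hs.symm
    rcases ch_sq hδ0 hρ (c σ) with h | h
    · rw [hch σ, h]
      push_cast
      ring
    · exfalso
      rw [hσA2, h] at hσA
      apply hA0
      have h7 : (2 : Ω) * A = 0 := by
        push_cast at hσA
        linear_combination hσA
      exact (mul_eq_zero.1 h7).resolve_left two_ne_zero
  -- the general case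
  have hFF := FF_sq hδ0 hρ R₀ h20
  have hP0 : P ≠ 0 := by
    rintro rfl
    rw [map_zero] at hP
    exact h20 hP.symm
  have hdl : dl (d₀ * e2 r) P = xP P - d₀ * e2 r := by
    unfold dl
    rw [if_neg hP0, if_neg]
    intro hx
    apply hT2
    obtain ⟨X, Y, hXY, rfl⟩ := exists_mkP hd₀ P hP0
    rw [(xP_mkP hd₀ hXY).1] at hx
    obtain ⟨h', hh⟩ := ptH_mkP (algebraMap M Ω) hδ hd₀ hδ0 hXY
    rw [← hP, hh]
    unfold TTS.T2
    rw [mkP_inj]
    have hY : Y = 0 := by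
      apply pow_eq_zero_iff (two_ne_zero) |>.1
      rw [hXY, factor hr, hx]
      ring
    refine ⟨?_, by rw [hY, map_zero]⟩
    rw [hx, map_mul, hδ, s2c_e2 (algebraMap M Ω), hρr]
  have hFF' : FF ρ R₀ ^ 2 = algebraMap M Ω (dl (d₀ * e2 r) P) := by
    rw [hFF, ← hP, (xP_ptH (algebraMap M Ω) hδ P).1, hdl, map_sub, map_mul, hδ,
      s2c_e2 (algebraMap M Ω), hρr]
  have hfixF : ∀ σ : Ω ≃ₐ[M] Ω, σ (FF ρ R₀ * α) = FF ρ R₀ * α := by
    intro σ
    have h3 : σ (FF ρ R₀) = (ch hδ0 hρ (c σ) : Ω) * FF ρ R₀ := by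
      rw [← FF_add hδ0 hρ R₀ _ h20 (h2 σ), ← hσQ,
        FF_map (σ : Ω →+* Ω) (hfix σ) (hσR σ) R₀]
      rfl
    rw [map_mul, h3, hch σ]
    rcases ch_sq hδ0 hρ (c σ) with h | h
    · rw [h]
      push_cast
      ring
    · rw [h]
      push_cast
      ring
  obtain ⟨y, hy⟩ := hfixed _ hfixF
  have hy2 : dl (d₀ * e2 r) P * z = y * y := by
    apply (algebraMap M Ω).injective
    rw [map_mul, map_mul, ← hFF', hα, hy]
    ring
  have hD0 : dl (d₀ * e2 r) P ≠ 0 := by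
    obtain ⟨-, k2, -, kk⟩ := s2b_kappa (d := d₀) hr
    have hk : 3 * (d₀ * e2 r) ^ 2 - 35 * d₀ ^ 2 = (d₀ * r * wB r ^ 2) ^ 2 := by
      rw [k2, ← kk]
      ring
    apply dl_ne
    rw [hk]
    exact pow_ne_zero _ (mul_ne_zero (mul_ne_zero hd₀ (s2a_r_ne hr))
      (pow_ne_zero _ (s2a_w_ne hr)))
  rcases d2_dl hd₀ hr n1 n2 P with ⟨t, ht⟩ | ⟨t, ht⟩
  · left
    generalize dl (d₀ * e2 r) P = p at ht hy2 hD0
    have ht0 : t ≠ 0 := by
      rintro rfl
      rw [mul_zero] at ht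
      exact hD0 ht
    refine ⟨y / t, ?_⟩
    rw [ht] at hy2
    field_simp
    linear_combination hy2
  · right
    generalize dl (d₀ * e2 r) P = p at ht hy2 hD0
    refine ⟨y * t / p, ?_⟩
    field_simp
    linear_combination (p * (d₀ * r)) * hy2 + (y * y) * ht

end TRX
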