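import Pool.Agent.TRX.C6
import Pool.Agent.TRX.C7

set_option autoImplicit false

open NumberField Ideal IsDedekindDomain WeierstrassCurve.Affine
open scoped Classical

/-! # [TRX-D3a] arithmetic of `N = M(√a)` -/

namespace TRX

open TR TU TTS

/-- [TRX-D3] PROOF. `x = y²`, `y = u + v s` (`Q.gen`): `x = u² + v² e + 2 u v s`, so `u v = 0` (`QS.repr_unique`): `x = u²`, or `x = v² e` and `x e = (v e)²`. -/
theorem sq_quad {M N : Type} [Field M] [NumberField M] [Field N] [NumberField N] [Algebra M N] (Q : QS M N) {x : M}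
    (h : IsSquare (algebraMap M N x)) : IsSquare x ∨ IsSquare (x * Q.e) := by
  obtain ⟨z, hz⟩ := h
  obtain ⟨u, v, huv⟩ := Q.gen z
  have hs := Q.hs
  have h1 : algebraMap M N x + algebraMap M N 0 * Q.s =
      algebraMap M N (u ^ 2 + Q.e * v ^ 2) + algebraMap M N (2 * u * v) * Q.s := by
    rw [hz, huv]
    simp only [map_zero, map_add, map_mul, map_pow, map_ofNat]
    linear_combination (algebraMap M N v) ^ 2 * hs
  obtain ⟨h2, h3⟩ := Q.repr_unique h1
  have h4 : u * v = 0 := by
    have h5 : (2 : M) * (u * v) = 0 := by linear_combination -h3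
    exact (mul_eq_zero.1 h5).resolve_left two_ne_zero
  rcases mul_eq_zero.1 h4 with h5 | h5
  · right
    exact ⟨Q.e * v, by rw [h2, h5]; ring⟩
  · left
    exact ⟨u, by rw [h2, h5]; ring⟩

section
variable {L M N : Type} [Field L] [NumberField L] [Field M] [NumberField M] [Field N] [NumberField N]
  [Algebra L M] [Algebra M N] [IsTotallyReal L] (D : Dat L M) {d a : L}
  {V T U U' : Finset (HeightOneSpectrum (𝓞 L))} (Q : QS M N)
include D

omit [NumberField N] [Field N] [Algebra M N] in
/-- `b r` has odd valuation at the prime `(√-7)`. -/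
theorem d3a_odd {b : L} (hb : b ≠ 0) {y : M}
    (h : y = algebraMap L M b * D.r ∨ y = -(algebraMap L M b * D.r)) : ¬ IsSquare y := by
  rintro ⟨s, hs⟩
  have hP : D.rr ∈ (⟨span {D.rr}, D.span_rr_prime, by
      rw [Ne, Ideal.span_singleton_eq_bot]
      exact n1_rr_ne D⟩ : HeightOneSpectrum (𝓞 M)).asIdeal := Ideal.mem_span_singleton_self _
  generalize (⟨span {D.rr}, D.span_rr_prime, by
      rw [Ne, Ideal.span_singleton_eq_bot]
      exact n1_rr_ne D⟩ : HeightOneSpectrum (𝓞 M)) = P at hP
  obtain ⟨hr1, -, hev⟩ := val_seven D hP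
  have h1 : P.valuation M y = P.valuation M (algebraMap L M b) * WithZero.exp (-1 : ℤ) := by
    rw [← hr1, ← map_mul]
    rcases h with h | h
    · rw [h]
    · rw [h, Valuation.map_neg]
  rw [hs, map_mul] at h1
  exact n1_odd ((Valuation.ne_zero_iff _).2 ((map_ne_zero _).2 hb)) (hev b) h1

/-- [TRX-D3] PROOF. `P = (√-7)` (`D.span_rr_prime` or as in `TTS.dr_not_sq`, TTS/N1.lean): `P.valuation (d r)` is `exp (2n - 1)` (`val_seven`). A prime `P'` of `N` above `P` (`QTB.exists_above`) with `P'.valuation (algebraMap x) = P.valuation x`: `Ur P a` (`ur_seven_of_SP`), so `QS.split` or `QS.inert` (as in `val_of_selN`, C7). So `d r` has odd valuation at `P'`. -/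
theorem dr_not_sq_N (hd : SP L d V) (ha : SP L a T) (hQ : Q.e = algebraMap L M a) :
    ¬ IsSquare (algebraMap M N (algebraMap L M d * D.r)) ∧ ¬ IsSquare (-algebraMap M N (algebraMap L M d * D.r)) := by
  constructor
  · intro h
    rcases sq_quad Q h with h1 | h1
    · exact d3a_odd D hd.ne (Or.inl rfl) h1
    · refine d3a_odd D (mul_ne_zero hd.ne ha.ne) (Or.inl ?_) h1
      rw [hQ, map_mul]
      ring
  · intro h
    rw [← map_neg] at h
    rcases sq_quad Q h with h1 | h1
    · exact d3a_odd D hd.ne (Or.inr rfl) h1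
    · refine d3a_odd D (mul_ne_zero hd.ne ha.ne) (Or.inr ?_) h1
      rw [hQ, map_mul]
      ring

/-- [TRX-D3] **classes which become equal over `N`.** PROOF. `c c' ` is `Star (symmDiff U U')` (`Star.mul`). By `sq_quad` `x` or `x a` is a square in `M`, where `x = c c'` or `c c' d r`. The second is impossible (valuation at `(√-7)`, as in `dr_not_sq_N`; `TTS.val_seven`). So `c c'` is a square in `M` and `symmDiff U U' = ∅` (`Star.eq_empty`), or
`c c' a` is a square in `M`: with `Star T c_T` (`exists_star`) `a c_T` is a square in `M` (`star_mul_of_SP`), so `c c' c_T` is a square in `M`, `symmDiff (symmDiff U U') T = ∅`. -/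
theorem symmDiff_of_sq (hd : SP L d V) (ha : SP L a T) (hQ : Q.e = algebraMap L M a) {c c' : L} (hU : U ⊆ T) (hU' : U' ⊆ T)
    (hc : Star U c) (hc' : Star U' c')
    (h : IsSquare (algebraMap M N (algebraMap L M (c * c'))) ∨
      IsSquare (algebraMap M N (algebraMap L M (c * c')) * algebraMap M N (algebraMap L M d * D.r))) :
    symmDiff U U' = ∅ ∨ symmDiff U U' = T := by
  have hnU : NiceSet U := ha.nice.subset hU
  have hnS : NiceSet (symmDiff U U') := by
    refine ha.nice.subset fun v hv => ?_
    rcases Finset.mem_symmDiff.1 hv with h1 | h1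
    · exact hU h1.1
    · exact hU' h1.1
  have hcc := Star.mul hnU hc hc'
  have hcc0 : c * c' ≠ 0 := mul_ne_zero hc.ne hc'.ne
  rcases h with h | h
  · rcases sq_quad Q h with h1 | h1
    · left
      exact hcc.eq_empty D hnS h1
    · right
      obtain ⟨cT, hcT⟩ := exists_star D ha.nice
      have h2 := star_mul_of_SP D ha hcT
      have h3 : IsSquare (algebraMap L M (c * c' * cT)) := by
        obtain ⟨p, hp⟩ := h1
        obtain ⟨q, hq⟩ := h2
        rw [hQ] at hp
        have ha0 : algebraMap L M a ≠ 0 := (map_ne_zero _).2 ha.ne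
        refine ⟨p * q / algebraMap L M a, ?_⟩
        rw [map_mul (algebraMap L M) (c * c') cT]
        generalize algebraMap L M (c * c') = x at hp ⊢
        generalize algebraMap L M cT = y at hq ⊢
        generalize algebraMap L M a = z at hp hq ha0 ⊢
        field_simp
        linear_combination y * z * hp + p ^ 2 * hq
      have h4 := (Star.mul hnS hcc hcT)
      have hn4 : NiceSet (symmDiff (symmDiff U U') T) := by
        refine ha.nice.subset fun v hv => ?_
        rcases Finset.mem_symmDiff.1 hv with h1 | h1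
        · rcases Finset.mem_symmDiff.1 h1.1 with h5 | h5
          · exact hU h5.1
          · exact hU' h5.1
        · exact h1.1
      have h5 := h4.eq_empty D hn4 h3
      rw [← Finset.bot_eq_empty, symmDiff_eq_bot] at h5
      exact h5
  · exfalso
    rw [← map_mul] at h
    rcases sq_quad Q h with h1 | h1
    · refine d3a_odd D (mul_ne_zero hcc0 hd.ne) (Or.inl ?_) h1
      rw [map_mul (algebraMap L M) (c * c') d]
      ring
    · refine d3a_odd D (mul_ne_zero (mul_ne_zero hcc0 hd.ne) ha.ne) (Or.inl ?_) h1
      rw [hQ, map_mul (algebraMap L M) (c * c' * d) a, map_mul (algebraMap L M) (c * c') d]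
      ring

/-- [TRX-D3] conversely. PROOF. `symmDiff U U' = ∅`: `Star.unique`. `= T`: `c c'` is `Star T`, `a c c'` is a square in `M` (`star_mul_of_SP`), `a` is a square in `N` (`Q.hs`). -/
theorem sq_of_symmDiff (ha : SP L a T) (hQ : Q.e = algebraMap L M a) {c c' : L} (hU : U ⊆ T) (hU' : U' ⊆ T)
    (hc : Star U c) (hc' : Star U' c') (h : symmDiff U U' = ∅ ∨ symmDiff U U' = T) :
    IsSquare (algebraMap M N (algebraMap L M (c * c'))) := by
  have hnU : NiceSet U := ha.nice.subset hU
  rcases h with h | h
  · have hUU : U = U' := by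
      rw [← Finset.bot_eq_empty, symmDiff_eq_bot] at h
      exact h
    subst hUU
    exact ((hc.unique D hnU hc').map (algebraMap L M)).map (algebraMap M N)
  · have hcc := Star.mul hnU hc hc'
    rw [h] at hcc
    obtain ⟨q, hq⟩ := star_mul_of_SP D ha hcc
    have hs := Q.hs
    rw [hQ] at hs
    have ha0 : algebraMap M N (algebraMap L M a) ≠ 0 :=
      (map_ne_zero _).2 ((map_ne_zero _).2 ha.ne)
    have hq' := congrArg (algebraMap M N) hq
    rw [map_mul (algebraMap M N) (algebraMap L M a) (algebraMap L M (c * c')),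
      map_mul (algebraMap M N) q q] at hq'
    refine ⟨algebraMap M N q * Q.s / algebraMap M N (algebraMap L M a), ?_⟩
    generalize algebraMap M N (algebraMap L M (c * c')) = x at hq' ⊢
    generalize algebraMap M N (algebraMap L M a) = z at hq' ha0 hs ⊢
    generalize algebraMap M N q = w at hq' ⊢
    field_simp
    linear_combination z * hq' - w ^ 2 * hs

end

end TRX
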