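import Pool.Agent.TRX.C1
import Pool.Agent.TTS.NF
import Pool.Agent.TTS.S9g

set_option autoImplicit false

open NumberField Ideal IsDedekindDomain WeierstrassCurve.Affine
open scoped Classical

/-! # [TRX-D3b] arithmetic of `N = M(√a)` -/

namespace TRX

open TR TU TTS

section
variable {L M N : Type} [Field L] [NumberField L] [Field M] [NumberField M] [Field N] [NumberField N]
  [Algebra L M] [Algebra M N] [IsTotallyReal L] (D : Dat L M) {d a : L}
  {V T U U' : Finset (HeightOneSpectrum (𝓞 L))} (Q : QS M N)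
include D

/-- [TRX-D3] PROOF. `TU.dp_of D.h7 H.ne` (the hypothesis at `v ∌ 7`: `v ∈ V`: `H.four`, `H.seven`; `v ∉ V`: `H.ur`), then `exists_normal` for `d` or `-7 d` gives an `NF` as at the end of `TTS.exists_NF`, and `NF.fin`. -/
theorem fin_M (H : SP L d V) : Finite (Ws (algebraMap L M d)).toAffine.Point := by
  have hdp : DP L d := by
    refine dp_of D.h7 H.ne ?_
    intro v h7
    by_cases hv : v ∈ V
    · exact Or.inr ⟨H.four v hv, H.seven v hv⟩
    · exact Or.inl (H.ur v hv h7)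
  rcases hdp with h | h
  · obtain ⟨x, t, c, S, hx, hdx, hA⟩ := exists_normal D h
    exact NF.fin D ⟨H.ne, hA, x, hx, Or.inl hdx⟩
  · obtain ⟨x, t, c, S, hx, hdx, hA⟩ := exists_normal D h
    exact NF.fin D ⟨H.ne, hA, x, hx, Or.inr hdx⟩

/-- [TRX-D3] PROOF. `SP.mul` (C1: `d a` with `symmDiff V T`), `fin_M`. -/
theorem fin_M_mul (hd : SP L d V) (ha : SP L a T) : Finite (Ws (algebraMap L M a * algebraMap L M d)).toAffine.Point := by
  rw [← map_mul]
  exact fin_M D (TRX.SP.mul ha hd)

/-- [TRX-D3] the Selmer groups over `M` are trivial for `d` and `a d`. PROOF. `TTS.sel`, `TTS.sel_neg` (TTS/S9g.lean) for `d` and for `a * d` (`SP.mul`, C1). -/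
theorem sel_all (hd : SP L d V) (ha : SP L a T) (hQ : Q.e = algebraMap L M a) :
    Sel (algebraMap L M d) D.r ∧ Sel (algebraMap L M d) (-D.r) ∧ Sel (Q.e * algebraMap L M d) D.r ∧
      Sel (Q.e * algebraMap L M d) (-D.r) := by
  have h1 : Q.e * algebraMap L M d = algebraMap L M (a * d) := by rw [hQ, map_mul]
  rw [h1]
  exact ⟨sel D hd, sel_neg D hd, sel D (TRX.SP.mul ha hd), sel_neg D (TRX.SP.mul ha hd)⟩

end

end TRX
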