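import Pool.Agent.TRX.B1
import Pool.Agent.TTS.S9l
import Pool.Agent.TU.G0

set_option autoImplicit false

open NumberField Ideal IsDedekindDomain WeierstrassCurve.Affine
open scoped Classical

/-! # [TRX-D3c] arithmetic of `N = M(√a)` -/

namespace TRX

open TR TU TTS

section
variable {M N : Type} [Field M] [NumberField M] [Field N] [NumberField N] [Algebra M N] (Q : QS M N)

include Q in
theorem d3c_s0 : Q.s ≠ 0 := by
  intro h
  apply Q.ns 0
  rw [map_zero, h]

theorem d3c_fixed {x : N} (h : Q.cj x = x) : ∃ y : M, algebraMap M N y = x := by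
  have h1 := Q.eq_ca_cb x
  rw [Q.cj_apply] at h
  refine ⟨Q.ca x, ?_⟩
  have h2 : (2 : N) * (algebraMap M N (Q.cb x) * Q.s) = 0 := by
    linear_combination -h1 - h
  have h3 := (mul_eq_zero.1 h2).resolve_left two_ne_zero
  rw [h3, add_zero] at h1
  exact h1.symm

theorem d3c_neg {x : N} (h : Q.cj x = -x) : ∃ y : M, algebraMap M N y * Q.s = x := by
  have h1 := Q.eq_ca_cb x
  rw [Q.cj_apply] at h
  refine ⟨Q.cb x, ?_⟩
  have h2 : (2 : N) * algebraMap M N (Q.ca x) = 0 := by
    linear_combination -h1 + h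
  have h3 := (mul_eq_zero.1 h2).resolve_left two_ne_zero
  rw [h3, zero_add] at h1
  exact h1.symm

/-- [TRX-D3] **finitely many points over `N`.** PROOF. `θ = Q.s`, `θ² = e`. For `P ∈ E(N)`, `E = Ws d₁`, let `P^σ` be the conjugate (`ptH` of `Q.cj`; `Q.cj (algebraMap d₁) = algebraMap d₁`). `P + P^σ` is fixed, so it comes from `E(M)` (`TTS.exists_ptH`; elements of `N` fixed by `Q.cj` are in `M`: `Q.gen`); `P - P^σ = (x, y)` is mapped to its negative, so `x ∈ M`, `y ∈ M θ`,
and it is the image of the point `(e x, e² (y / θ))` of `Ws (e d₁)` over `M` under `(X, Y) ↦ (X / e, Y θ / e² )`, an injection (`e = θ²`: this is `TRX.scalH` of B1 with `u = θ⁻¹` after the base change to `N`). So `2 P = (P + P^σ) + (P - P^σ)` lies in a finite set, and the fibres of `P ↦ 2 P` are finite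
(at most four points `T` with `2 T = 0`: `TTS.two_nsmul_eq_zero` with `r ∈ N`). -/
theorem finite_N {d₁ r : M} (hd₁ : d₁ ≠ 0) (hr : r ^ 2 = -7) (h1 : Finite (Ws d₁).toAffine.Point)
    (h2 : Finite (Ws (Q.e * d₁)).toAffine.Point) : Finite (Ws (algebraMap M N d₁)).toAffine.Point := by
  obtain ⟨δ, hδ⟩ : ∃ δ : N, algebraMap M N d₁ = δ := ⟨_, rfl⟩
  rw [hδ]
  have hδ0 : δ ≠ 0 := by
    rw [← hδ, Ne, map_eq_zero]
    exact hd₁
  have hs0 := d3c_s0 Q
  have he0 : Q.e ≠ 0 := by
    intro h
    have h3 := Q.hs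
    rw [h, map_zero] at h3
    exact hs0 (pow_eq_zero_iff two_ne_zero |>.1 h3)
  -- the conjugation
  have hcδ : (Q.cj : N →+* N) δ = δ := by
    rw [← hδ]
    exact Q.cj.commutes d₁
  let cj : (Ws δ).toAffine.Point →+ (Ws δ).toAffine.Point := ptH (Q.cj : N →+* N) hcδ
  have hcc : ∀ P, cj (cj P) = P := by
    intro P
    have h3 : (Q.cj : N →+* N).comp (Q.cj : N →+* N) = RingHom.id N := by
      ext x
      exact Q.cj_cj x
    cases P with
    | zero => rfl
    | some x y h =>
      change (WeierstrassCurve.Affine.Point.some (Q.cj (Q.cj x)) (Q.cj (Q.cj y)) _ : (Ws δ).toAffine.Point) = _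
      rw [WeierstrassCurve.Affine.Point.some.injEq]
      exact ⟨Q.cj_cj x, Q.cj_cj y⟩
  -- the two finite sets
  have hδ2 : algebraMap M N (Q.e * d₁) = Q.s ^ 2 * δ := by
    rw [map_mul, Q.hs, hδ]
  let B : Set (Ws δ).toAffine.Point := Set.range (ptH (algebraMap M N) hδ)
  have hB : B.Finite := Set.finite_range _
  let C' : Set (Ws (Q.s ^ 2 * δ)).toAffine.Point := Set.range (ptH (algebraMap M N) hδ2)
  have hC' : C'.Finite := Set.finite_range _
  let C : Set (Ws δ).toAffine.Point := scalH hs0 rfl ⁻¹' C'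
  have hC : C.Finite := hC'.preimage ((scalH_injective hs0 rfl).injOn)
  have hfixB : ∀ P : (Ws δ).toAffine.Point, cj P = P → P ∈ B := by
    intro P hP
    apply exists_ptH (algebraMap M N) hδ hd₁
    · apply d3c_fixed Q
      have h3 := (xP_ptH (Q.cj : N →+* N) hcδ P).1
      change xP (cj P) = Q.cj (xP P) at h3
      rw [← h3, hP]
    · apply d3c_fixed Q
      have h3 := (xP_ptH (Q.cj : N →+* N) hcδ P).2
      change yP (cj P) = Q.cj (yP P) at h3
      rw [← h3, hP]
  have hnegC : ∀ P : (Ws δ).toAffine.Point, cj P = -P → P ∈ C := by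
    intro P hP
    have hx : Q.cj (xP P) = xP P := by
      have h3 := (xP_ptH (Q.cj : N →+* N) hcδ P).1
      change xP (cj P) = Q.cj (xP P) at h3
      rw [← h3, hP]
      cases P <;> rfl
    have hy : Q.cj (yP P) = -yP P := by
      have h3 := (xP_ptH (Q.cj : N →+* N) hcδ P).2
      change yP (cj P) = Q.cj (yP P) at h3
      rw [← h3, hP]
      cases P with
      | zero =>
        change (0 : N) = -0
        rw [neg_zero]
      | some x y h => exact b1_negY x y
    obtain ⟨a, ha⟩ := d3c_fixed Q hx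
    obtain ⟨b, hb⟩ := d3c_neg Q hy
    change scalH hs0 rfl P ∈ C'
    apply exists_ptH (algebraMap M N) hδ2 (mul_ne_zero he0 hd₁)
    · refine ⟨Q.e * a, ?_⟩
      have h3 : xP (scalH hs0 (rfl : Q.s ^ 2 * δ = Q.s ^ 2 * δ) P) = Q.s ^ 2 * xP P := by
        cases P with
        | zero =>
          change (0 : N) = Q.s ^ 2 * 0
          rw [mul_zero]
        | some x y h => rfl
      rw [h3, map_mul, ha, Q.hs]
    · refine ⟨Q.e ^ 2 * b, ?_⟩
      have h3 : yP (scalH hs0 (rfl : Q.s ^ 2 * δ = Q.s ^ 2 * δ) P) = Q.s ^ 3 * yP P := by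
        cases P with
        | zero =>
          change (0 : N) = Q.s ^ 3 * 0
          rw [mul_zero]
        | some x y h => rfl
      rw [h3, map_mul, map_pow, ← hb, ← Q.hs]
      ring
  -- the doubles
  have hdbl : ∀ P : (Ws δ).toAffine.Point, (2 : ℕ) • P ∈ (fun x : (Ws δ).toAffine.Point × (Ws δ).toAffine.Point =>
      x.1 + x.2) '' (B ×ˢ C) := by
    intro P
    refine ⟨(P + cj P, P - cj P), ⟨hfixB _ ?_, hnegC _ ?_⟩, ?_⟩
    · rw [map_add, hcc, add_comm]
    · rw [map_sub, hcc, neg_sub]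
    · change P + cj P + (P - cj P) = 2 • P
      rw [two_nsmul]
      abel
  have hfin : ((fun x : (Ws δ).toAffine.Point × (Ws δ).toAffine.Point => x.1 + x.2) '' (B ×ˢ C)).Finite :=
    (hB.prod hC).image _
  -- the 2-torsion
  have hR : (algebraMap M N r) ^ 2 = -7 := by
    rw [← map_pow, hr, map_neg, map_ofNat]
  have htor : {T : (Ws δ).toAffine.Point | (2 : ℕ) • T = 0}.Finite := by
    have h3 : ({0, T1 hδ0 hR, T2 hδ0 hR, T3 hδ0} : Set (Ws δ).toAffine.Point).Finite := Set.toFinite _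
    refine h3.subset fun T hT => ?_
    rcases (two_nsmul_eq_zero hδ0 hR T).1 hT with h | h | h | h
    · rw [h]; simp
    · rw [h]; simp
    · rw [h]; simp
    · rw [h]; simp
  have hpre : ((fun P : (Ws δ).toAffine.Point => (2 : ℕ) • P) ⁻¹'
      ((fun x : (Ws δ).toAffine.Point × (Ws δ).toAffine.Point => x.1 + x.2) '' (B ×ˢ C))).Finite := by
    refine hfin.preimage' fun b _ => ?_
    by_cases hb : ∃ P₀ : (Ws δ).toAffine.Point, (2 : ℕ) • P₀ = b
    · obtain ⟨P₀, hP₀⟩ := hb
      refine (htor.image (fun T => P₀ + T)).subset fun P hP => ⟨P - P₀, ?_, ?_⟩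
      · change (2 : ℕ) • (P - P₀) = 0
        have h3 : (2 : ℕ) • P = b := hP
        rw [smul_sub, h3, hP₀, sub_self]
      · change P₀ + (P - P₀) = P
        abel
    · have h3 : (fun P : (Ws δ).toAffine.Point => (2 : ℕ) • P) ⁻¹' {b} = ∅ := by
        ext P
        constructor
        · intro hP
          exact absurd ⟨P, hP⟩ hb
        · intro hP
          exact absurd hP (Set.notMem_empty _)
      rw [h3]
      exact Set.finite_empty
  rw [← Set.finite_univ_iff]
  exact hpre.subset fun P _ => hdbl P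

end

end TRX
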