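import Pool.Agent.TRX.D1
import Pool.Agent.TRX.D2
import Pool.Agent.TRX.D3a
import Pool.Agent.TRX.D3b
import Pool.Agent.TRX.D3c
import Pool.Agent.TRX.B7

set_option autoImplicit false

open NumberField Ideal IsDedekindDomain WeierstrassCurve.Affine
open scoped Classical

/-! # [TRX-D5] the classes over `N = M(√a)` -/

namespace TRX

open TR TU TTS

theorem d5_ne {K Ω : Type} [Field K] [Field Ω] [Algebra K Ω] {z : K} {α : Ω} (hz : z ≠ 0)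
    (h : algebraMap K Ω z = α ^ 2) : α ≠ 0 := by
  rintro rfl
  rw [zero_pow two_ne_zero] at h
  exact hz ((map_eq_zero _).1 h)

section
variable {L M N : Type} [Field L] [NumberField L] [Field M] [NumberField M] [Field N] [NumberField N]
  [Algebra L M] [Algebra M N] [IsTotallyReal L] (D : Dat L M) {d a : L}
  {V T U U' : Finset (HeightOneSpectrum (𝓞 L))} (Q : QS M N)
  {Ω : Type} [Field Ω] [CharZero Ω] [Algebra M Ω] [Algebra N Ω] [IsScalarTower M N Ω] [IsAlgClosure M Ω] [IsAlgClosure N Ω] {δ ρ : Ω}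
include D

/-- [TRX-D5] **every locally trivial cocycle over `N` of `2`-power order is the sum of the classes of some `c`, `c'`.** PROOF. `exists_down` (B7; `sel_all`): `y`, `R` with `2 y = 0`. `exists_split` (D1): `y = kap α + kap β`, `z`, `z'`. `selN_of_locTriv` (D2) for `ρ`, `r` and for `-ρ`, `-r`: `SelN N d r z`, `SelN N d (-r) z'`.
`exists_star_of_selN` (C7) for `D` and for `D.neg` (`D.neg.r = -D.r`): `U`, `c`, `U'`, `c'`. `kap_congr` over `N` (z and `c` differ by `1` or `d r` in `M`, so in `N`): `kap (M := M) α (σ.restrictScalars M) = kap (M := N) α σ` is `rfl`. -/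
theorem exists_stars (hd : SP L d V) (ha : SP L a T) (hQ : Q.e = algebraMap L M a)
    (hδ : algebraMap M Ω (algebraMap L M d) = δ) (hδ0 : δ ≠ 0) (hρr : algebraMap M Ω D.r = ρ) (hρ : ρ ^ 2 = -7) (hρ' : (-ρ) ^ 2 = -7)
    (hfixN : ∀ σ : Ω ≃ₐ[N] Ω, (σ : Ω →+* Ω) δ = δ)
    (x : (Ω ≃ₐ[N] Ω) → (Ws δ).toAffine.Point) (hx : Coc N Ω hfixN x)
    (hloc : ∀ w : HeightOneSpectrum (𝓞 N),
      LocTriv x (w.adicCompletion N) (AlgebraicClosure (w.adicCompletion N))) (k : ℕ)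
    (htors : ∃ P : (Ws δ).toAffine.Point, ∀ σ : Ω ≃ₐ[N] Ω,
      2 ^ k • x σ = ptH (σ : Ω →+* Ω) (hfixN σ) P - P) :
    ∃ U ⊆ T, ∃ U' ⊆ T, (Even T.card → Even U.card) ∧ (Even T.card → Even U'.card) ∧
      ∃ c c' : L, Star U c ∧ Star U' c' ∧ ∃ (γ γ' : Ω) (R : (Ws δ).toAffine.Point),
        algebraMap M Ω (algebraMap L M c) = γ ^ 2 ∧ algebraMap M Ω (algebraMap L M c') = γ' ^ 2 ∧
        ∀ σ : Ω ≃ₐ[N] Ω, x σ = kap hδ0 hρ γ σ + kap hδ0 hρ' γ' σ + (ptH (σ : Ω →+* Ω) (hfixN σ) R - R) := by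
  have hfix : ∀ σ : Ω ≃ₐ[M] Ω, (σ : Ω →+* Ω) δ = δ := fun σ => by
    rw [← hδ]
    exact σ.commutes _
  have hcl : IsAlgClosed Ω := IsAlgClosure.isAlgClosed M
  obtain ⟨s1, s2, s3, s4⟩ := sel_all D Q hd ha hQ
  obtain ⟨y, R, hy, h2, hxy⟩ := exists_down Q D.hr s1 s2 s3 s4 hδ hδ0 hfix hfixN x hx hloc k htors
  obtain ⟨α, β, z, z', hz0, hz0', hz, hz', hα, hβ, hsplit⟩ := exists_split hρr hρ hρ' hδ0 hfix y hy h2
  have hα0 : α ≠ 0 := d5_ne hz0 hz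
  have hβ0 : β ≠ 0 := d5_ne hz0' hz'
  have hρr' : algebraMap M Ω (Dat.neg D).r = -ρ := by
    change algebraMap M Ω (-D.r) = -ρ
    rw [map_neg, hρr]
  have hS1 : SelN N (algebraMap L M d) D.r z :=
    selN_of_locTriv hδ hδ0 D.hr hρr hρ hfixN h2 hloc hxy hα0 hα hz
  have hS2 : SelN N (algebraMap L M d) (Dat.neg D).r z' :=
    selN_of_locTriv hδ hδ0 (Dat.neg D).hr hρr' hρ' hfixN h2 hloc hxy hβ0 hβ hz'
  obtain ⟨U, hU, hUp, c, hc, hzc⟩ := exists_star_of_selN D Q hd ha hQ hz0 hS1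
  obtain ⟨U', hU', hUp', c', hc', hzc'⟩ := exists_star_of_selN (Dat.neg D) Q hd ha hQ hz0' hS2
  obtain ⟨γ, hγ⟩ := IsAlgClosed.exists_pow_nat_eq (algebraMap M Ω (algebraMap L M c)) (n := 2) (by norm_num)
  obtain ⟨γ', hγ'⟩ := IsAlgClosed.exists_pow_nat_eq (algebraMap M Ω (algebraMap L M c')) (n := 2) (by norm_num)
  have hcM : algebraMap L M c ≠ 0 := (map_ne_zero _).2 hc.ne
  have hcM' : algebraMap L M c' ≠ 0 := (map_ne_zero _).2 hc'.ne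
  obtain ⟨S, hS⟩ := kap_congr hδ D.hr hρr hρ hδ0 hfix hz hγ.symm hz0 hcM hzc
  obtain ⟨S', hS'⟩ := kap_congr hδ (Dat.neg D).hr hρr' hρ' hδ0 hfix hz' hγ'.symm hz0' hcM' hzc'
  refine ⟨U, hU, U', hU', hUp, hUp', c, c', hc, hc', γ, γ', S + S' + R, hγ.symm, hγ'.symm, fun σ => ?_⟩
  have e1 : ∀ P : (Ws δ).toAffine.Point, ptH ((σ.restrictScalars M : Ω ≃ₐ[M] Ω) : Ω →+* Ω) (hfix _) P =
      ptH (σ : Ω →+* Ω) (hfixN σ) P := fun P => s9a_congr (RingHom.ext fun _ => rfl) _ _ P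
  rw [hxy σ, hsplit, hS, hS', e1, e1, map_add, map_add]
  have e2 : kap (M := M) hδ0 hρ γ (σ.restrictScalars M) = kap (M := N) hδ0 hρ γ σ := rfl
  have e3 : kap (M := M) hδ0 hρ' γ' (σ.restrictScalars M) = kap (M := N) hδ0 hρ' γ' σ := rfl
  rw [e2, e3]
  abel

/-- [TRX-D5] **the kernel.** PROOF. `class_of_coboundary` (D2) over `N` for `ρ` and for `-ρ` (`ch_kap`, D1; `dr_not_sq_N`, D3a; `finite_N`, `fin_M`, `fin_M_mul`): `c₁ c₂` or `c₁ c₂ d r` is a square in `N`; `symmDiff_of_sq` (D3a; for `-r`: `D.neg`). Here `γ² = c₁ c₂`, `γ'² = c₁' c₂'`. -/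
theorem symmDiff_of_coboundary (hd : SP L d V) (ha : SP L a T) (hQ : Q.e = algebraMap L M a)
    (hδ : algebraMap M Ω (algebraMap L M d) = δ) (hδ0 : δ ≠ 0) (hρr : algebraMap M Ω D.r = ρ) (hρ : ρ ^ 2 = -7) (hρ' : (-ρ) ^ 2 = -7)
    (hfixN : ∀ σ : Ω ≃ₐ[N] Ω, (σ : Ω →+* Ω) δ = δ)
    {U₁ U₂ U₁' U₂' : Finset (HeightOneSpectrum (𝓞 L))} (hU₁ : U₁ ⊆ T) (hU₂ : U₂ ⊆ T) (hU₁' : U₁' ⊆ T) (hU₂' : U₂' ⊆ T)
    {c₁ c₂ c₁' c₂' : L} (hc₁ : Star U₁ c₁) (hc₂ : Star U₂ c₂) (hc₁' : Star U₁' c₁') (hc₂' : Star U₂' c₂')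
    {γ γ' : Ω} (hγ : algebraMap M Ω (algebraMap L M (c₁ * c₂)) = γ ^ 2) (hγ' : algebraMap M Ω (algebraMap L M (c₁' * c₂')) = γ' ^ 2)
    {R : (Ws δ).toAffine.Point}
    (h : ∀ σ : Ω ≃ₐ[N] Ω, kap hδ0 hρ γ σ + kap hδ0 hρ' γ' σ = ptH (σ : Ω →+* Ω) (hfixN σ) R - R) :
    (symmDiff U₁ U₂ = ∅ ∨ symmDiff U₁ U₂ = T) ∧ (symmDiff U₁' U₂' = ∅ ∨ symmDiff U₁' U₂' = T) := by
  have hcl : IsAlgClosed Ω := IsAlgClosure.isAlgClosed M
  have hdM : algebraMap L M d ≠ 0 := (map_ne_zero _).2 hd.ne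
  have hdN : algebraMap M N (algebraMap L M d) ≠ 0 := (map_ne_zero _).2 hdM
  have hδN : algebraMap N Ω (algebraMap M N (algebraMap L M d)) = δ := by
    rw [← IsScalarTower.algebraMap_apply, hδ]
  have hρN : algebraMap N Ω (algebraMap M N D.r) = ρ := by
    rw [← IsScalarTower.algebraMap_apply, hρr]
  have hρN' : algebraMap N Ω (algebraMap M N (-D.r)) = -ρ := by
    rw [map_neg, map_neg, hρN]
  have hrN : (algebraMap M N D.r) ^ 2 = -7 := by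
    rw [← map_pow, D.hr, map_neg, map_ofNat]
  have hrN' : (algebraMap M N (-D.r)) ^ 2 = -7 := by
    rw [map_neg, neg_sq]
    exact hrN
  have hzM : algebraMap L M (c₁ * c₂) ≠ 0 := (map_ne_zero _).2 (mul_ne_zero hc₁.ne hc₂.ne)
  have hzM' : algebraMap L M (c₁' * c₂') ≠ 0 := (map_ne_zero _).2 (mul_ne_zero hc₁'.ne hc₂'.ne)
  have hzN : algebraMap M N (algebraMap L M (c₁ * c₂)) ≠ 0 := (map_ne_zero _).2 hzM
  have hzN' : algebraMap M N (algebraMap L M (c₁' * c₂')) ≠ 0 := (map_ne_zero _).2 hzM'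
  have hγ0 : γ ≠ 0 := d5_ne hzM hγ
  have hγ0' : γ' ≠ 0 := d5_ne hzM' hγ'
  have hγN : algebraMap N Ω (algebraMap M N (algebraMap L M (c₁ * c₂))) = γ ^ 2 := by
    rw [← IsScalarTower.algebraMap_apply, hγ]
  have hγN' : algebraMap N Ω (algebraMap M N (algebraMap L M (c₁' * c₂'))) = γ' ^ 2 := by
    rw [← IsScalarTower.algebraMap_apply, hγ']
  obtain ⟨n1, n2⟩ := dr_not_sq_N D Q hd ha hQ
  have hfin : Finite (Ws (algebraMap M N (algebraMap L M d))).toAffine.Point := by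
    refine finite_N Q hdM D.hr (fin_M D hd) ?_
    rw [hQ]
    exact fin_M_mul D hd ha
  have h2 : ∀ σ : Ω ≃ₐ[N] Ω, (2 : ℕ) • (kap hδ0 hρ γ σ + kap hδ0 hρ' γ' σ) = 0 := fun σ => by
    rw [smul_add, two_kap, two_kap, add_zero]
  have hch := fun σ : Ω ≃ₐ[N] Ω => ch_kap hρ hρ' hδ0 hγN hγN' hγ0 hγ0' σ
  constructor
  · apply symmDiff_of_sq D Q hd ha hQ hU₁ hU₂ hc₁ hc₂
    rw [map_mul] at n1 n2
    have h3 := class_of_coboundary hdN hrN hzN n1 n2 hδN hδ0 hfixN hρN hρ hγN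
      (fun σ => kap hδ0 hρ γ σ + kap hδ0 hρ' γ' σ) h2 (fun σ => (hch σ).1) R h
    rw [map_mul (algebraMap M N) (algebraMap L M d)]
    exact h3
  · have hQ' : Q.e = algebraMap L M a := hQ
    apply symmDiff_of_sq (Dat.neg D) Q hd ha hQ' hU₁' hU₂' hc₁' hc₂'
    obtain ⟨n1', n2'⟩ := dr_not_sq_N (Dat.neg D) Q hd ha hQ
    rw [map_mul] at n1' n2'
    have h3 := class_of_coboundary hdN hrN' hzN' n1' n2' hδN hδ0 hfixN hρN' hρ' hγN'
      (fun σ => kap hδ0 hρ γ σ + kap hδ0 hρ' γ' σ) h2 (fun σ => (hch σ).2) R h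
    rw [map_mul (algebraMap M N) (algebraMap L M d)]
    exact h3

/-- [TRX-D5] conversely. PROOF. `sq_of_symmDiff` (D3a), `kap_congr` over `N` (`IsSquare (c₁ c₂)` in `N`). -/
theorem kap_of_symmDiff (ha : SP L a T) (hQ : Q.e = algebraMap L M a) (hδ0 : δ ≠ 0) {ρ : Ω} (hρ : ρ ^ 2 = -7)
    {U₁ U₂ : Finset (HeightOneSpectrum (𝓞 L))} (hU₁ : U₁ ⊆ T) (hU₂ : U₂ ⊆ T) {c₁ c₂ : L} (hc₁ : Star U₁ c₁) (hc₂ : Star U₂ c₂)
    (hs : symmDiff U₁ U₂ = ∅ ∨ symmDiff U₁ U₂ = T)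
    {γ γ' : Ω} (hγ : algebraMap M Ω (algebraMap L M c₁) = γ ^ 2) (hγ' : algebraMap M Ω (algebraMap L M c₂) = γ' ^ 2) (σ : Ω ≃ₐ[N] Ω) :
    kap hδ0 hρ γ σ = kap hδ0 hρ γ' σ := by
  have hc₁M : algebraMap L M c₁ ≠ 0 := (map_ne_zero _).2 hc₁.ne
  have hc₂M : algebraMap L M c₂ ≠ 0 := (map_ne_zero _).2 hc₂.ne
  have hγ0 : γ ≠ 0 := d5_ne hc₁M hγ
  have hγ0' : γ' ≠ 0 := d5_ne hc₂M hγ'
  have hγN : algebraMap N Ω (algebraMap M N (algebraMap L M c₁)) = γ ^ 2 := by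
    rw [← IsScalarTower.algebraMap_apply, hγ]
  have hγN' : algebraMap N Ω (algebraMap M N (algebraMap L M c₂)) = γ' ^ 2 := by
    rw [← IsScalarTower.algebraMap_apply, hγ']
  have h1 := kap_mul hρ hδ0 hγN hγN' hγ0 hγ0' σ
  have h2 : kap hδ0 hρ (γ * γ') σ = 0 := by
    refine kap_sq (z := algebraMap M N (algebraMap L M (c₁ * c₂))) hρ hδ0 ?_ ?_ σ
    · rw [map_mul, map_mul, map_mul, hγN, hγN']
      ring
    · exact sq_of_symmDiff D Q ha hQ hU₁ hU₂ hc₁ hc₂ hs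
  have h3 := two_kap hδ0 hρ γ' σ
  rw [h2] at h1
  rw [two_nsmul] at h3
  have h4 : kap hδ0 hρ γ σ + kap hδ0 hρ γ' σ = kap hδ0 hρ γ' σ + kap hδ0 hρ γ' σ := by
    rw [h3, ← h1]
  exact add_right_cancel h4

/-- [TRX-D5] the classes are locally trivial at the finite places. PROOF. `selN_star` (C6), `kap_locTriv` (K4) over `N`. -/
theorem kap_star_locTriv (hd : SP L d V) (ha : SP L a T) (hQ : Q.e = algebraMap L M a)
    (hδ : algebraMap M Ω (algebraMap L M d) = δ) (hδ0 : δ ≠ 0) (hρr : algebraMap M Ω D.r = ρ) (hρ : ρ ^ 2 = -7)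
    {U : Finset (HeightOneSpectrum (𝓞 L))} (hU : U ⊆ T) (hpar : Even T.card → Even U.card) {c : L} (hc : Star U c)
    {γ : Ω} (hγ : algebraMap M Ω (algebraMap L M c) = γ ^ 2) (w : HeightOneSpectrum (𝓞 N)) :
    LocTriv (kap (M := N) hδ0 hρ γ) (w.adicCompletion N) (AlgebraicClosure (w.adicCompletion N)) := by
  have hδN : algebraMap N Ω (algebraMap M N (algebraMap L M d)) = δ := by
    rw [← IsScalarTower.algebraMap_apply, hδ]
  have hρN : algebraMap N Ω (algebraMap M N D.r) = ρ := by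
    rw [← IsScalarTower.algebraMap_apply, hρr]
  have hrN : (algebraMap M N D.r) ^ 2 = -7 := by
    rw [← map_pow, D.hr, map_neg, map_ofNat]
  have hcN : algebraMap M N (algebraMap L M c) ≠ 0 := (map_ne_zero _).2 ((map_ne_zero _).2 hc.ne)
  have hγN : algebraMap N Ω (algebraMap M N (algebraMap L M c)) = γ ^ 2 := by
    rw [← IsScalarTower.algebraMap_apply, hγ]
  have : CharZero (w.adicCompletion N) :=
    charZero_of_injective_algebraMap (algebraMap N (w.adicCompletion N)).injective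
  have hsel := selN_star D Q hd ha hQ hU hc hpar w
  subst hρN
  exact kap_locTriv hδ0 hδN hrN hρ hcN hγN _ _ hsel

end

end TRX
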