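import Pool.Agent.TRX.D0
import Pool.Agent.TRX.D5
import Pool.Agent.TRX.D6
import Pool.Agent.TRX.D6i
import Pool.Agent.TRX.D8

set_option autoImplicit false

open NumberField Ideal IsDedekindDomain WeierstrassCurve.Affine
open scoped Classical

/-! # [TRX-D9] the Tate–Shafarevich group over `N = M(√a)` -/

namespace TRX

open TR TU TTS

theorem d9_one {F Ω : Type} [Field F] [Field Ω] [Algebra F Ω] {d : Ω}
    {hfix : ∀ σ : Ω ≃ₐ[F] Ω, (σ : Ω →+* Ω) d = d} {c : (Ω ≃ₐ[F] Ω) → (Ws d).toAffine.Point}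
    (hc : Coc F Ω hfix c) : c 1 = 0 := by
  have h := hc.crossed 1 1
  rw [mul_one] at h
  have h1 : ptF ((1 : Ω ≃ₐ[F] Ω) : Ω →+* Ω) (hfix 1) (c 1) = c 1 := by
    cases c 1 <;> rfl
  rw [h1] at h
  exact left_eq_add.1 h

section
variable {L M N : Type} [Field L] [NumberField L] [Field M] [NumberField M] [Field N] [NumberField N]
  [Algebra L M] [Algebra M N] [IsTotallyReal L] (D : Dat L M) {d a : L}
  {V T : Finset (HeightOneSpectrum (𝓞 L))} (Q : QS M N)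
include D

omit D [IsTotallyReal L] in
/-- [TRX-D9] a cocycle over a field which contains `√-7` is trivial at the infinite places. PROOF. `τ` fixes the image of `r`, so `τ = 1` (`inf_eq_one`), `σ = 1` (injectivity of `ι`), `c 1 = 0`; the point `0`. -/
theorem inf_locTriv {r : N} (hr : r ^ 2 = -7) {Ω : Type} [Field Ω] [Algebra N Ω] {δ : Ω}
    {hfix : ∀ σ : Ω ≃ₐ[N] Ω, (σ : Ω →+* Ω) δ = δ} {c : (Ω ≃ₐ[N] Ω) → (Ws δ).toAffine.Point} (hc : Coc N Ω hfix c)
    (v : InfinitePlace N) : LocTriv c v.Completion (AlgebraicClosure v.Completion) := by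
  intro ι dv hdv hfixv
  refine ⟨0, fun τ σ hστ => ?_⟩
  have h0 : τ (ι (algebraMap N Ω r)) = ι (algebraMap N Ω r) := by
    rw [← hστ, AlgEquiv.commutes]
  have h1 : (ι (algebraMap N Ω r)) ^ 2 = -7 := by
    rw [← map_pow, ← map_pow, hr, map_neg, map_ofNat, map_neg, map_ofNat]
  have h2 : τ = 1 := inf_eq_one v h1 τ h0
  have h3 : σ = 1 := by
    refine AlgEquiv.ext fun x => ?_
    have h4 : ι (σ x) = ι x := by
      rw [hστ, h2]
      rfl
    exact ι.toRingHom.injective h4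
  rw [h3, d9_one hc, map_zero, map_zero, sub_zero]

/-- [TRX-D9] **THEOREM.** PROOF. `Ω = AlgebraicClosure N` (`QTB.isAlgClosure_up M N`), `δ = algebraMap M Ω (algebraMap L M d)`, `ρ = algebraMap M Ω D.r`. `t₀ ∈ T`. For `U : BSet T t₀` choose `c U` with `Star U (c U)` (`exists_star`, `NiceSet.subset`, `ha.nice`) and `γ U` with `γ² = c`. For `(U, U')` the cocycle `kap (γ U) + kap' (γ U')` is locally trivial
(`kap_coc`, `coc_add`, `kap_star_locTriv` for `D` and `D.neg`, `locTriv_add`, `inf_locTriv`), `rep_of_coc` (D0) gives `Φ (U, U')`. `two_part` (D0) with `B = BSet T t₀ × BSet T t₀` (`Nat.card_prod`, `card_BSet`): (1) `two_kap`, `rep_nsmul_eq_zero_iff`. (2) `rep_eq_iff`: the difference is `kap (γ U γ U₁) + kap' (γ U' γ U₁')` (`kap_mul`, `two_kap`):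
`symmDiff_of_coboundary`, `BSet_inj`. (3) `exists_rep`, `Rep.coc`, `rep_nsmul_eq_zero_iff`, `exists_stars`; `exists_BSet`, `kap_of_symmDiff`; `rep_eq_iff`. -/
theorem sha_N (hd : SP L d V) (ha : SP L a T) (hQ : Q.e = algebraMap L M a) (hT : T.Nonempty) (C : WeierstrassCurve.VariableChange N) :
    (∀ (x : SBSD.Sha (C • Ws (algebraMap M N (algebraMap L M d)))) (k : ℕ), 2 ^ k • x = 0 → 2 • x = 0) ∧
      Nat.card {x : SBSD.Sha (C • Ws (algebraMap M N (algebraMap L M d))) // 2 • x = 0} =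
        2 ^ (2 * (2 * ((T.card - 1) / 2))) := by
  obtain ⟨t₀, ht₀⟩ := hT
  have hcl : IsAlgClosure M (AlgebraicClosure N) := QTB.isAlgClosure_up M N
  obtain ⟨δ, hδ⟩ : ∃ δ : AlgebraicClosure N, algebraMap M (AlgebraicClosure N) (algebraMap L M d) = δ :=
    ⟨_, rfl⟩
  obtain ⟨ρ, hρr⟩ : ∃ ρ : AlgebraicClosure N, algebraMap M (AlgebraicClosure N) D.r = ρ := ⟨_, rfl⟩
  have hd0M : algebraMap L M d ≠ 0 := (map_ne_zero _).2 hd.ne
  have hδ0 : δ ≠ 0 := by
    rw [← hδ]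
    exact (map_ne_zero _).2 hd0M
  have hρ : ρ ^ 2 = -7 := by
    rw [← hρr, ← map_pow, D.hr, map_neg, map_ofNat]
  have hρ' : (-ρ) ^ 2 = -7 := by
    rw [neg_sq, hρ]
  have htow : ∀ x : M, algebraMap N (AlgebraicClosure N) (algebraMap M N x) =
      algebraMap M (AlgebraicClosure N) x := fun x =>
    (IsScalarTower.algebraMap_apply M N (AlgebraicClosure N) x).symm
  have hδN : algebraMap N (AlgebraicClosure N) (algebraMap M N (algebraMap L M d)) = δ := by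
    rw [htow, hδ]
  have hρN : algebraMap N (AlgebraicClosure N) (algebraMap M N D.r) = ρ := by
    rw [htow, hρr]
  have hfixN : ∀ σ : AlgebraicClosure N ≃ₐ[N] AlgebraicClosure N,
      (σ : AlgebraicClosure N →+* AlgebraicClosure N) δ = δ := by
    intro σ
    rw [← hδN]
    exact σ.commutes _
  have hfR : ∀ σ : AlgebraicClosure N ≃ₐ[N] AlgebraicClosure N, σ ρ = ρ := by
    intro σ
    rw [← hρN]
    exact σ.commutes _
  have hfR' : ∀ σ : AlgebraicClosure N ≃ₐ[N] AlgebraicClosure N, σ (-ρ) = -ρ := by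
    intro σ
    rw [map_neg, hfR]
  have hr2 : (algebraMap M N D.r) ^ 2 = -7 := by
    rw [← map_pow, D.hr, map_neg, map_ofNat]
  have hρr' : algebraMap M (AlgebraicClosure N) D.neg.r = -ρ := by
    change algebraMap M (AlgebraicClosure N) (-D.r) = -ρ
    rw [map_neg, hρr]
  have hsub : ∀ U : BSet T t₀, U.1 ⊆ T := fun U => U.2.1.trans (Finset.erase_subset _ _)
  have hst : ∀ U : BSet T t₀, ∃ c : L, Star U.1 c := fun U => exists_star D (ha.nice.subset (hsub U))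
  choose c hc using hst
  have hsq : ∀ U : BSet T t₀, ∃ γ : AlgebraicClosure N,
      algebraMap M (AlgebraicClosure N) (algebraMap L M (c U)) = γ ^ 2 := by
    intro U
    obtain ⟨z, hz⟩ := IsAlgClosed.exists_pow_nat_eq
      (algebraMap M (AlgebraicClosure N) (algebraMap L M (c U))) (n := 2) (by norm_num)
    exact ⟨z, hz.symm⟩
  choose γ hγ using hsq
  have hγN : ∀ U, algebraMap N (AlgebraicClosure N) (algebraMap M N (algebraMap L M (c U))) = γ U ^ 2 := by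
    intro U
    rw [htow, hγ]
  have hγ0 : ∀ U, γ U ≠ 0 := by
    intro U h0
    have h1 := hγ U
    rw [h0, zero_pow two_ne_zero, map_eq_zero, map_eq_zero] at h1
    exact (hc U).ne h1
  have hκ : ∀ p : BSet T t₀ × BSet T t₀, Coc N (AlgebraicClosure N) hfixN
      (fun σ => kap hδ0 hρ (γ p.1) σ + kap hδ0 hρ' (γ p.2) σ) := fun p =>
    coc_add (kap_coc hδ0 hρ _ hfixN hfR (hγN p.1)) (kap_coc hδ0 hρ' _ hfixN hfR' (hγN p.2))
  have hκf : ∀ (p : BSet T t₀ × BSet T t₀) (w : HeightOneSpectrum (𝓞 N)),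
      LocTriv (fun σ : AlgebraicClosure N ≃ₐ[N] AlgebraicClosure N =>
        kap hδ0 hρ (γ p.1) σ + kap hδ0 hρ' (γ p.2) σ)
        (w.adicCompletion N) (AlgebraicClosure (w.adicCompletion N)) := fun p w =>
    locTriv_add (kap_star_locTriv D Q hd ha hQ hδ hδ0 hρr hρ (hsub p.1) p.1.2.2 (hc p.1) (hγ p.1) w)
      (kap_star_locTriv D.neg Q hd ha hQ hδ hδ0 hρr' hρ' (hsub p.2) p.2.2.2 (hc p.2) (hγ p.2) w)
  have hκi : ∀ (p : BSet T t₀ × BSet T t₀) (v : InfinitePlace N),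
      LocTriv (fun σ : AlgebraicClosure N ≃ₐ[N] AlgebraicClosure N =>
        kap hδ0 hρ (γ p.1) σ + kap hδ0 hρ' (γ p.2) σ)
        v.Completion (AlgebraicClosure v.Completion) := fun p v => inf_locTriv hr2 (hκ p) v
  choose Φ hΦ using fun p => rep_of_coc hδN C hfixN (hκ p) (hκf p) (hκi p)
  have h1 : ∀ p, 2 • Φ p = 0 := by
    intro p
    refine (rep_nsmul_eq_zero_iff hδN C hfixN (hΦ p) 2).2 ⟨0, fun σ => ?_⟩
    change 2 • (kap hδ0 hρ (γ p.1) σ + kap hδ0 hρ' (γ p.2) σ) = _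
    rw [smul_add, two_kap, two_kap, map_zero, sub_zero, add_zero]
  have h2 : Function.Injective Φ := by
    intro p p' h
    obtain ⟨R, hR⟩ := (rep_eq_iff hδN C hfixN (hΦ p) (hΦ p')).1 h
    have h3 : ∀ σ : AlgebraicClosure N ≃ₐ[N] AlgebraicClosure N,
        kap hδ0 hρ (γ p.1 * γ p'.1) σ + kap hδ0 hρ' (γ p.2 * γ p'.2) σ =
          ptH (σ : AlgebraicClosure N →+* AlgebraicClosure N) (hfixN σ) R - R := by
      intro σ
      have h4 : kap hδ0 hρ (γ p.1) σ + kap hδ0 hρ' (γ p.2) σ =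
          kap hδ0 hρ (γ p'.1) σ + kap hδ0 hρ' (γ p'.2) σ +
            (ptH (σ : AlgebraicClosure N →+* AlgebraicClosure N) (hfixN σ) R - R) := hR σ
      rw [kap_mul hρ hδ0 (hγN p.1) (hγN p'.1) (hγ0 _) (hγ0 _) σ,
        kap_mul hρ' hδ0 (hγN p.2) (hγN p'.2) (hγ0 _) (hγ0 _) σ]
      have h5 : kap hδ0 hρ (γ p.1) σ + kap hδ0 hρ (γ p'.1) σ +
          (kap hδ0 hρ' (γ p.2) σ + kap hδ0 hρ' (γ p'.2) σ) =
          (kap hδ0 hρ (γ p.1) σ + kap hδ0 hρ' (γ p.2) σ) +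
            (kap hδ0 hρ (γ p'.1) σ + kap hδ0 hρ' (γ p'.2) σ) := add_add_add_comm _ _ _ _
      have h6 := two_kap hδ0 hρ (γ p'.1) σ
      have h7 := two_kap hδ0 hρ' (γ p'.2) σ
      rw [two_nsmul] at h6 h7
      rw [h5, h4]
      have h8 : ∀ A B Z : (Ws δ).toAffine.Point, A + A = 0 → B + B = 0 →
          A + B + Z + (A + B) = Z := by
        intro A B Z hA hB
        have h9 : A + B + Z + (A + B) = (A + A) + (B + B) + Z := by abel
        rw [h9, hA, hB, zero_add, zero_add]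
      exact h8 _ _ _ h6 h7
    have hmul : ∀ U U' : BSet T t₀, algebraMap M (AlgebraicClosure N)
        (algebraMap L M (c U * c U')) = (γ U * γ U') ^ 2 := by
      intro U U'
      rw [map_mul, map_mul, hγ, hγ, mul_pow]
    obtain ⟨h4, h5⟩ := symmDiff_of_coboundary D Q hd ha hQ hδ hδ0 hρr hρ hρ' hfixN
      (hsub p.1) (hsub p'.1) (hsub p.2) (hsub p'.2) (hc p.1) (hc p'.1) (hc p.2) (hc p'.2)
      (hmul p.1 p'.1) (hmul p.2 p'.2) h3
    exact Prod.ext (BSet_inj ht₀ h4) (BSet_inj ht₀ h5)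
  have h3 : ∀ (x : SBSD.Sha (C • Ws (algebraMap M N (algebraMap L M d)))) (k : ℕ), 2 ^ k • x = 0 →
      ∃ p, Φ p = x := by
    intro x k hx
    obtain ⟨y, hy⟩ := exists_rep hδN C x
    obtain ⟨hyc, hyl⟩ := Rep.coc hδN C hfixN hy
    obtain ⟨U, hU, U', hU', hp, hp', e, e', he, he', η, η', R, hη, hη', hyR⟩ :=
      exists_stars D Q hd ha hQ hδ hδ0 hρr hρ hρ' hfixN y hyc hyl k
        ((rep_nsmul_eq_zero_iff hδN C hfixN hy (2 ^ k)).1 hx)
    obtain ⟨B, hB⟩ := exists_BSet ht₀ hU hp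
    obtain ⟨B', hB'⟩ := exists_BSet ht₀ hU' hp'
    refine ⟨(B, B'), (rep_eq_iff hδN C hfixN (hΦ (B, B')) hy).2 ⟨-R, fun σ => ?_⟩⟩
    change kap hδ0 hρ (γ B) σ + kap hδ0 hρ' (γ B') σ = _
    rw [hyR σ, kap_of_symmDiff D Q ha hQ hδ0 hρ hU (hsub B) he (hc B) hB hη (hγ B) σ,
      kap_of_symmDiff D Q ha hQ hδ0 hρ' hU' (hsub B') he' (hc B') hB' hη' (hγ B') σ, map_neg]
    abel
  obtain ⟨h4, h5⟩ := two_part Φ h1 h2 h3
  refine ⟨h4, ?_⟩
  rw [h5, Nat.card_prod, card_BSet ht₀, ← pow_add]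
  congr 1
  ring

end

end TRX
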